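import Pool.Agent.Helper702_TH.Stm

/-!
# Project TH (helper702), part K (helper523): the kill
-/

set_option autoImplicit false
set_option maxHeartbeats 400000

open Filter Topology Finset
open scoped Classical

namespace Pool.Agent.Helper702_TH.K

open Helper418 Pool.Agent.helper987_SE Pool.Agent.Helper702_TH

noncomputable section

variable {A : ℕ → Type} [∀ n, Fintype (A n)]

theorem cls_mul (s t : ∀ n, Equiv.Perm (A n)) :
    (cls s : SS A) * cls t = cls (fun n => s n * t n) := rfl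

theorem cls_eq {s t : ∀ n, Equiv.Perm (A n)} :
    (cls s : SS A) = cls t ↔ ∀ᶠ x in ae A, s x.1 x.2 = t x.1 x.2 := by
  unfold cls
  rw [QuotientGroup.eq]
  show Nul (s⁻¹ * t) ↔ _
  unfold Nul
  constructor
  · intro h
    filter_upwards [h] with x hx
    rw [Pi.mul_apply, Pi.inv_apply, Equiv.Perm.mul_apply, Equiv.Perm.inv_eq_iff_eq] at hx
    exact hx.symm
  · intro h
    filter_upwards [h] with x hx
    rw [Pi.mul_apply, Pi.inv_apply, Equiv.Perm.mul_apply, Equiv.Perm.inv_eq_iff_eq]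
    exact hx.symm

/-- Markov's inequality with the worst choice -/
theorem markov {Q : ℕ → Type} [∀ n, Fintype (Q n)] [∀ n, Nonempty (Q n)]
    (B : ∀ n, Q n → A n → Prop) (h : ∀ q : ∀ n, Q n, ∀ᶠ x in ae A, ¬ B x.1 (q x.1) x.2) :
    ∀ᶠ x in ae A, 100 * (univ.filter fun q : Q x.1 => B x.1 q x.2).card ≤
      Fintype.card (Q x.1) := by
  have hq : ∀ n, ∃ q : Q n, ∀ q' : Q n,
      (univ.filter fun a : A n => B n q' a).card ≤ (univ.filter fun a : A n => B n q a).card := by
    intro n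
    exact Finite.exists_max _
  choose q hq using hq
  have h1 := (mem_ae (P := fun n a => ¬ B n (q n) a)).1 (h q)
  refine (mem_ae (P := fun n a => 100 * (univ.filter fun q : Q n => B n q a).card ≤
      Fintype.card (Q n))).2 ?_
  have h2 : Tendsto (fun n => 100 * Helper418.dens (fun n a => ¬ ¬ B n (q n) a) n) atTop (𝓝 0) := by
    simpa using h1.const_mul 100
  refine squeeze_zero (fun n => dens_nonneg _ n) (fun n => ?_) h2
  unfold Helper418.dens
  rw [← mul_div_assoc]
  apply div_le_div_of_nonneg_right _ (Nat.cast_nonneg _)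
  have key : (univ.filter fun a : A n => ¬ 100 * (univ.filter fun q : Q n => B n q a).card ≤
      Fintype.card (Q n)).card ≤ 100 * (univ.filter fun a : A n => B n (q n) a).card := by
    set X := univ.filter fun a : A n => ¬ 100 * (univ.filter fun q : Q n => B n q a).card ≤
      Fintype.card (Q n) with hX
    set D := (univ.filter fun a : A n => B n (q n) a).card with hD
    have hpos : 0 < Fintype.card (Q n) := Fintype.card_pos
    have e1 : X.card * Fintype.card (Q n) ≤
        ∑ a ∈ X, 100 * (univ.filter fun q : Q n => B n q a).card := by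
      rw [← smul_eq_mul, ← Finset.sum_const]
      apply Finset.sum_le_sum
      intro a ha
      rw [hX, mem_filter] at ha
      exact (not_le.1 ha.2).le
    have e2 : ∑ a ∈ X, 100 * (univ.filter fun q : Q n => B n q a).card ≤
        ∑ a : A n, 100 * (univ.filter fun q : Q n => B n q a).card :=
      Finset.sum_le_sum_of_subset (Finset.subset_univ _)
    have e3 : ∑ a : A n, 100 * (univ.filter fun q : Q n => B n q a).card =
        100 * ∑ q' : Q n, (univ.filter fun a : A n => B n q' a).card := by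
      rw [← Finset.mul_sum]
      congr 1
      simp only [Finset.card_filter]
      exact Finset.sum_comm
    have e4 : ∑ q' : Q n, (univ.filter fun a : A n => B n q' a).card ≤
        Fintype.card (Q n) * D := by
      rw [← Finset.card_univ, ← smul_eq_mul, ← Finset.sum_const]
      exact Finset.sum_le_sum fun q' _ => hq n q'
    have e5 : X.card * Fintype.card (Q n) ≤ (100 * D) * Fintype.card (Q n) := by
      calc X.card * Fintype.card (Q n) ≤ 100 * ∑ q' : Q n, (univ.filter fun a => B n q' a).card := by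
            rw [← e3]; exact e1.trans e2
        _ ≤ 100 * (Fintype.card (Q n) * D) := Nat.mul_le_mul_left _ e4
        _ = (100 * D) * Fintype.card (Q n) := by ring
    exact Nat.le_of_mul_le_mul_right e5 hpos
  have key2 : ((univ.filter fun a : A n => ¬ 100 * (univ.filter fun q : Q n => B n q a).card ≤
      Fintype.card (Q n)).card : ℝ) ≤ 100 * ((univ.filter fun a : A n => B n (q n) a).card : ℝ) := by
    exact_mod_cast key
  simpa only [not_not] using key2

/-- the finite groups -/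
abbrev PP (N : ℕ → ℕ) (n : ℕ) : Type := ZMod (N n) × ZMod (N n)

section
variable {N : ℕ → ℕ} [∀ n, NeZero (N n)]

theorem ae_gdf (ψ : ∀ n, PP N n → Equiv.Perm (A n))
    (hom : ∀ k d : ∀ n, PP N n, (cls (fun n => ψ n (k n + d n)) : SS A) =
      cls (fun n => ψ n (k n)) * cls (fun n => ψ n (d n)))
    (f : ∀ n, PP N n →+ PP N n) : ∀ᶠ x in ae A, gdf (ψ x.1) (f x.1) x.2 := by
  have h := markov (Q := fun n => PP N n × PP N n)
    (fun n (q : PP N n × PP N n) x => ψ n (q.1 + f n q.2) x ≠ ψ n q.1 (ψ n (f n q.2) x)) ?_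
  · filter_upwards [h] with x hx
    unfold gdf
    rw [Fintype.card_prod, ← pow_two] at hx
    convert hx
  · intro q
    have h1 := hom (fun n => (q n).1) (fun n => f n (q n).2)
    rw [cls_mul, cls_eq] at h1
    filter_upwards [h1] with x hx
    simpa using hx

theorem ae_eqv (ψ : ∀ n, PP N n → Equiv.Perm (A n)) (f : ∀ n, PP N n →+ PP N n)
    (γ : ∀ n, Equiv.Perm (A n))
    (h : ∀ k : ∀ n, PP N n, (cls (fun n => ψ n (k n)) : SS A) * cls γ =
      cls γ * cls (fun n => ψ n (f n (k n)))) :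
    ∀ᶠ x in ae A, 100 * (univ.filter fun k : PP N x.1 =>
      ψ x.1 k (γ x.1 x.2) ≠ γ x.1 (ψ x.1 (f x.1 k) x.2)).card ≤ Fintype.card (PP N x.1) := by
  have h0 := markov (Q := fun n => PP N n)
    (fun n (k : PP N n) x => ψ n k (γ n x) ≠ γ n (ψ n (f n k) x)) (by
      intro k
      have h1 := h k
      rw [cls_mul, cls_mul, cls_eq] at h1
      filter_upwards [h1] with x hx
      simpa using hx)
  filter_upwards [h0] with x hx
  convert hx

/-- the stabiliser -/
def St (k1 : K1P) (ψ : ∀ n, PP N n → Equiv.Perm (A n)) (n : ℕ) (x : A n) :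
    AddSubgroup (PP N n) :=
  if h : gdf (ψ n) (AddMonoidHom.id _) x then Classical.choose (k1 (PP N n) (A n) (ψ n) x h)
  else ⊥

theorem St_spec (k1 : K1P) (ψ : ∀ n, PP N n → Equiv.Perm (A n)) (n : ℕ) (x : A n)
    (h : gdf (ψ n) (AddMonoidHom.id _) x) :
    (∀ d, d ∈ St k1 ψ n x ↔ 4 * Fintype.card (PP N n) ≤ 5 * cnt (ψ n) x d) ∧
    (∀ d, d ∉ St k1 ψ n x → 5 * cnt (ψ n) x d ≤ Fintype.card (PP N n)) ∧
    ∀ d ∈ St k1 ψ n x, 10 * (univ.filter fun k : PP N n => ψ n (k + d) x ≠ ψ n k (ψ n d x)).card ≤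
      Fintype.card (PP N n) → ψ n d x = x := by
  have := Classical.choose_spec (k1 (PP N n) (A n) (ψ n) x h)
  unfold St
  rw [dif_pos h]
  exact this

theorem eqv_St (k1 : K1P) (k2 : K2P) (ψ : ∀ n, PP N n → Equiv.Perm (A n))
    (hom : ∀ k d : ∀ n, PP N n, (cls (fun n => ψ n (k n + d n)) : SS A) =
      cls (fun n => ψ n (k n)) * cls (fun n => ψ n (d n)))
    (f : ∀ n, PP N n →+ PP N n) (γ : ∀ n, Equiv.Perm (A n))
    (h : ∀ k : ∀ n, PP N n, (cls (fun n => ψ n (k n)) : SS A) * cls γ =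
      cls γ * cls (fun n => ψ n (f n (k n)))) :
    ∀ᶠ x in ae A, ∀ d : PP N x.1, d ∈ St k1 ψ x.1 (γ x.1 x.2) ↔ f x.1 d ∈ St k1 ψ x.1 x.2 := by
  have g1 := ae_gdf ψ hom (fun n => AddMonoidHom.id _)
  have g2 := ae_perm' (P := fun n a => gdf (ψ n) (AddMonoidHom.id _) a) g1 γ
  have g3 := ae_gdf ψ hom f
  have g4 := ae_eqv ψ f γ h
  filter_upwards [g1, g2, g3, g4] with x h1 h2 h3 h4 d
  obtain ⟨a1, a2, -⟩ := St_spec k1 ψ x.1 x.2 h1
  obtain ⟨b1, b2, -⟩ := St_spec k1 ψ x.1 (γ x.1 x.2) h2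
  have hk := k2 (PP N x.1) (A x.1) (ψ x.1) (f x.1) (γ x.1) x.2 h3 h4 d
  have hpos : (0 : ℝ) < Fintype.card (PP N x.1) := by exact_mod_cast Fintype.card_pos
  rw [abs_le] at hk
  constructor
  · intro hd
    by_contra hn
    have c1 := a2 _ hn
    have c2 := (b1 d).1 hd
    have c1' : 5 * (cnt (ψ x.1) x.2 (f x.1 d) : ℝ) ≤ Fintype.card (PP N x.1) := by
      exact_mod_cast c1
    have c2' : 4 * (Fintype.card (PP N x.1) : ℝ) ≤ 5 * cnt (ψ x.1) (γ x.1 x.2) d := by
      exact_mod_cast c2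
    linarith [hk.1, hk.2]
  · intro hd
    by_contra hn
    have c1 := b2 _ hn
    have c2 := (a1 _).1 hd
    have c1' : 5 * (cnt (ψ x.1) (γ x.1 x.2) d : ℝ) ≤ Fintype.card (PP N x.1) := by
      exact_mod_cast c1
    have c2' : 4 * (Fintype.card (PP N x.1) : ℝ) ≤ 5 * cnt (ψ x.1) x.2 (f x.1 d) := by
      exact_mod_cast c2
    linarith [hk.1, hk.2]

end

/-! ### 2-adic orders -/

/-- the exponent of `2` in the order of `d` modulo `S` -/
def v2 {P : Type} [AddCommGroup P] (S : AddSubgroup P) (d : P) : ℕ :=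
  (addOrderOf (QuotientAddGroup.mk d : P ⧸ S)).factorization 2

theorem v2_congr {P : Type} [AddCommGroup P] {S S' : AddSubgroup P} (f : P →+ P)
    (h : ∀ d, d ∈ S' ↔ f d ∈ S) (d : P) : v2 S' d = v2 S (f d) := by
  unfold v2
  refine congrArg (fun k : ℕ => k.factorization 2) ?_
  rw [addOrderOf_eq_addOrderOf_iff]
  intro n
  rw [← QuotientAddGroup.mk_nsmul, ← QuotientAddGroup.mk_nsmul, QuotientAddGroup.eq_zero_iff,
    QuotientAddGroup.eq_zero_iff, h, map_nsmul]

theorem ord_pos {P : Type} [AddCommGroup P] [Finite P] (S : AddSubgroup P) (d : P) :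
    addOrderOf (QuotientAddGroup.mk d : P ⧸ S) ≠ 0 := by
  have : Finite (P ⧸ S) := Quotient.finite _
  exact (addOrderOf_pos _).ne'

theorem v2_add {P : Type} [AddCommGroup P] [Finite P] (S : AddSubgroup P) (d d' : P) :
    v2 S (d + d') ≤ max (v2 S d) (v2 S d') := by
  unfold v2
  rw [QuotientAddGroup.mk_add]
  set y : P ⧸ S := QuotientAddGroup.mk d
  set y' : P ⧸ S := QuotientAddGroup.mk d'
  have h1 : addOrderOf (y + y') ∣ Nat.lcm (addOrderOf y) (addOrderOf y') :=
    (AddCommute.all y y').addOrderOf_add_dvd_lcm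
  have hy : addOrderOf y ≠ 0 := ord_pos S d
  have hy' : addOrderOf y' ≠ 0 := ord_pos S d'
  have hl : Nat.lcm (addOrderOf y) (addOrderOf y') ≠ 0 := Nat.lcm_ne_zero hy hy'
  have h2 := (Nat.factorization_le_iff_dvd (ne_zero_of_dvd_ne_zero hl h1) hl).2 h1 2
  rw [Nat.factorization_lcm hy hy'] at h2
  exact h2

theorem v2_neg {P : Type} [AddCommGroup P] (S : AddSubgroup P) (d : P) :
    v2 S (-d) = v2 S d := by
  unfold v2
  rw [QuotientAddGroup.mk_neg, addOrderOf_neg]

theorem v2_two {P : Type} [AddCommGroup P] [Finite P] (S : AddSubgroup P) (d : P) :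
    v2 S (d + d) = v2 S d - 1 := by
  unfold v2
  rw [← two_nsmul, QuotientAddGroup.mk_nsmul]
  set y : P ⧸ S := QuotientAddGroup.mk d
  have hy : addOrderOf y ≠ 0 := ord_pos S d
  rw [addOrderOf_nsmul' y two_ne_zero]
  by_cases h : 2 ∣ addOrderOf y
  · rw [Nat.gcd_eq_right h, Nat.factorization_div h]
    simp [Nat.prime_two.factorization]
  · have hg : Nat.gcd (addOrderOf y) 2 = 1 := by
      rw [Nat.gcd_comm]
      exact (Nat.Prime.coprime_iff_not_dvd Nat.prime_two).2 h
    rw [hg, Nat.div_one, Nat.factorization_eq_zero_of_not_dvd h]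

theorem v2_zero_mem {P : Type} [AddCommGroup P] [Finite P] (S : AddSubgroup P) (d : P)
    (h : v2 S d = 0) (N : ℕ) (hN : N ≠ 0) (hd : N • d = 0) : (ordCompl[2] N) • d ∈ S := by
  set y : P ⧸ S := QuotientAddGroup.mk d with hy
  have hy0 : addOrderOf y ≠ 0 := ord_pos S d
  have h1 : addOrderOf y ∣ N := by
    apply addOrderOf_dvd_of_nsmul_eq_zero
    rw [hy, ← QuotientAddGroup.mk_nsmul, hd]
    rfl
  have h2 : ¬ 2 ∣ addOrderOf y := by
    intro h2
    have := (Nat.Prime.factorization_pos_of_dvd Nat.prime_two hy0 h2)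
    have h' : (addOrderOf y).factorization 2 = 0 := h
    omega
  have h3 : Nat.Coprime (addOrderOf y) (ordProj[2] N) := by
    apply Nat.Coprime.pow_right
    rw [Nat.coprime_comm]
    exact (Nat.Prime.coprime_iff_not_dvd Nat.prime_two).2 h2
  have h4 : addOrderOf y ∣ ordCompl[2] N := by
    have : addOrderOf y ∣ ordProj[2] N * ordCompl[2] N := by
      rw [Nat.ordProj_mul_ordCompl_eq_self]; exact h1
    exact h3.dvd_of_dvd_mul_left this
  rw [← QuotientAddGroup.eq_zero_iff, QuotientAddGroup.mk_nsmul]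
  exact addOrderOf_dvd_iff_nsmul_eq_zero.1 h4

/-! ### the three maps -/

def fT (M : ℕ) : ZMod M × ZMod M →+ ZMod M × ZMod M where
  toFun d := (d.1, d.1 + d.2)
  map_zero' := by simp
  map_add' a b := by
    ext
    · simp
    · simp; ring

def fS (M : ℕ) : ZMod M × ZMod M →+ ZMod M × ZMod M where
  toFun d := (d.1 + d.2, d.2)
  map_zero' := by simp
  map_add' a b := by
    ext
    · simp; ring
    · simp

def fD (M : ℕ) : ZMod M × ZMod M →+ ZMod M × ZMod M where
  toFun d := (2 * d.1, d.2)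
  map_zero' := by simp
  map_add' a b := by
    ext
    · simp; ring
    · simp

theorem main (a3 : A3P) (k1 : K1P) (k2 : K2P) (k3 : K3P) : KP := by
  intro A _ _ r s gt' gs' gd' hr hs hrs ht1 ht2 hs1 hs2 hd1 hd2
  obtain ⟨o1, ho1, hr0⟩ := a3 A r hr
  obtain ⟨o2, ho2, hs0⟩ := a3 A s hs
  obtain ⟨gt, rfl⟩ : ∃ γ : ∀ n, Equiv.Perm (A n), cls γ = gt' := QuotientGroup.mk_surjective gt'
  obtain ⟨gs, rfl⟩ : ∃ γ : ∀ n, Equiv.Perm (A n), cls γ = gs' := QuotientGroup.mk_surjective gs'
  obtain ⟨gd, rfl⟩ : ∃ γ : ∀ n, Equiv.Perm (A n), cls γ = gd' := QuotientGroup.mk_surjective gd'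
  obtain ⟨hradd, ψr, hψr⟩ := hr
  obtain ⟨hsadd, ψs, hψs⟩ := hs
  let N : ℕ → ℕ := fun n => (o1 n * o2 n).toNat
  have hNpos : ∀ n, 0 < o1 n * o2 n := fun n => mul_pos (ho1 n) (ho2 n)
  have hN : ∀ n, (N n : ℤ) = o1 n * o2 n := fun n => Int.toNat_of_nonneg (hNpos n).le
  have hNZ : ∀ n, NeZero (N n) := fun n => ⟨by
    have := hNpos n
    intro h0
    rw [← hN n, h0] at this
    simp at this⟩
  -- periodicity
  have pr : ∀ m m' : ℕ → ℤ, (∀ n, (m n : ZMod (N n)) = (m' n : ZMod (N n))) → r m = r m' := by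
    intro m m' h
    have : ∀ n, ∃ k : ℤ, m n = m' n + o1 n * (o2 n * k) := by
      intro n
      have h1 := (ZMod.intCast_eq_intCast_iff_dvd_sub (m' n) (m n) (N n)).1 (h n).symm
      obtain ⟨k, hk⟩ := h1
      refine ⟨k, ?_⟩
      rw [hN n] at hk
      linarith
    choose k hk using this
    have e : m = m' + o1 * (o2 * k) := funext hk
    rw [e, hradd, hr0, mul_one]
  have ps : ∀ m m' : ℕ → ℤ, (∀ n, (m n : ZMod (N n)) = (m' n : ZMod (N n))) → s m = s m' := by
    intro m m' h
    have : ∀ n, ∃ k : ℤ, m n = m' n + o2 n * (o1 n * k) := by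
      intro n
      have h1 := (ZMod.intCast_eq_intCast_iff_dvd_sub (m' n) (m n) (N n)).1 (h n).symm
      obtain ⟨k, hk⟩ := h1
      refine ⟨k, ?_⟩
      rw [hN n] at hk
      linarith
    choose k hk using this
    have e : m = m' + o2 * (o1 * k) := funext hk
    rw [e, hsadd, hs0, mul_one]
  let ψ : ∀ n, PP N n → Equiv.Perm (A n) := fun n d => ψr n (d.1.val : ℤ) * ψs n (d.2.val : ℤ)
  have key : ∀ (d : ∀ n, PP N n) (m l : ℕ → ℤ), (∀ n, (m n : ZMod (N n)) = (d n).1) →
      (∀ n, (l n : ZMod (N n)) = (d n).2) → (cls (fun n => ψ n (d n)) : SS A) = r m * s l := by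
    intro d m l hm hl
    have e1 : r m = cls (fun n => ψr n ((d n).1.val : ℤ)) := by
      rw [pr m (fun n => ((d n).1.val : ℤ)), hψr]
      intro n
      rw [hm n]
      simp
    have e2 : s l = cls (fun n => ψs n ((d n).2.val : ℤ)) := by
      rw [ps l (fun n => ((d n).2.val : ℤ)), hψs]
      intro n
      rw [hl n]
      simp
    rw [e1, e2, cls_mul]
  have lift1 : ∀ (d : ∀ n, PP N n), ∃ m : ℕ → ℤ, ∀ n, (m n : ZMod (N n)) = (d n).1 :=
    fun d => ⟨fun n => ((d n).1.val : ℤ), fun n => by simp⟩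
  have lift2 : ∀ (d : ∀ n, PP N n), ∃ m : ℕ → ℤ, ∀ n, (m n : ZMod (N n)) = (d n).2 :=
    fun d => ⟨fun n => ((d n).2.val : ℤ), fun n => by simp⟩
  have hom : ∀ k d : ∀ n, PP N n, (cls (fun n => ψ n (k n + d n)) : SS A) =
      cls (fun n => ψ n (k n)) * cls (fun n => ψ n (d n)) := by
    intro k d
    obtain ⟨m, hm⟩ := lift1 k
    obtain ⟨l, hl⟩ := lift2 k
    obtain ⟨m', hm'⟩ := lift1 d
    obtain ⟨l', hl'⟩ := lift2 d
    rw [key k m l hm hl, key d m' l' hm' hl', key (fun n => k n + d n) (m + m') (l + l')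
      (fun n => by simp [hm, hm']) (fun n => by simp [hl, hl']), hradd, hsadd]
    have := (hrs m' l).eq
    calc r m * r m' * (s l * s l') = r m * (r m' * s l) * s l' := by simp only [mul_assoc]
      _ = r m * (s l * r m') * s l' := by rw [this]
      _ = r m * s l * (r m' * s l') := by simp only [mul_assoc]
  have eT : ∀ k : ∀ n, PP N n, (cls (fun n => ψ n (k n)) : SS A) * cls gt =
      cls gt * cls (fun n => ψ n (fT (N n) (k n))) := by
    intro k
    obtain ⟨m, hm⟩ := lift1 k
    obtain ⟨l, hl⟩ := lift2 k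
    rw [key k m l hm hl, key (fun n => fT (N n) (k n)) m (m + l) (fun n => by simp [fT, hm])
      (fun n => by simp [fT, hm, hl]), hsadd, mul_assoc, ht2, ← mul_assoc, ht1]
    simp only [mul_assoc]
  have eS : ∀ k : ∀ n, PP N n, (cls (fun n => ψ n (k n)) : SS A) * cls gs =
      cls gs * cls (fun n => ψ n (fS (N n) (k n))) := by
    intro k
    obtain ⟨m, hm⟩ := lift1 k
    obtain ⟨l, hl⟩ := lift2 k
    rw [key k m l hm hl, key (fun n => fS (N n) (k n)) (m + l) l (fun n => by simp [fS, hm, hl])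
      (fun n => by simp [fS, hl]), hradd, mul_assoc, hs2, ← mul_assoc, hs1]
    simp only [mul_assoc]
  have eD : ∀ k : ∀ n, PP N n, (cls (fun n => ψ n (k n)) : SS A) * cls gd =
      cls gd * cls (fun n => ψ n (fD (N n) (k n))) := by
    intro k
    obtain ⟨m, hm⟩ := lift1 k
    obtain ⟨l, hl⟩ := lift2 k
    rw [key k m l hm hl, key (fun n => fD (N n) (k n)) (2 * m) l (fun n => by simp [fD, hm])
      (fun n => by simp [fD, hl]), mul_assoc, hd2, ← mul_assoc, hd1]
    simp only [mul_assoc]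
  have qT := eqv_St k1 k2 ψ hom (fun n => fT (N n)) gt eT
  have qS := eqv_St k1 k2 ψ hom (fun n => fS (N n)) gs eS
  have qD := eqv_St k1 k2 ψ hom (fun n => fD (N n)) gd eD
  -- the three functions
  have hzero := k3 A (fun n x => v2 (St k1 ψ n x) ((1, 0) : PP N n))
    (fun n x => v2 (St k1 ψ n x) ((0, 1) : PP N n))
    (fun n x => v2 (St k1 ψ n x) ((1, 1) : PP N n)) gt gs gd
    (by
      refine Eventually.of_forall fun x => ⟨?_, ?_, ?_⟩
      · have := v2_add (St k1 ψ x.1 x.2) ((1, 0) : PP N x.1) ((0, 1) : PP N x.1)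
        simpa using this
      · have := v2_add (St k1 ψ x.1 x.2) (-((0, 1) : PP N x.1)) ((1, 1) : PP N x.1)
        rw [v2_neg] at this
        simpa using this
      · have := v2_add (St k1 ψ x.1 x.2) (-((1, 0) : PP N x.1)) ((1, 1) : PP N x.1)
        rw [v2_neg] at this
        simpa using this)
    (by
      filter_upwards [qT] with x hx
      refine ⟨?_, ?_⟩
      · rw [v2_congr _ hx]; simp [fT]
      · rw [v2_congr _ hx]; simp [fT])
    (by
      filter_upwards [qS] with x hx
      refine ⟨?_, ?_⟩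
      · rw [v2_congr _ hx]; simp [fS]
      · rw [v2_congr _ hx]; simp [fS])
    (by
      filter_upwards [qD] with x hx
      refine ⟨?_, ?_⟩
      · rw [v2_congr _ hx, ← v2_two]
        congr 1
        simp [fD]
        norm_num
      · rw [v2_congr _ hx]; simp [fD])
  -- conclusion
  refine ⟨fun n => ((ordCompl[2] (N n) : ℕ) : ℤ), ?_, ?_⟩
  · intro n
    have h1 := Nat.coprime_ordCompl Nat.prime_two (NeZero.ne (N n))
    have h2 : Odd (ordCompl[2] (N n)) := Nat.Coprime.odd_of_left h1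
    exact (Int.odd_coe_nat _).2 h2
  · have e0 : s 0 = 1 := by
      have := hsadd 0 0
      rw [add_zero] at this
      exact (left_eq_mul.1 this)
    let d0 : ∀ n, PP N n := fun n => (ordCompl[2] (N n)) • ((1, 0) : PP N n)
    have e1 := key d0 (fun n => ((ordCompl[2] (N n) : ℕ) : ℤ)) 0
      (fun n => by
        simp only [d0, Prod.smul_mk, nsmul_eq_mul, mul_one]
        exact Int.cast_natCast _)
      (fun n => by simp [d0])
    rw [e0, mul_one] at e1
    rw [← e1]
    have e2 : (cls (fun n => ψ n (d0 n)) : SS A) = cls (fun _ => 1) := by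
      rw [cls_eq]
      have g1 := ae_gdf ψ hom (fun n => AddMonoidHom.id _)
      have g5 := markov (Q := fun n => PP N n)
        (fun n (k : PP N n) x => ψ n (k + d0 n) x ≠ ψ n k (ψ n (d0 n) x)) (by
          intro k
          have h1 := hom k d0
          rw [cls_mul, cls_eq] at h1
          filter_upwards [h1] with x hx
          simpa using hx)
      filter_upwards [hzero, g1, g5] with x h0 h1 h5
      obtain ⟨-, -, a3'⟩ := St_spec k1 ψ x.1 x.2 h1
      refine a3' _ ?_ ?_
      · apply v2_zero_mem _ _ h0 _ (NeZero.ne (N x.1))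
        ext <;> simp
      · have h6 : 100 * (univ.filter fun k : PP N x.1 =>
            ψ x.1 (k + d0 x.1) x.2 ≠ ψ x.1 k (ψ x.1 (d0 x.1) x.2)).card ≤
            Fintype.card (PP N x.1) := by convert h5
        omega
    rw [e2]
    rfl

end

end Pool.Agent.Helper702_TH.K
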