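import Pool.Agent.Helper702_TH.Stm

/-!
# Project TH (helper702): how the parts fit together (hypotheses to be replaced by the parts)
-/

set_option autoImplicit false

namespace Pool.Agent.Helper702_TH

open Pool.Agent.helper987_SE

/-- Final assembly from the parts. The first six hypotheses come from project SE. -/
theorem assembly (a2 : A2P) (a3 : A3P) (a4 : A4P) (b : BP) (c4 : C4P) (f2 : F2P)
    (V1 : V1P) (V2 : V1P → V2P) (V3 : V2P → V3P)
    (U1 : U1P) (U2 : U1P → U2P) (U3 : V3P → U1P → U2P → U3P)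
    (TA : C4P → U1P → U2P → U3P → TAP) (PW : BP → TAP → PWP)
    (K1 : K1P) (K2 : K2P) (K3 : K3P) (K : A3P → K1P → K2P → K3P → KP)
    (E : A2P → A4P → PWP → KP → MdlP)
    (M1 : M1P) (M2 : M2P) (M3 : M3P)
    (Fin' : F2P → MdlP → M1P → M2P → M3P → FinP) : FinP := by
  have v := V3 (V2 V1)
  have u2 := U2 U1
  have pw := PW b (TA c4 U1 u2 (U3 v U1 u2))
  exact Fin' f2 (E a2 a4 pw (K a3 K1 K2 K3)) M1 M2 M3

end Pool.Agent.Helper702_TH
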