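import Pool.Agent.helper987_SE.Stm

/-!
# Project TH (helper702): Thom's hyperlinear group `Γ/Z` is not sofic. Definitions.

Uses the parts A (internal homomorphisms), B (Theorem 10) and C4 (relative property (T)) of the
project SE of helper987.
-/

set_option autoImplicit false
set_option maxHeartbeats 400000

open Filter Topology Finset
open scoped Classical

namespace Pool.Agent.Helper702_TH

open Helper418 Pool.Agent.helper987_SE

noncomputable section

/-! ## The relations of the Kazhdan groups `T` -/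

/-- Elements of a group `G` satisfying the relations of the elementary matrices
`e k l = E_kl`, `x k = E_0k`, `y k j = E_kj`, `z j = E_0j` (`k, l ∈ {1,2,3}`, `j ∈ J`). -/
structure TRel (J : Type) (G : Type) [Group G] where
  e : Fin 3 → Fin 3 → G
  x : Fin 3 → G
  y : Fin 3 → J → G
  z : J → G
  ee : ∀ k l m, k ≠ l → l ≠ m → k ≠ m → e k l * e l m = e k m * e l m * e k l
  ee_comm : ∀ k l k' l', k ≠ l → k' ≠ l' → l ≠ k' → k ≠ l' → Commute (e k l) (e k' l')
  xx : ∀ k l, Commute (x k) (x l)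
  xe : ∀ k l, k ≠ l → x k * e k l = x l * e k l * x k
  xe_comm : ∀ k l m, l ≠ m → k ≠ l → Commute (x k) (e l m)
  ey : ∀ k l j, k ≠ l → e k l * y l j = y k j * y l j * e k l
  ey_comm : ∀ k l m j, k ≠ l → l ≠ m → Commute (e k l) (y m j)
  yy : ∀ k l i j, Commute (y k i) (y l j)
  xy : ∀ k j, x k * y k j = z j * y k j * x k
  xy_comm : ∀ k l j, k ≠ l → Commute (x k) (y l j)
  ze : ∀ j k l, k ≠ l → Commute (z j) (e k l)
  zx : ∀ j k, Commute (z j) (x k)
  zy : ∀ i k j, Commute (z i) (y k j)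
  zz : ∀ i j, Commute (z i) (z j)

/-- the generators -/
def TRel.gens {J G : Type} [Group G] (P : TRel J G) : Set G :=
  {g | (∃ k l, k ≠ l ∧ g = P.e k l) ∨ (∃ k, g = P.x k) ∨ (∃ k j, g = P.y k j) ∨ ∃ j, g = P.z j}

/-- the subgroup generated by the elements -/
def TRel.T {J G : Type} [Group G] (P : TRel J G) : Subgroup G := Subgroup.closure P.gens

/-- restriction to some of the columns -/
def TRel.sub {J J' G : Type} [Group G] (P : TRel J G) (f : J' → J) : TRel J' G where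
  e := P.e
  x := P.x
  y := fun k j => P.y k (f j)
  z := fun j => P.z (f j)
  ee := P.ee
  ee_comm := P.ee_comm
  xx := P.xx
  xe := P.xe
  xe_comm := P.xe_comm
  ey := fun k l j => P.ey k l (f j)
  ey_comm := fun k l m j => P.ey_comm k l m (f j)
  yy := fun k l i j => P.yy k l (f i) (f j)
  xy := fun k j => P.xy k (f j)
  xy_comm := fun k l j => P.xy_comm k l (f j)
  ze := fun j => P.ze (f j)
  zx := fun j => P.zx (f j)
  zy := fun i k j => P.zy (f i) k (f j)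
  zz := fun i j => P.zz (f i) (f j)

/-! ## Exact powers -/

/-- `r` is the internal homomorphism of exact powers of `α v`, for the Kazhdan group `T` -/
structure Pw {A : ℕ → Type} [∀ n, Fintype (A n)] {G : Type} [Group G] (α : G →* SS A)
    (T : Subgroup G) (v : G) (r : (ℕ → ℤ) → SS A) : Prop where
  int : IsI r
  one : r (fun _ => 1) = α v
  cen : ∀ m, ∀ t ∈ T, Commute (r m) (α t)
  glob : ∀ s, (∀ t ∈ T, Commute s (α t)) → ∀ m, Commute (r m) s

/-- The configuration of elements of `G = Γ/Z` which is used in the proof (`p = 2`):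
`P` has the columns `4, 5`; `Q` has the columns `4, 7` (with entries in `½ℤ` in column 7);
`c = E_07(1/2)`; `h = E_47(1/2)`; `gt = E_45(1)`; `gs = E_54(1)`;
`gd = diag(1,1,1,1,2,1,1/2,1)`. -/
structure Mdl (G : Type) [Group G] where
  P : TRel (Fin 2) G
  Q : TRel (Fin 2) G
  c : G
  h : G
  gt : G
  gs : G
  gd : G
  e_eq : Q.e = P.e
  x_eq : Q.x = P.x
  y_eq : ∀ k, Q.y k 0 = P.y k 0
  z_eq : Q.z 0 = P.z 0
  z_c : Q.z 1 = c
  c_cen : ∀ g, Commute c g
  c_sq : c ^ 2 = 1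
  h_T : ∀ t ∈ Q.T, h⁻¹ * t * h ∈ Q.T
  h_z : h⁻¹ * Q.z 0 * h = Q.z 0 * c
  gt_T : ∀ t ∈ P.T, gt⁻¹ * t * gt ∈ P.T
  gt_z0 : gt⁻¹ * P.z 0 * gt = P.z 0 * P.z 1
  gt_z1 : gt⁻¹ * P.z 1 * gt = P.z 1
  gs_T : ∀ t ∈ P.T, gs⁻¹ * t * gs ∈ P.T
  gs_z0 : gs⁻¹ * P.z 0 * gs = P.z 0
  gs_z1 : gs⁻¹ * P.z 1 * gs = P.z 0 * P.z 1
  gd_T : ∀ t ∈ P.T, gd⁻¹ * t * gd ∈ P.T
  gd_z0 : gd⁻¹ * P.z 0 * gd = P.z 0 ^ 2
  gd_z1 : gd⁻¹ * P.z 1 * gd = P.z 1

/-! ## Finite near actions of finite abelian groups -/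

/-- proportion-type defect: few pairs `(k, d)` with `ψ (k + f d) x ≠ ψ k (ψ (f d) x)` -/
def gdf {P X : Type} [AddCommGroup P] [Fintype P] (ψ : P → Equiv.Perm X) (f : P →+ P)
    (x : X) : Prop :=
  100 * (univ.filter fun q : P × P => ψ (q.1 + f q.2) x ≠ ψ q.1 (ψ (f q.2) x)).card ≤
    Fintype.card P ^ 2

/-- number of `k` with `ψ (k + d) x = ψ k x` -/
def cnt {P X : Type} [AddCommGroup P] [Fintype P] (ψ : P → Equiv.Perm X) (x : X) (d : P) : ℕ :=
  (univ.filter fun k : P => ψ (k + d) x = ψ k x).card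

/-! ## The group of the problem -/

/-- the condition of the problem file which defines `Γ` -/
def Cond {R : Type} [CommRing R] (g : Matrix (Fin 8) (Fin 8) R) : Prop :=
  (∀ i j : Fin 8,
    ((i.val = 7 ∧ j.val < 7) ∨ (4 ≤ i.val ∧ j.val < 4) ∨ (1 ≤ i.val ∧ j.val < 1)) → g i j = 0) ∧
  g 0 0 = 1 ∧ g 7 7 = 1 ∧
  (Matrix.of ![![g 1 1, g 1 2, g 1 3], ![g 2 1, g 2 2, g 2 3], ![g 3 1, g 3 2, g 3 3]]).det = 1

/-- soficity as in the frozen statement -/
def SofT (G : Type) [Group G] : Prop :=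
  ∀ F : Finset G, ∀ ε : ℝ, 0 < ε →
    ∃ n : ℕ, 1 ≤ n ∧ ∃ φ : G → Equiv.Perm (Fin n),
      (∀ g ∈ F, ∀ h ∈ F,
        (1 - ε) * (n : ℝ) ≤
          ((Finset.univ.filter (fun x : Fin n => φ (g * h) x = (φ g * φ h) x)).card : ℝ)) ∧
      (∀ g ∈ F, g ≠ 1 →
        ((Finset.univ.filter (fun x : Fin n => φ g x = x)).card : ℝ) ≤ ε * (n : ℝ))

end

end Pool.Agent.Helper702_TH
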