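import Pool.Agent.Helper702_TH.Stm

/-!
# Project TH (helper702), part E (helper523): the configuration kills `c`
-/

set_option autoImplicit false
set_option maxHeartbeats 400000

open Filter Topology Finset

namespace Pool.Agent.Helper702_TH.E

open Pool.Agent.helper987_SE Pool.Agent.Helper702_TH

variable {A : ℕ → Type} [∀ n, Fintype (A n)]

theorem cls_mul (s t : ∀ n, Equiv.Perm (A n)) :
    (cls s : SS A) * cls t = cls (fun n => s n * t n) := rfl

theorem cls_inv (s : ∀ n, Equiv.Perm (A n)) :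
    (cls s : SS A)⁻¹ = cls (fun n => (s n)⁻¹) := rfl

/-! ### internal homomorphisms -/

theorem isI_mul {r s : (ℕ → ℤ) → SS A} (hr : IsI r) (hs : IsI s)
    (hc : ∀ l m, Commute (r l) (s m)) : IsI (fun m => r m * s m) := by
  obtain ⟨hr1, ψ, hψ⟩ := hr
  obtain ⟨hs1, φ, hφ⟩ := hs
  refine ⟨?_, fun n k => ψ n k * φ n k, ?_⟩
  · intro a b
    show r (a + b) * s (a + b) = r a * s a * (r b * s b)
    rw [hr1, hs1]
    have := (hc b a).eq
    calc r a * r b * (s a * s b) = r a * (r b * s a) * s b := by simp only [mul_assoc]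
      _ = r a * (s a * r b) * s b := by rw [this]
      _ = r a * s a * (r b * s b) := by simp only [mul_assoc]
  · intro a
    show r a * s a = _
    rw [hψ, hφ]
    exact cls_mul _ _

theorem isI_two {r : (ℕ → ℤ) → SS A} (hr : IsI r) : IsI (fun m => r (2 * m)) := by
  obtain ⟨hr1, ψ, hψ⟩ := hr
  refine ⟨?_, fun n k => ψ n (2 * k), ?_⟩
  · intro a b
    show r (2 * (a + b)) = r (2 * a) * r (2 * b)
    rw [mul_add, hr1]
  · intro a
    show r (2 * a) = _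
    rw [hψ]
    rfl

theorem isI_conj {r : (ℕ → ℤ) → SS A} (hr : IsI r) (g : SS A) :
    IsI (fun m => g⁻¹ * r m * g) := by
  obtain ⟨hr1, ψ, hψ⟩ := hr
  obtain ⟨γ, rfl⟩ : ∃ γ : ∀ n, Equiv.Perm (A n), cls γ = g := QuotientGroup.mk_surjective g
  refine ⟨?_, fun n k => (γ n)⁻¹ * ψ n k * γ n, ?_⟩
  · intro a b
    show (cls γ)⁻¹ * r (a + b) * cls γ = (cls γ)⁻¹ * r a * cls γ * ((cls γ)⁻¹ * r b * cls γ)
    rw [hr1]
    group
  · intro a
    show (cls γ)⁻¹ * r a * cls γ = _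
    rw [hψ, cls_inv, cls_mul, cls_mul]

theorem two_one : (2 * (fun _ => 1 : ℕ → ℤ)) = (fun _ => 1 : ℕ → ℤ) + (fun _ => 1) := by
  funext n
  simp

theorem isI_two_one {r : (ℕ → ℤ) → SS A} (hr : IsI r) :
    r (2 * (fun _ => 1)) = r (fun _ => 1) * r (fun _ => 1) := by
  rw [two_one, hr.1]

/-! ### exact powers -/

section
variable {G : Type} [Group G] {α : G →* SS A}

/-- uniqueness -/
theorem uniq (h4 : A4P) {T : Subgroup G} {v : G} {r r' : (ℕ → ℤ) → SS A} (h : Pw α T v r)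
    (hI : IsI r') (h1 : r' (fun _ => 1) = α v) (hc : ∀ m, ∀ t ∈ T, Commute (r' m) (α t)) :
    ∀ m, r m = r' m := by
  apply h4 A T (rst α T) r r' h.int hI
  · intro m t
    exact (h.cen m t.1 t.2).eq
  · intro m t
    exact (hc m t.1 t.2).eq
  · intro m s hs
    exact (h.glob s (fun t ht => hs ⟨t, ht⟩) m).eq
  · rw [h.one, h1]

/-- smaller subgroup -/
theorem le_uniq (h4 : A4P) {T T' : Subgroup G} (hT : T' ≤ T) {v : G} {r r' : (ℕ → ℤ) → SS A}
    (h : Pw α T v r) (h' : Pw α T' v r') : ∀ m, r' m = r m :=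
  uniq h4 h' h.int h.one (fun m t ht => h.cen m t (hT ht))

theorem comm {T : Subgroup G} {v w : G} {r s : (ℕ → ℤ) → SS A} (h : Pw α T v r)
    (h' : Pw α T w s) : ∀ l m, Commute (r l) (s m) :=
  fun l m => h.glob (s m) (fun t ht => h'.cen m t ht) l

theorem pw_mul {T : Subgroup G} {v w : G} {r s : (ℕ → ℤ) → SS A} (h : Pw α T v r)
    (h' : Pw α T w s) : Pw α T (v * w) (fun m => r m * s m) where
  int := isI_mul h.int h'.int (comm h h')
  one := by rw [h.one, h'.one, map_mul]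
  cen := fun m t ht => (h.cen m t ht).mul_left (h'.cen m t ht)
  glob := fun s hs m => (h.glob s hs m).mul_left (h'.glob s hs m)

theorem pw_two {T : Subgroup G} {v : G} {r : (ℕ → ℤ) → SS A} (h : Pw α T v r) :
    Pw α T (v ^ 2) (fun m => r (2 * m)) where
  int := isI_two h.int
  one := by rw [isI_two_one h.int, h.one, pow_two, map_mul]
  cen := fun m t ht => h.cen _ t ht
  glob := fun s hs m => h.glob s hs _

theorem conj_comm {g a b : SS A} (h : Commute a (g * b * g⁻¹)) : Commute (g⁻¹ * a * g) b := by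
  have h1 := h.eq
  show g⁻¹ * a * g * b = b * (g⁻¹ * a * g)
  calc g⁻¹ * a * g * b = g⁻¹ * (a * (g * b * g⁻¹)) * g := by group
    _ = g⁻¹ * (g * b * g⁻¹ * a) * g := by rw [h1]
    _ = b * (g⁻¹ * a * g) := by group

/-- conjugation -/
theorem conj (h4 : A4P) {T : Subgroup G} {g v v' : G} (hT : ∀ t ∈ T, g⁻¹ * t * g ∈ T)
    (hv : g⁻¹ * v * g = v') {r r' : (ℕ → ℤ) → SS A} (h : Pw α T v r) (h' : Pw α T v' r') :
    ∀ m, r m * α g = α g * r' m := by
  -- the subgroup `g⁻¹ T g`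
  let T' : Subgroup G := T.map (MulAut.conj g⁻¹).toMonoidHom
  have hT' : T' ≤ T := by
    rintro _ ⟨t, ht, rfl⟩
    have := hT t ht
    simpa [MulAut.conj_apply] using this
  have hm : ∀ t ∈ T, g⁻¹ * t * g ∈ T' := by
    intro t ht
    refine ⟨t, ht, ?_⟩
    simp
  have hc : Pw α T' v' (fun m => (α g)⁻¹ * r m * α g) := by
    refine ⟨isI_conj h.int (α g), ?_, ?_, ?_⟩
    · rw [h.one, ← hv, map_mul, map_mul, map_inv]
    · rintro m _ ⟨t, ht, rfl⟩
      apply conj_comm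
      have e : α g * α ((MulAut.conj g⁻¹).toMonoidHom t) * (α g)⁻¹ = α t := by
        rw [← map_inv, ← map_mul, ← map_mul]
        congr 1
        simp
        group
      rw [e]
      exact h.cen m t ht
    · intro s hs m
      apply conj_comm
      apply h.glob
      intro t ht
      have h1 := (hs _ (hm t ht)).eq
      rw [map_mul, map_mul, map_inv] at h1
      show α g * s * (α g)⁻¹ * α t = α t * (α g * s * (α g)⁻¹)
      calc α g * s * (α g)⁻¹ * α t = α g * (s * ((α g)⁻¹ * α t * α g)) * (α g)⁻¹ := by group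
        _ = α g * ((α g)⁻¹ * α t * α g * s) * (α g)⁻¹ := by rw [h1]
        _ = α t * (α g * s * (α g)⁻¹) := by group
  intro m
  have := uniq h4 hc h'.int h'.one (fun m t ht => h'.cen m t (hT' ht)) m
  rw [← this]
  group

end

/-! ### the groups `T` -/

theorem z_mem {J G : Type} [Group G] (P : TRel J G) (j : J) : P.z j ∈ P.T :=
  Subgroup.subset_closure (Or.inr (Or.inr (Or.inr ⟨j, rfl⟩)))

theorem z_cen {J G : Type} [Group G] (P : TRel J G) (j : J) : ∀ t ∈ P.T, Commute (P.z j) t := by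
  intro t ht
  have h : P.T ≤ Subgroup.centralizer {P.z j} := by
    refine (Subgroup.closure_le _).2 ?_
    rintro g (⟨k, l, hkl, rfl⟩ | ⟨k, rfl⟩ | ⟨k, i, rfl⟩ | ⟨i, rfl⟩)
    · exact Subgroup.mem_centralizer_iff.2 (by rintro _ rfl; exact (P.ze j k l hkl).eq)
    · exact Subgroup.mem_centralizer_iff.2 (by rintro _ rfl; exact (P.zx j k).eq)
    · exact Subgroup.mem_centralizer_iff.2 (by rintro _ rfl; exact (P.zy j k i).eq)
    · exact Subgroup.mem_centralizer_iff.2 (by rintro _ rfl; exact (P.zz j i).eq)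
  exact (Subgroup.mem_centralizer_iff.1 (h ht) (P.z j) rfl)

theorem sub_le {J J' G : Type} [Group G] (P : TRel J G) (f : J' → J) : (P.sub f).T ≤ P.T := by
  refine Subgroup.closure_mono ?_
  rintro g (⟨k, l, hkl, rfl⟩ | ⟨k, rfl⟩ | ⟨k, i, rfl⟩ | ⟨i, rfl⟩)
  · exact Or.inl ⟨k, l, hkl, rfl⟩
  · exact Or.inr (Or.inl ⟨k, rfl⟩)
  · exact Or.inr (Or.inr (Or.inl ⟨k, f i, rfl⟩))
  · exact Or.inr (Or.inr (Or.inr ⟨f i, rfl⟩))

theorem sub_le_Q {G : Type} [Group G] (M : Mdl G) :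
    (M.P.sub (fun _ : Fin 1 => 0)).T ≤ M.Q.T := by
  refine Subgroup.closure_mono ?_
  rintro g (⟨k, l, hkl, rfl⟩ | ⟨k, rfl⟩ | ⟨k, i, rfl⟩ | ⟨i, rfl⟩)
  · exact Or.inl ⟨k, l, hkl, by rw [M.e_eq]; rfl⟩
  · exact Or.inr (Or.inl ⟨k, by rw [M.x_eq]; rfl⟩)
  · exact Or.inr (Or.inr (Or.inl ⟨k, 0, by rw [M.y_eq]; rfl⟩))
  · exact Or.inr (Or.inr (Or.inr ⟨0, by rw [M.z_eq]; rfl⟩))

theorem main (h2 : A2P) (h4 : A4P) (hpw : PWP) (hK : KP) : MdlP := by
  intro A _ _ G _ M α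
  obtain ⟨r, hr⟩ := hpw A (Fin 2) G M.P α (M.P.z 0) (z_mem _ _) (z_cen _ _)
  obtain ⟨s, hs⟩ := hpw A (Fin 2) G M.P α (M.P.z 1) (z_mem _ _) (z_cen _ _)
  obtain ⟨r4, hr4⟩ := hpw A (Fin 1) G (M.P.sub (fun _ : Fin 1 => 0)) α (M.P.z 0)
    (z_mem (M.P.sub (fun _ : Fin 1 => 0)) 0) (z_cen (M.P.sub (fun _ : Fin 1 => 0)) 0)
  obtain ⟨rQ, hrQ⟩ := hpw A (Fin 2) G M.Q α (M.Q.z 0) (z_mem _ _) (z_cen _ _)
  obtain ⟨q, hq⟩ := hpw A (Fin 2) G M.Q α (M.Q.z 1) (z_mem _ _) (z_cen _ _)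
  have e1 : ∀ m, r4 m = r m := le_uniq h4 (sub_le _ _) hr hr4
  have e2 : ∀ m, r4 m = rQ m := by
    rw [M.z_eq] at hrQ
    exact le_uniq h4 (sub_le_Q M) hrQ hr4
  have e3 : ∀ m, rQ m = r m := fun m => (e2 m).symm.trans (e1 m)
  -- the kill
  obtain ⟨o, ho, hro⟩ := hK A r s (α M.gt) (α M.gs) (α M.gd) hr.int hs.int (comm hr hs)
    (conj h4 M.gt_T M.gt_z0 hr (pw_mul hr hs)) (conj h4 M.gt_T M.gt_z1 hs hs)
    (conj h4 M.gs_T M.gs_z0 hr hr) (conj h4 M.gs_T M.gs_z1 hs (pw_mul hr hs))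
    (conj h4 M.gd_T M.gd_z0 hr (pw_two hr)) (conj h4 M.gd_T M.gd_z1 hs hs)
  -- the element `h`
  have hh : M.h⁻¹ * M.Q.z 0 * M.h = M.Q.z 0 * M.Q.z 1 := by rw [M.h_z, M.z_c]
  have e4 := conj h4 M.h_T hh hrQ (pw_mul hrQ hq) o
  rw [e3, hro, one_mul, one_mul] at e4
  have e5 : q o = 1 := by
    have : α M.h * q o = α M.h * 1 := by rw [← e4, mul_one]
    exact mul_left_cancel this
  -- `q` at odd arguments
  have e6 : ∀ m, q (2 * m) = 1 := by
    apply h2 A (fun m => q (2 * m)) (isI_two hq.int)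
    rw [isI_two_one hq.int, hq.one, M.z_c, ← map_mul, ← pow_two, M.c_sq, map_one]
  obtain ⟨k, hk⟩ : ∃ k : ℕ → ℤ, o = 2 * k + (fun _ => 1) := by
    choose k hk using ho
    exact ⟨k, funext fun n => by simpa using hk n⟩
  rw [hk, hq.int.1, e6, one_mul, hq.one, M.z_c] at e5
  exact e5

end Pool.Agent.Helper702_TH.E
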