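import Pool.Agent.Helper702_TH.Stm

/-!
# Project TH (helper702), part Fin: assembly of the frozen statement
-/

set_option autoImplicit false
set_option maxHeartbeats 1000000

open Filter Topology Finset
open scoped Classical

namespace Pool.Agent.Helper702_TH.Fin

open Helper418 Pool.Agent.helper987_SE Pool.Agent.Helper702_TH

noncomputable section

theorem sof_of_sofT (G : Type) [Group G] (h : SofT G) : Sof G := by
  intro F ε hε
  obtain ⟨n, hn, φ, h1, h2⟩ := h F (ε / 2) (by positivity)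
  have hn' : (0 : ℝ) < n := by exact_mod_cast hn
  refine ⟨n, φ, ?_, ?_⟩
  · intro g hg k hk
    have h3 := h1 g hg k hk
    have h4 := Finset.card_filter_add_card_filter_not (s := (Finset.univ : Finset (Fin n)))
      (fun x : Fin n => φ (g * k) x = (φ g * φ k) x)
    rw [Finset.card_univ, Fintype.card_fin] at h4
    have h5 : ((Finset.univ.filter (fun x : Fin n => φ (g * k) x = (φ g * φ k) x)).card : ℝ) +
        ((Finset.univ.filter (fun x : Fin n => ¬ φ (g * k) x = (φ g * φ k) x)).card : ℝ) = n := by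
      exact_mod_cast h4
    change ((Finset.univ.filter (fun x : Fin n => ¬ φ (g * k) x = (φ g * φ k) x)).card : ℝ) < _
    nlinarith
  · intro g hg hg1
    have h3 := h2 g hg hg1
    have h4 := Finset.card_filter_add_card_filter_not (s := (Finset.univ : Finset (Fin n)))
      (fun x : Fin n => φ g x = x)
    rw [Finset.card_univ, Fintype.card_fin] at h4
    have h5 : ((Finset.univ.filter (fun x : Fin n => φ g x = x)).card : ℝ) +
        ((Finset.univ.filter (fun x : Fin n => ¬ φ g x = x)).card : ℝ) = n := by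
      exact_mod_cast h4
    change _ ≤ ((Finset.univ.filter (fun x : Fin n => ¬ φ g x = x)).card : ℝ)
    nlinarith

theorem main (f2 : F2P) (mdl : MdlP) (m1 : M1P) (m2 : M2P) (m3 : M3P) : FinP := by
  intro H
  obtain ⟨hc, ⟨b, hb⟩, hinj⟩ := m3
  obtain ⟨Γ, hΓ⟩ := m1 (Localization.Away ((2 : ℕ) : ℤ))
  obtain ⟨Z, hZ, hZ1, hZ2, M, hM⟩ := m2 _ b hb hinj Γ hΓ
  have hs : SofT (Γ ⧸ Z) := H 2 Nat.prime_two Γ hΓ Z hZ1 hZ2
  have c1 : Countable (Matrix (Fin 8) (Fin 8) (Localization.Away ((2 : ℕ) : ℤ))) :=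
    inferInstanceAs (Countable (Fin 8 → Fin 8 → Localization.Away ((2 : ℕ) : ℤ)))
  have c2 : Countable (Matrix.SpecialLinearGroup (Fin 8) (Localization.Away ((2 : ℕ) : ℤ))) :=
    inferInstanceAs (Countable {A : Matrix (Fin 8) (Fin 8) (Localization.Away ((2 : ℕ) : ℤ)) //
      A.det = 1})
  have c3 : Countable Γ := inferInstance
  have c4 : Countable (Γ ⧸ Z) :=
    (QuotientGroup.mk_surjective (s := Z)).countable
  obtain ⟨A, iA, nA, α, hα⟩ := f2 (Γ ⧸ Z) (sof_of_sofT _ hs)
  exact hM (hα _ (mdl A (Γ ⧸ Z) M α))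

end

end Pool.Agent.Helper702_TH.Fin
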