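import Pool.Agent.Helper702_TH.Stm

/-!
# Project TH (helper702), part K1: the exact stabiliser of a good point
-/

set_option autoImplicit false
set_option maxHeartbeats 400000

open Filter Topology Finset
open scoped Classical

namespace Pool.Agent.Helper702_TH.K1

open Pool.Agent.Helper702_TH

noncomputable section

section
variable {P X : Type} [AddCommGroup P] [Fintype P] (ψ : P → Equiv.Perm X) (x : X)

/-- the number of `k` with `ψ (k + d) x ≠ ψ k (ψ d x)` -/
def bad (d : P) : ℕ := (univ.filter fun k : P => ψ (k + d) x ≠ ψ k (ψ d x)).card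

theorem sum_bad : ∑ d, bad ψ x d =
    (univ.filter fun q : P × P => ψ (q.1 + q.2) x ≠ ψ q.1 (ψ q.2 x)).card := by
  unfold bad
  rw [← Finset.card_sigma]
  refine Finset.card_bij (fun q _ => (q.2, q.1)) ?_ ?_ ?_
  · intro q hq; simpa using hq
  · rintro ⟨a, b⟩ _ ⟨c, d⟩ _ h
    simp only [Prod.mk.injEq] at h
    obtain ⟨rfl, rfl⟩ := h
    rfl
  · rintro ⟨a, b⟩ h
    exact ⟨⟨b, a⟩, by simpa using h, rfl⟩

theorem cnt_shift (d h : P) :
    cnt ψ x d = (univ.filter fun k : P => ψ (k + h + d) x = ψ (k + h) x).card := by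
  unfold cnt
  symm
  refine Finset.card_bij (fun k _ => k + h) ?_ ?_ ?_
  · intro k hk; simpa using hk
  · intro a _ b _ hab; exact add_right_cancel hab
  · intro b hb
    exact ⟨b - h, by simpa using hb, by simp⟩

theorem cnt_neg (d : P) : cnt ψ x (-d) = cnt ψ x d := by
  rw [cnt_shift ψ x (-d) d]
  unfold cnt
  congr 1
  ext k
  simp only [mem_filter, mem_univ, true_and, add_neg_cancel_right]
  exact eq_comm

theorem bad_card (hg : gdf ψ (AddMonoidHom.id P) x) :
    10 * (univ.filter fun d : P => Fintype.card P < 10 * bad ψ x d).card ≤ Fintype.card P := by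
  have hn : 0 < Fintype.card P := Fintype.card_pos
  set n := Fintype.card P with hndef
  set B := univ.filter fun d : P => n < 10 * bad ψ x d with hB
  have h1 : 100 * ∑ d, bad ψ x d ≤ n ^ 2 := by
    rw [sum_bad]
    unfold gdf at hg
    simpa using hg
  have h2 : B.card * n ≤ ∑ d ∈ B, 10 * bad ψ x d := by
    rw [← smul_eq_mul, ← Finset.sum_const]
    refine Finset.sum_le_sum fun d hd => ?_
    have := (Finset.mem_filter.1 hd).2
    omega
  have h3 : ∑ d ∈ B, 10 * bad ψ x d ≤ 10 * ∑ d, bad ψ x d := by
    rw [Finset.mul_sum]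
    exact Finset.sum_le_sum_of_subset (Finset.subset_univ _)
  have h4 : (10 * B.card) * n ≤ n * n := by nlinarith
  exact Nat.le_of_mul_le_mul_right h4 hn

theorem dich (hg : gdf ψ (AddMonoidHom.id P) x) (d : P) :
    4 * Fintype.card P ≤ 5 * cnt ψ x d ∨ 5 * cnt ψ x d ≤ Fintype.card P := by
  have hn : 0 < Fintype.card P := Fintype.card_pos
  have hB := bad_card ψ x hg
  set n := Fintype.card P with hndef
  set B := univ.filter fun d : P => n < 10 * bad ψ x d with hBdef
  obtain ⟨h, hh1, hh2⟩ : ∃ h : P, h ∉ B ∧ h + d ∉ B := by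
    by_contra hcon
    push Not at hcon
    have h1 : (univ : Finset P) ⊆ B ∪ B.image (fun y => y - d) := by
      intro y _
      rw [Finset.mem_union]
      by_cases hy : y ∈ B
      · exact Or.inl hy
      · exact Or.inr (Finset.mem_image.2 ⟨y + d, hcon y hy, by simp⟩)
    have h2 := (Finset.card_le_card h1).trans (Finset.card_union_le _ _)
    have h3 : (B.image (fun y => y - d)).card ≤ B.card := Finset.card_image_le
    rw [Finset.card_univ] at h2
    omega
  have hb1 : 10 * bad ψ x h ≤ n := by
    by_contra hc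
    exact hh1 (Finset.mem_filter.2 ⟨Finset.mem_univ _, not_le.1 hc⟩)
  have hb2 : 10 * bad ψ x (h + d) ≤ n := by
    by_contra hc
    exact hh2 (Finset.mem_filter.2 ⟨Finset.mem_univ _, not_le.1 hc⟩)
  rw [cnt_shift ψ x d h]
  by_cases he : ψ h x = ψ (h + d) x
  · left
    have h1 : (univ.filter fun k : P => ¬ ψ (k + h + d) x = ψ (k + h) x) ⊆
        (univ.filter fun k : P => ψ (k + h) x ≠ ψ k (ψ h x)) ∪
        (univ.filter fun k : P => ψ (k + (h + d)) x ≠ ψ k (ψ (h + d) x)) := by
      intro k hk
      simp only [mem_union, mem_filter, mem_univ, true_and] at hk ⊢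
      by_contra hcon
      push Not at hcon
      apply hk
      rw [hcon.1, add_assoc, hcon.2, he]
    have h2 := (Finset.card_le_card h1).trans (Finset.card_union_le _ _)
    have h3 := Finset.card_filter_add_card_filter_not (s := (univ : Finset P))
      (fun k : P => ψ (k + h + d) x = ψ (k + h) x)
    rw [Finset.card_univ] at h3
    unfold bad at hb1 hb2
    omega
  · right
    have h1 : (univ.filter fun k : P => ψ (k + h + d) x = ψ (k + h) x) ⊆
        (univ.filter fun k : P => ψ (k + h) x ≠ ψ k (ψ h x)) ∪
        (univ.filter fun k : P => ψ (k + (h + d)) x ≠ ψ k (ψ (h + d) x)) := by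
      intro k hk
      simp only [mem_union, mem_filter, mem_univ, true_and] at hk ⊢
      by_contra hcon
      push Not at hcon
      apply he
      rw [hcon.1, add_assoc, hcon.2] at hk
      exact ((ψ k).injective hk).symm
    have h2 := (Finset.card_le_card h1).trans (Finset.card_union_le _ _)
    unfold bad at hb1 hb2
    omega

theorem cnt_zero : cnt ψ x 0 = Fintype.card P := by
  unfold cnt
  simp

theorem cnt_add (d d' : P) : cnt ψ x d + cnt ψ x d' ≤ cnt ψ x (d + d') + Fintype.card P := by
  rw [cnt_shift ψ x d' d]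
  have h1 : (univ.filter fun k : P => ψ (k + d) x = ψ k x) ∩
      (univ.filter fun k : P => ψ (k + d + d') x = ψ (k + d) x) ⊆
      (univ.filter fun k : P => ψ (k + (d + d')) x = ψ k x) := by
    intro k hk
    simp only [mem_inter, mem_filter, mem_univ, true_and] at hk ⊢
    rw [← add_assoc, hk.2, hk.1]
  have h2 := Finset.card_le_card h1
  have h3 := Finset.card_union_add_card_inter (univ.filter fun k : P => ψ (k + d) x = ψ k x)
    (univ.filter fun k : P => ψ (k + d + d') x = ψ (k + d) x)
  have h4 : ((univ.filter fun k : P => ψ (k + d) x = ψ k x) ∪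
    (univ.filter fun k : P => ψ (k + d + d') x = ψ (k + d) x)).card ≤ Fintype.card P :=
    Finset.card_le_univ _
  unfold cnt
  omega

end

theorem main : K1P := by
  intro P X _ _ ψ x hg
  have hn : 0 < Fintype.card P := Fintype.card_pos
  refine ⟨{ carrier := {d | 4 * Fintype.card P ≤ 5 * cnt ψ x d}
            zero_mem' := ?_
            add_mem' := ?_
            neg_mem' := ?_ }, ?_, ?_, ?_⟩
  · intro a b ha hb
    simp only [Set.mem_ofPred_eq] at ha hb ⊢
    have h1 := cnt_add ψ x a b
    rcases dich ψ x hg (a + b) with h | h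
    · exact h
    · omega
  · simp only [Set.mem_ofPred_eq, cnt_zero]; omega
  · intro a ha
    simp only [Set.mem_ofPred_eq] at ha ⊢
    rw [cnt_neg]; exact ha
  · intro d; exact Iff.rfl
  · intro d hd
    rcases dich ψ x hg d with h | h
    · exact absurd h hd
    · exact h
  · intro d hd hb
    have hd' : 4 * Fintype.card P ≤ 5 * cnt ψ x d := hd
    by_contra hne
    have h1 : (univ.filter fun k : P => ψ (k + d) x = ψ k x) ⊆
        (univ.filter fun k : P => ψ (k + d) x ≠ ψ k (ψ d x)) := by
      intro k hk
      simp only [mem_filter, mem_univ, true_and] at hk ⊢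
      intro hc
      rw [hk] at hc
      exact hne ((ψ k).injective hc).symm
    have h2 := Finset.card_le_card h1
    unfold cnt at hd'
    omega

end

end Pool.Agent.Helper702_TH.K1
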