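import Pool.Agent.Helper702_TH.Stm

/-!
# Project TH (helper702), part K2: equivariance of the exact stabilisers
-/

set_option autoImplicit false
set_option maxHeartbeats 400000

open Filter Topology Finset
open scoped Classical

namespace Pool.Agent.Helper702_TH.K2

open Pool.Agent.Helper702_TH

theorem card_le3 {T : Type} [Fintype T] (p q b1 b2 : T → Prop) [DecidablePred p]
    [DecidablePred q] [DecidablePred b1] [DecidablePred b2]
    (h : ∀ t, ¬ b1 t → ¬ b2 t → p t → q t) :
    (univ.filter p).card ≤ (univ.filter q).card + (univ.filter b1).card + (univ.filter b2).card := by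
  have h1 : univ.filter p ⊆ (univ.filter q ∪ univ.filter b1) ∪ univ.filter b2 := by
    intro t ht
    simp only [mem_union, mem_filter, mem_univ, true_and] at ht ⊢
    by_cases h1 : b1 t
    · exact Or.inl (Or.inr h1)
    · by_cases h2 : b2 t
      · exact Or.inr h2
      · exact Or.inl (Or.inl (h t h1 h2 ht))
  refine (Finset.card_le_card h1).trans ((Finset.card_union_le _ _).trans ?_)
  exact Nat.add_le_add_right (Finset.card_union_le _ _) _

theorem main : K2P := by
  intro P X _ _ ψ f g x hf hg d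
  have hn : 0 < Fintype.card P := Fintype.card_pos
  set n := Fintype.card P with hndef
  -- first comparison
  set A := cnt ψ (g x) d with hA
  set B := (univ.filter fun k : P => ψ (f (k + d)) x = ψ (f k) x).card with hB
  set b := (univ.filter fun k : P => ψ k (g x) ≠ g (ψ (f k) x)).card with hb
  have hbs : (univ.filter fun k : P => ψ (k + d) (g x) ≠ g (ψ (f (k + d)) x)).card = b := by
    rw [hb]
    refine Finset.card_bij (fun k _ => k + d) ?_ ?_ ?_
    · intro k hk; simpa using hk
    · intro a _ b _ hab; exact add_right_cancel hab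
    · intro c hc
      exact ⟨c - d, by simpa using hc, by simp⟩
  have hkey : ∀ k : P, ¬ ψ (k + d) (g x) ≠ g (ψ (f (k + d)) x) → ¬ ψ k (g x) ≠ g (ψ (f k) x) →
      (ψ (k + d) (g x) = ψ k (g x) ↔ ψ (f (k + d)) x = ψ (f k) x) := by
    intro k h1 h2
    push Not at h1 h2
    rw [h1, h2]
    exact g.injective.eq_iff
  have hAB : A ≤ B + b + b := by
    have := card_le3 (fun k : P => ψ (k + d) (g x) = ψ k (g x))
      (fun k : P => ψ (f (k + d)) x = ψ (f k) x)
      (fun k : P => ψ (k + d) (g x) ≠ g (ψ (f (k + d)) x))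
      (fun k : P => ψ k (g x) ≠ g (ψ (f k) x)) (fun k h1 h2 => (hkey k h1 h2).1)
    rw [hbs] at this
    exact this
  have hBA : B ≤ A + b + b := by
    have := card_le3 (fun k : P => ψ (f (k + d)) x = ψ (f k) x)
      (fun k : P => ψ (k + d) (g x) = ψ k (g x))
      (fun k : P => ψ (k + d) (g x) ≠ g (ψ (f (k + d)) x))
      (fun k : P => ψ k (g x) ≠ g (ψ (f k) x)) (fun k h1 h2 => (hkey k h1 h2).2)
    rw [hbs] at this
    exact this
  -- second comparison
  set c := (univ.filter fun q : P × P => ψ (q.1 + f q.2) x ≠ ψ q.1 (ψ (f q.2) x)).card with hc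
  have hcs : (univ.filter fun q : P × P =>
      ψ (q.1 + f (q.2 + d)) x ≠ ψ q.1 (ψ (f (q.2 + d)) x)).card = c := by
    rw [hc]
    refine Finset.card_bij (fun q _ => (q.1, q.2 + d)) ?_ ?_ ?_
    · intro k hk; simpa using hk
    · rintro ⟨a1, a2⟩ _ ⟨b1, b2⟩ _ hab
      simp only [Prod.mk.injEq] at hab
      exact Prod.ext hab.1 (add_right_cancel hab.2)
    · rintro ⟨c1, c2⟩ hc
      exact ⟨(c1, c2 - d), by simpa using hc, by simp⟩
  set C := (univ.filter fun q : P × P => ψ (q.1 + f (q.2 + d)) x = ψ (q.1 + f q.2) x).card with hC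
  set D := (univ.filter fun q : P × P => ψ (f (q.2 + d)) x = ψ (f q.2) x).card with hD
  have hD' : D = n * B := by
    rw [hD, hB, hndef, ← Finset.card_univ, ← Finset.card_product]
    congr 1
    ext q
    simp
  have hC' : C = n * cnt ψ x (f d) := by
    rw [hC, hndef, ← Finset.card_univ, cnt, ← Finset.card_product]
    refine Finset.card_bij (fun q _ => (q.2, q.1 + f q.2)) ?_ ?_ ?_
    · intro q hq
      simpa [add_assoc, map_add] using hq
    · rintro ⟨a1, a2⟩ _ ⟨b1, b2⟩ _ hab
      simp only [Prod.mk.injEq] at hab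
      obtain ⟨h1, h2⟩ := hab
      subst h1
      exact Prod.ext (add_right_cancel h2) rfl
    · rintro ⟨c1, c2⟩ hc
      refine ⟨(c2 - f c1, c1), ?_, by simp⟩
      simp only [mem_product, mem_univ, true_and, mem_filter] at hc ⊢
      rw [map_add, ← add_assoc, sub_add_cancel]
      exact hc
  have hkey2 : ∀ q : P × P, ¬ ψ (q.1 + f (q.2 + d)) x ≠ ψ q.1 (ψ (f (q.2 + d)) x) →
      ¬ ψ (q.1 + f q.2) x ≠ ψ q.1 (ψ (f q.2) x) →
      (ψ (q.1 + f (q.2 + d)) x = ψ (q.1 + f q.2) x ↔ ψ (f (q.2 + d)) x = ψ (f q.2) x) := by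
    intro k h1 h2
    push Not at h1 h2
    rw [h1, h2]
    exact (ψ k.1).injective.eq_iff
  have hCD : C ≤ D + c + c := by
    have := card_le3 (fun q : P × P => ψ (q.1 + f (q.2 + d)) x = ψ (q.1 + f q.2) x)
      (fun q : P × P => ψ (f (q.2 + d)) x = ψ (f q.2) x)
      (fun q : P × P => ψ (q.1 + f (q.2 + d)) x ≠ ψ q.1 (ψ (f (q.2 + d)) x))
      (fun q : P × P => ψ (q.1 + f q.2) x ≠ ψ q.1 (ψ (f q.2) x))
      (fun k h1 h2 => (hkey2 k h1 h2).1)
    rw [hcs] at this
    exact this
  have hDC : D ≤ C + c + c := by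
    have := card_le3 (fun q : P × P => ψ (f (q.2 + d)) x = ψ (f q.2) x)
      (fun q : P × P => ψ (q.1 + f (q.2 + d)) x = ψ (q.1 + f q.2) x)
      (fun q : P × P => ψ (q.1 + f (q.2 + d)) x ≠ ψ q.1 (ψ (f (q.2 + d)) x))
      (fun q : P × P => ψ (q.1 + f q.2) x ≠ ψ q.1 (ψ (f q.2) x))
      (fun k h1 h2 => (hkey2 k h1 h2).2)
    rw [hcs] at this
    exact this
  have hf' : 100 * c ≤ n ^ 2 := hf
  have hg' : 100 * b ≤ n := hg
  set E := cnt ψ x (f d) with hE
  rw [hD'] at hCD hDC
  rw [hC'] at hCD hDC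
  have hnR : (0 : ℝ) < n := by exact_mod_cast hn
  have r1 : (A : ℝ) ≤ B + 2 * b := by
    have : A ≤ B + 2 * b := by omega
    exact_mod_cast this
  have r2 : (B : ℝ) ≤ A + 2 * b := by
    have : B ≤ A + 2 * b := by omega
    exact_mod_cast this
  have r3 : (n : ℝ) * E ≤ n * B + 2 * c := by
    have : n * E ≤ n * B + 2 * c := by omega
    exact_mod_cast this
  have r4 : (n : ℝ) * B ≤ n * E + 2 * c := by
    have : n * B ≤ n * E + 2 * c := by omega
    exact_mod_cast this
  have r5 : 100 * (c : ℝ) ≤ n ^ 2 := by exact_mod_cast hf'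
  have r6 : 100 * (b : ℝ) ≤ n := by exact_mod_cast hg'
  rw [abs_le]
  constructor
  · have : (n : ℝ) * (-(n / 25)) ≤ n * (A - E) := by nlinarith
    exact le_of_mul_le_mul_left this hnR
  · have : (n : ℝ) * (A - E) ≤ n * (n / 25) := by nlinarith
    exact le_of_mul_le_mul_left this hnR

end Pool.Agent.Helper702_TH.K2
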