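import Pool.Agent.Helper702_TH.Stm

/-!
# Project TH (helper702), part K3: the measure argument
-/

set_option autoImplicit false
set_option maxHeartbeats 400000

open Filter Topology Finset
open scoped Classical

namespace Pool.Agent.Helper702_TH.K3

open Pool.Agent.Helper702_TH Helper418

noncomputable section

variable {A : ℕ → Type} [∀ n, Fintype (A n)]

theorem dens_perm (P : ∀ n, A n → Prop) (τ : ∀ n, Equiv.Perm (A n)) (n : ℕ) :
    Helper418.dens (fun n a => P n (τ n a)) n = Helper418.dens P n := by
  unfold Helper418.dens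
  congr 2
  refine Finset.card_bij (fun a _ => τ n a) ?_ ?_ ?_
  · intro a ha; simpa using ha
  · intro a _ b _ hab; exact (τ n).injective hab
  · intro b hb
    exact ⟨(τ n).symm b, by simpa using hb, by simp⟩

theorem dens_sum (P : ∀ n, A n → Prop) (n : ℕ) :
    Helper418.dens P n = ∑ a, (if P n a then (1 : ℝ) else 0) / (Fintype.card (A n) : ℝ) := by
  unfold Helper418.dens
  rw [← Finset.sum_div, Finset.sum_boole]

theorem one_sum [∀ n, Nonempty (A n)] (n : ℕ) :
    (1 : ℝ) = ∑ _a : A n, (1 : ℝ) / (Fintype.card (A n) : ℝ) := by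
  rw [Finset.sum_const, Finset.card_univ, nsmul_eq_mul, mul_one_div, div_self]
  exact_mod_cast Fintype.card_ne_zero

theorem main : K3P := by
  intro A _ _ a b c gt gs gd hu ht hs hd
  rw [mem_ae (P := fun n x => c n x ≤ max (a n x) (b n x) ∧
    a n x ≤ max (b n x) (c n x) ∧ b n x ≤ max (a n x) (c n x))] at hu
  rw [mem_ae (P := fun n x => a n (gt n x) = c n x ∧ b n (gt n x) = b n x)] at ht
  rw [mem_ae (P := fun n x => a n (gs n x) = a n x ∧ b n (gs n x) = c n x)] at hs
  rw [mem_ae (P := fun n x => a n (gd n x) = a n x - 1 ∧ b n (gd n x) = b n x)] at hd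
  rw [mem_ae (P := fun n x => a n x = 0)]
  set eu := Helper418.dens (fun n x => ¬ (c n x ≤ max (a n x) (b n x) ∧
    a n x ≤ max (b n x) (c n x) ∧ b n x ≤ max (a n x) (c n x))) with heu
  set et := Helper418.dens (fun n x => ¬ (a n (gt n x) = c n x ∧ b n (gt n x) = b n x)) with het
  set es := Helper418.dens (fun n x => ¬ (a n (gs n x) = a n x ∧ b n (gs n x) = c n x)) with hes
  set ed := Helper418.dens (fun n x => ¬ (a n (gd n x) = a n x - 1 ∧ b n (gd n x) = b n x)) with hed
  have hlim : Tendsto (fun n => 3 * ed n + 7 * eu n + et n + es n) atTop (𝓝 0) := by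
    have := (((hd.const_mul 3).add (hu.const_mul 7)).add ht).add hs
    simpa using this
  refine squeeze_zero (fun n => dens_nonneg _ n) (fun n => ?_) hlim
  have hc : (0 : ℝ) < Fintype.card (A n) := by exact_mod_cast Fintype.card_pos
  -- the densities
  set m1 := Helper418.dens (fun n x => a n x < b n x) n with hm1
  set m2 := Helper418.dens (fun n x => b n x < a n x) n with hm2
  set m3 := Helper418.dens (fun n x => c n x < b n x) n with hm3
  set m0 := Helper418.dens (fun n x => a n x = 0 ∧ b n x = 0) n with hm0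
  have e1 : Helper418.dens (fun n x => a n (gd n x) < b n (gd n x)) n = m1 :=
    dens_perm (fun n x => a n x < b n x) gd n
  have e2 : Helper418.dens (fun n x => a n (gt n x) < b n (gt n x)) n = m1 :=
    dens_perm (fun n x => a n x < b n x) gt n
  have e3 : Helper418.dens (fun n x => b n (gs n x) < a n (gs n x)) n = m2 :=
    dens_perm (fun n x => b n x < a n x) gs n
  have i1 : 1 ≤ m1 + m2 + m0 + ed n := by
    rw [← e1, hm2, hm0, hed, one_sum (A := A) n, dens_sum, dens_sum, dens_sum, dens_sum,
      ← Finset.sum_add_distrib, ← Finset.sum_add_distrib, ← Finset.sum_add_distrib]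
    refine Finset.sum_le_sum fun x _ => ?_
    rw [← add_div, ← add_div, ← add_div]
    refine div_le_div_of_nonneg_right ?_ hc.le
    split_ifs <;> first | (exfalso; omega) | norm_num
  have i2 : m1 + m2 + m3 + m0 ≤ 1 + 3 * eu n := by
    rw [hm1, hm2, hm3, hm0, heu, one_sum (A := A) n, dens_sum, dens_sum, dens_sum, dens_sum,
      dens_sum, Finset.mul_sum,
      ← Finset.sum_add_distrib, ← Finset.sum_add_distrib, ← Finset.sum_add_distrib,
      ← Finset.sum_add_distrib]
    refine Finset.sum_le_sum fun x _ => ?_
    rw [← add_div, ← add_div, ← add_div, ← mul_div_assoc, ← add_div]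
    refine div_le_div_of_nonneg_right ?_ hc.le
    split_ifs <;> first | (exfalso; omega) | norm_num
  have i3 : m1 ≤ m3 + et n := by
    rw [← e2, hm3, het, dens_sum, dens_sum, dens_sum, ← Finset.sum_add_distrib]
    refine Finset.sum_le_sum fun x _ => ?_
    rw [← add_div]
    refine div_le_div_of_nonneg_right ?_ hc.le
    split_ifs <;> first | (exfalso; omega) | norm_num
  have i4 : m2 ≤ m3 + es n + eu n := by
    rw [← e3, hm3, hes, heu, dens_sum, dens_sum, dens_sum, dens_sum, ← Finset.sum_add_distrib,
      ← Finset.sum_add_distrib]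
    refine Finset.sum_le_sum fun x _ => ?_
    rw [← add_div, ← add_div]
    refine div_le_div_of_nonneg_right ?_ hc.le
    split_ifs <;> first | (exfalso; omega) | norm_num
  have i5 : Helper418.dens (fun n x => ¬ a n x = 0) n + m0 ≤ 1 := by
    rw [hm0, one_sum (A := A) n, dens_sum, dens_sum, ← Finset.sum_add_distrib]
    refine Finset.sum_le_sum fun x _ => ?_
    rw [← add_div]
    refine div_le_div_of_nonneg_right ?_ hc.le
    split_ifs <;> first | (exfalso; omega) | norm_num
  linarith

end

end Pool.Agent.Helper702_TH.K3
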