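import Pool.Agent.Helper702_TH.Stm

/-!
# Project TH (helper702), part M1: the group `Γ`
-/

set_option autoImplicit false
set_option maxHeartbeats 1000000

open Filter Topology Finset
open scoped Classical

namespace Pool.Agent.Helper702_TH.M1

open Helper418 Pool.Agent.helper987_SE Pool.Agent.Helper702_TH

noncomputable section

/-- the block number -/
def blk : Fin 8 → ℕ := ![0, 1, 1, 1, 2, 2, 2, 3]

theorem pat_iff (i j : Fin 8) :
    ((i.val = 7 ∧ j.val < 7) ∨ (4 ≤ i.val ∧ j.val < 4) ∨ (1 ≤ i.val ∧ j.val < 1)) ↔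
      blk j < blk i := by
  revert i j
  decide

/-- the middle block -/
def mid {R : Type} [CommRing R] (g : Matrix (Fin 8) (Fin 8) R) : Matrix (Fin 3) (Fin 3) R :=
  Matrix.of ![![g 1 1, g 1 2, g 1 3], ![g 2 1, g 2 2, g 2 3], ![g 3 1, g 3 2, g 3 3]]

theorem cond_iff {R : Type} [CommRing R] (g : Matrix (Fin 8) (Fin 8) R) :
    Cond g ↔ (g.BlockTriangular blk ∧ g 0 0 = 1 ∧ g 7 7 = 1 ∧ (mid g).det = 1) := by
  unfold Cond Matrix.BlockTriangular mid
  simp only [pat_iff]

theorem mul00 {R : Type} [CommRing R] (g h : Matrix (Fin 8) (Fin 8) R)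
    (hh : h.BlockTriangular blk) : (g * h) 0 0 = g 0 0 * h 0 0 := by
  have H : ∀ k : Fin 8, k ≠ 0 → h k 0 = 0 := fun k hk => hh (by revert k; decide)
  rw [Matrix.mul_apply, Fin.sum_univ_eight, H 1 (by decide), H 2 (by decide), H 3 (by decide),
    H 4 (by decide), H 5 (by decide), H 6 (by decide), H 7 (by decide)]
  ring

theorem mul77 {R : Type} [CommRing R] (g h : Matrix (Fin 8) (Fin 8) R)
    (hg : g.BlockTriangular blk) : (g * h) 7 7 = g 7 7 * h 7 7 := by
  have H : ∀ k : Fin 8, k ≠ 7 → g 7 k = 0 := fun k hk => hg (by revert k; decide)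
  rw [Matrix.mul_apply, Fin.sum_univ_eight, H 0 (by decide), H 1 (by decide), H 2 (by decide),
    H 3 (by decide), H 4 (by decide), H 5 (by decide), H 6 (by decide)]
  ring

theorem mid_mul {R : Type} [CommRing R] (g h : Matrix (Fin 8) (Fin 8) R)
    (hg : g.BlockTriangular blk) (hh : h.BlockTriangular blk) :
    mid (g * h) = mid g * mid h := by
  have H : ∀ i j : Fin 8, blk i = 1 → blk j = 1 →
      (g * h) i j = g i 1 * h 1 j + g i 2 * h 2 j + g i 3 * h 3 j := by
    intro i j hi hj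
    rw [Matrix.mul_apply, Fin.sum_univ_eight]
    have e0 : g i 0 = 0 := hg (by rw [hi]; decide)
    have e4 : h 4 j = 0 := hh (by rw [hj]; decide)
    have e5 : h 5 j = 0 := hh (by rw [hj]; decide)
    have e6 : h 6 j = 0 := hh (by rw [hj]; decide)
    have e7 : h 7 j = 0 := hh (by rw [hj]; decide)
    rw [e0, e4, e5, e6, e7]
    ring
  ext i j
  rw [Matrix.mul_apply, Fin.sum_univ_three]
  fin_cases i <;> fin_cases j <;> simp [mid] <;> rw [H _ _ (by decide) (by decide)]

theorem cond_mul {R : Type} [CommRing R] (g h : Matrix (Fin 8) (Fin 8) R)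
    (hg : Cond g) (hh : Cond h) : Cond (g * h) := by
  rw [cond_iff] at *
  obtain ⟨g1, g2, g3, g4⟩ := hg
  obtain ⟨h1, h2, h3, h4⟩ := hh
  refine ⟨g1.mul h1, ?_, ?_, ?_⟩
  · rw [mul00 g h h1, g2, h2, mul_one]
  · rw [mul77 g h g1, g3, h3, mul_one]
  · rw [mid_mul g h g1 h1, Matrix.det_mul, g4, h4, mul_one]

theorem cond_one {R : Type} [CommRing R] : Cond (1 : Matrix (Fin 8) (Fin 8) R) := by
  rw [cond_iff]
  refine ⟨Matrix.blockTriangular_one, by simp, by simp, ?_⟩
  have : mid (1 : Matrix (Fin 8) (Fin 8) R) = 1 := by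
    ext i j
    fin_cases i <;> fin_cases j <;> simp [mid]
  rw [this, Matrix.det_one]

theorem cond_inv {R : Type} [CommRing R] (g h : Matrix (Fin 8) (Fin 8) R) (hg : Cond g)
    (hgh : g * h = 1) : Cond h := by
  rw [cond_iff] at *
  obtain ⟨g1, g2, g3, g4⟩ := hg
  have hinv : h = g⁻¹ := (Matrix.inv_eq_right_inv hgh).symm
  have hgh' : h * g = 1 := mul_eq_one_comm.1 hgh
  have hI : Invertible g := ⟨h, hgh', hgh⟩
  have h1 : h.BlockTriangular blk := by
    rw [hinv]
    exact Matrix.blockTriangular_inv_of_blockTriangular g1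
  refine ⟨h1, ?_, ?_, ?_⟩
  · have := mul00 g h h1
    rw [hgh, g2, one_mul] at this
    rw [← this]; simp
  · have := mul77 g h g1
    rw [hgh, g3, one_mul] at this
    rw [← this]; simp
  · have := mid_mul g h g1 h1
    have h1' := ((cond_iff (1 : Matrix (Fin 8) (Fin 8) R)).1 cond_one).2.2.2
    rw [← hgh, this, Matrix.det_mul, g4, one_mul] at h1'
    exact h1'

theorem main : M1P := by
  intro R _
  refine ⟨{ carrier := {g | Cond g.1}, mul_mem' := ?_, one_mem' := ?_, inv_mem' := ?_ }, ?_⟩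
  · intro a b ha hb
    exact cond_mul _ _ ha hb
  · exact cond_one
  · intro a ha
    refine cond_inv a.1 _ ha ?_
    have : ((a * a⁻¹ : Matrix.SpecialLinearGroup (Fin 8) R) : Matrix (Fin 8) (Fin 8) R) = 1 := by
      rw [mul_inv_cancel]; rfl
    exact this
  · intro g
    exact Iff.rfl

end

end Pool.Agent.Helper702_TH.M1
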