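import Pool.Agent.Helper702_TH.Stm

/-!
# Project TH, part M2: the configuration in `Γ/Z` (helper249)
-/

set_option autoImplicit false
set_option maxHeartbeats 400000

namespace Pool.Agent.Helper702_TH.M2

open Matrix

noncomputable section

/-- the block of an index -/
def blk : Fin 8 → ℕ := ![0, 1, 1, 1, 2, 2, 2, 3]

/-- positions of the allowed transvections -/
def ok (i j : Fin 8) : Prop := i ≠ j ∧ blk i ≤ blk j

instance (i j : Fin 8) : Decidable (ok i j) := by unfold ok; infer_instance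

/-- the indices `1, 2, 3` -/
def a : Fin 3 → Fin 8 := ![1, 2, 3]

theorem ok_aa : ∀ k l : Fin 3, k ≠ l → ok (a k) (a l) := by decide
theorem ok_0a : ∀ k : Fin 3, ok 0 (a k) := by decide
theorem ok_ac : ∀ (k : Fin 3) (c : Fin 8), 4 ≤ c.val → ok (a k) c := by decide
theorem ok_0c : ∀ c : Fin 8, 4 ≤ c.val → ok 0 c := by decide
theorem a_ne : ∀ k l : Fin 3, k ≠ l → a k ≠ a l := by decide
theorem a_ne0 : ∀ k : Fin 3, a k ≠ 0 := by decide
theorem a_nec : ∀ (k : Fin 3) (c : Fin 8), 4 ≤ c.val → a k ≠ c := by decide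
theorem c_ne0 : ∀ (c : Fin 8), 4 ≤ c.val → c ≠ 0 := by decide

/-! ## Abstract part -/

/-- Elements `ε i j r` satisfying the Steinberg relations. -/
structure Sys (R G : Type) [CommRing R] [Group G] (b : R) where
  ε : Fin 8 → Fin 8 → R → G
  D : G
  comm : ∀ i j k l r s, ok i j → ok k l → j ≠ k → i ≠ l → Commute (ε i j r) (ε k l s)
  mul : ∀ i j k r s, i ≠ k → ok i j → ok j k →
    ε i j r * ε j k s = ε i k (r * s) * ε j k s * ε i j r
  add : ∀ i j r s, ε i j r * ε i j s = ε i j (r + s)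
  dg : ∀ i j r r', ok i j → r * (![1, 1, 1, 1, 2, 1, b, 1] : Fin 8 → R) j =
    (![1, 1, 1, 1, 2, 1, b, 1] : Fin 8 → R) i * r' → ε i j r * D = D * ε i j r'
  cen : ∀ r g, Commute (ε 0 7 r) g
  one : ε 0 7 1 = 1

variable {R G : Type} [CommRing R] [Group G] {b : R}

/-- the relations of `T` -/
def Sys.mkT (S : Sys R G b) {J : Type} (col : J → Fin 8) (ent : J → R)
    (hc : ∀ j, 4 ≤ (col j).val) : TRel J G where
  e := fun k l => S.ε (a k) (a l) 1
  x := fun k => S.ε 0 (a k) 1
  y := fun k j => S.ε (a k) (col j) (ent j)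
  z := fun j => S.ε 0 (col j) (ent j)
  ee := fun k l m h1 h2 h3 => by
    have := S.mul (a k) (a l) (a m) 1 1 (a_ne _ _ h3) (ok_aa _ _ h1) (ok_aa _ _ h2)
    rwa [mul_one] at this
  ee_comm := fun k l k' l' h1 h2 h3 h4 =>
    S.comm _ _ _ _ _ _ (ok_aa _ _ h1) (ok_aa _ _ h2) (a_ne _ _ h3) (a_ne _ _ h4)
  xx := fun k l => S.comm _ _ _ _ _ _ (ok_0a _) (ok_0a _) (a_ne0 _) (a_ne0 _).symm
  xe := fun k l h => by
    have := S.mul 0 (a k) (a l) 1 1 (a_ne0 _).symm (ok_0a _) (ok_aa _ _ h)
    rwa [mul_one] at this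
  xe_comm := fun k l m h1 h2 =>
    S.comm _ _ _ _ _ _ (ok_0a _) (ok_aa _ _ h1) (a_ne _ _ h2) (a_ne0 _).symm
  ey := fun k l j h => by
    have := S.mul (a k) (a l) (col j) 1 (ent j) (a_nec _ _ (hc j)) (ok_aa _ _ h)
      (ok_ac _ _ (hc j))
    rwa [one_mul] at this
  ey_comm := fun k l m j h1 h2 =>
    S.comm _ _ _ _ _ _ (ok_aa _ _ h1) (ok_ac _ _ (hc j)) (a_ne _ _ h2) (a_nec _ _ (hc j))
  yy := fun k l i j => S.comm _ _ _ _ _ _ (ok_ac _ _ (hc i)) (ok_ac _ _ (hc j))
    (a_nec _ _ (hc i)).symm (a_nec _ _ (hc j))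
  xy := fun k j => by
    have := S.mul 0 (a k) (col j) 1 (ent j) (c_ne0 _ (hc j)).symm (ok_0a _) (ok_ac _ _ (hc j))
    rwa [one_mul] at this
  xy_comm := fun k l j h => S.comm _ _ _ _ _ _ (ok_0a _) (ok_ac _ _ (hc j)) (a_ne _ _ h)
    (c_ne0 _ (hc j)).symm
  ze := fun j k l h => S.comm _ _ _ _ _ _ (ok_0c _ (hc j)) (ok_aa _ _ h)
    (a_nec _ _ (hc j)).symm (a_ne0 _).symm
  zx := fun j k => S.comm _ _ _ _ _ _ (ok_0c _ (hc j)) (ok_0a _) (c_ne0 _ (hc j)) (a_ne0 _).symm
  zy := fun i k j => S.comm _ _ _ _ _ _ (ok_0c _ (hc i)) (ok_ac _ _ (hc j))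
    (a_nec _ _ (hc i)).symm (c_ne0 _ (hc j)).symm
  zz := fun i j => S.comm _ _ _ _ _ _ (ok_0c _ (hc i)) (ok_0c _ (hc j)) (c_ne0 _ (hc i))
    (c_ne0 _ (hc j)).symm

/-- invariance of `T` under a conjugation can be checked on generators -/
theorem inv_of_gens {J : Type} (P : TRel J G) (g : G)
    (he : ∀ k l, k ≠ l → g⁻¹ * P.e k l * g ∈ P.T) (hx : ∀ k, g⁻¹ * P.x k * g ∈ P.T)
    (hy : ∀ k j, g⁻¹ * P.y k j * g ∈ P.T) (hz : ∀ j, g⁻¹ * P.z j * g ∈ P.T) :
    ∀ t ∈ P.T, g⁻¹ * t * g ∈ P.T := by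
  intro t ht
  have h1 : P.T ≤ P.T.comap (MulAut.conj g⁻¹).toMonoidHom := by
    unfold TRel.T
    rw [Subgroup.closure_le]
    intro s hs
    have : g⁻¹ * s * g ∈ P.T := by
      rcases hs with ⟨k, l, h, rfl⟩ | ⟨k, rfl⟩ | ⟨k, j, rfl⟩ | ⟨j, rfl⟩
      · exact he k l h
      · exact hx k
      · exact hy k j
      · exact hz j
    simpa [MulAut.conj_apply, TRel.T] using this
  have h2 := h1 ht
  simpa [MulAut.conj_apply] using h2

theorem mem_e {J : Type} (P : TRel J G) (k l) (h : k ≠ l) : P.e k l ∈ P.T :=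
  Subgroup.subset_closure (Or.inl ⟨k, l, h, rfl⟩)

theorem mem_x {J : Type} (P : TRel J G) (k) : P.x k ∈ P.T :=
  Subgroup.subset_closure (Or.inr (Or.inl ⟨k, rfl⟩))

theorem mem_y {J : Type} (P : TRel J G) (k j) : P.y k j ∈ P.T :=
  Subgroup.subset_closure (Or.inr (Or.inr (Or.inl ⟨k, j, rfl⟩)))

theorem mem_z {J : Type} (P : TRel J G) (j) : P.z j ∈ P.T :=
  Subgroup.subset_closure (Or.inr (Or.inr (Or.inr ⟨j, rfl⟩)))

theorem conj_of_commute {g x : G} (h : Commute x g) : g⁻¹ * x * g = x := by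
  rw [mul_assoc, h.eq, inv_mul_cancel_left]

/-- conjugation of a transvection by a transvection -/
theorem Sys.conj_mul (S : Sys R G b) (i j k : Fin 8) (r s : R) (hik : ok i k) (hij : ok i j)
    (hjk : ok j k) : (S.ε j k s)⁻¹ * S.ε i j r * S.ε j k s = S.ε i j r * S.ε i k (r * s) := by
  have h1 := S.mul i j k r s hik.1 hij hjk
  have h2 : Commute (S.ε i k (r * s)) (S.ε j k s) := S.comm _ _ _ _ _ _ hik hjk hjk.1.symm hik.1
  have h3 : Commute (S.ε i k (r * s)) (S.ε i j r) := S.comm _ _ _ _ _ _ hik hij hik.1.symm hij.1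
  rw [mul_assoc, h1, h2.eq, mul_assoc, inv_mul_cancel_left, h3.eq]

theorem Sys.conj_comm (S : Sys R G b) (i j k l : Fin 8) (r s : R) (hij : ok i j)
    (hkl : ok k l) (h1 : j ≠ k) (h2 : i ≠ l) :
    (S.ε k l s)⁻¹ * S.ε i j r * S.ε k l s = S.ε i j r :=
  conj_of_commute (S.comm _ _ _ _ _ _ hij hkl h1 h2)

theorem Sys.conj_D (S : Sys R G b) (i j : Fin 8) (r r' : R) (hij : ok i j)
    (h : r * (![1, 1, 1, 1, 2, 1, b, 1] : Fin 8 → R) j =
      (![1, 1, 1, 1, 2, 1, b, 1] : Fin 8 → R) i * r') :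
    S.D⁻¹ * S.ε i j r * S.D = S.ε i j r' := by
  rw [mul_assoc, S.dg i j r r' hij h, inv_mul_cancel_left]

/-- columns of `P` -/
def colP : Fin 2 → Fin 8 := ![4, 5]

/-- columns of `Q` -/
def colQ : Fin 2 → Fin 8 := ![4, 7]

theorem hcolP : ∀ j, 4 ≤ (colP j).val := by decide
theorem hcolQ : ∀ j, 4 ≤ (colQ j).val := by decide

/-- the relations with columns `4`, `5` -/
def Sys.P (S : Sys R G b) : TRel (Fin 2) G := S.mkT colP (fun _ => 1) hcolP

/-- the relations with columns `4`, `7` -/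
def Sys.Q (S : Sys R G b) : TRel (Fin 2) G := S.mkT colQ ![1, b] hcolQ

/-- the configuration -/
def Sys.mdl (S : Sys R G b) (hb : 2 * b = 1) : Mdl G where
  P := S.P
  Q := S.Q
  c := S.ε 0 7 b
  h := S.ε 4 7 b
  gt := S.ε 4 5 1
  gs := S.ε 5 4 1
  gd := S.D
  e_eq := rfl
  x_eq := rfl
  y_eq := fun k => rfl
  z_eq := rfl
  z_c := rfl
  c_cen := fun g => S.cen b g
  c_sq := by
    rw [pow_two, S.add, ← two_mul, hb, S.one]
  h_T := by
    refine inv_of_gens _ _ ?_ ?_ ?_ ?_
    · intro k l h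
      have : (S.ε 4 7 b)⁻¹ * S.Q.e k l * S.ε 4 7 b = S.Q.e k l :=
        S.conj_comm _ _ _ _ _ _ (ok_aa _ _ h) (by decide) (by revert l; decide +revert)
          (by decide +revert)
      rw [this]; exact mem_e _ _ _ h
    · intro k
      have : (S.ε 4 7 b)⁻¹ * S.Q.x k * S.ε 4 7 b = S.Q.x k :=
        S.conj_comm _ _ _ _ _ _ (ok_0a _) (by decide) (by decide +revert)
          (by decide)
      rw [this]; exact mem_x _ _
    · intro k j
      fin_cases j
      · have : (S.ε 4 7 b)⁻¹ * S.Q.y k 0 * S.ε 4 7 b = S.Q.y k 0 * S.Q.y k 1 := by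
          have := S.conj_mul (a k) 4 7 1 b (by decide +revert) (by decide +revert) (by decide)
          rwa [one_mul] at this
        rw [show (((fun i => i) ⟨0, by decide⟩ : Fin 2)) = (0 : Fin 2) from rfl, this]
        exact mul_mem (mem_y _ _ _) (mem_y _ _ _)
      · have : (S.ε 4 7 b)⁻¹ * S.Q.y k 1 * S.ε 4 7 b = S.Q.y k 1 :=
          S.conj_comm _ _ _ _ _ _ (ok_ac _ _ (hcolQ _)) (by decide) (by decide)
            (by decide +revert)
        rw [show (((fun i => i) ⟨1, by decide⟩ : Fin 2)) = (1 : Fin 2) from rfl, this]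
        exact mem_y _ _ _
    · intro j
      fin_cases j
      · have : (S.ε 4 7 b)⁻¹ * S.Q.z 0 * S.ε 4 7 b = S.Q.z 0 * S.Q.z 1 := by
          have := S.conj_mul 0 4 7 1 b (by decide) (by decide) (by decide)
          rwa [one_mul] at this
        rw [show (((fun i => i) ⟨0, by decide⟩ : Fin 2)) = (0 : Fin 2) from rfl, this]
        exact mul_mem (mem_z _ _) (mem_z _ _)
      · have : (S.ε 4 7 b)⁻¹ * S.Q.z 1 * S.ε 4 7 b = S.Q.z 1 :=
          conj_of_commute (S.cen b _)
        rw [show (((fun i => i) ⟨1, by decide⟩ : Fin 2)) = (1 : Fin 2) from rfl, this]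
        exact mem_z _ _
  h_z := by
    have := S.conj_mul 0 4 7 1 b (by decide) (by decide) (by decide)
    rwa [one_mul] at this
  gt_T := by
    refine inv_of_gens _ _ ?_ ?_ ?_ ?_
    · intro k l h
      have : (S.ε 4 5 1)⁻¹ * S.P.e k l * S.ε 4 5 1 = S.P.e k l :=
        S.conj_comm _ _ _ _ _ _ (ok_aa _ _ h) (by decide) (by decide +revert)
          (by decide +revert)
      rw [this]; exact mem_e _ _ _ h
    · intro k
      have : (S.ε 4 5 1)⁻¹ * S.P.x k * S.ε 4 5 1 = S.P.x k :=
        S.conj_comm _ _ _ _ _ _ (ok_0a _) (by decide) (by decide +revert)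
          (by decide)
      rw [this]; exact mem_x _ _
    · intro k j
      fin_cases j
      · have : (S.ε 4 5 1)⁻¹ * S.P.y k 0 * S.ε 4 5 1 = S.P.y k 0 * S.P.y k 1 := by
          have := S.conj_mul (a k) 4 5 1 1 (by decide +revert) (by decide +revert) (by decide)
          rwa [one_mul] at this
        rw [show (((fun i => i) ⟨0, by decide⟩ : Fin 2)) = (0 : Fin 2) from rfl, this]
        exact mul_mem (mem_y _ _ _) (mem_y _ _ _)
      · have : (S.ε 4 5 1)⁻¹ * S.P.y k 1 * S.ε 4 5 1 = S.P.y k 1 :=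
          S.conj_comm _ _ _ _ _ _ (ok_ac _ _ (hcolP _)) (by decide) (by decide)
            (by decide +revert)
        rw [show (((fun i => i) ⟨1, by decide⟩ : Fin 2)) = (1 : Fin 2) from rfl, this]
        exact mem_y _ _ _
    · intro j
      fin_cases j
      · have : (S.ε 4 5 1)⁻¹ * S.P.z 0 * S.ε 4 5 1 = S.P.z 0 * S.P.z 1 := by
          have := S.conj_mul 0 4 5 1 1 (by decide) (by decide) (by decide)
          rwa [one_mul] at this
        rw [show (((fun i => i) ⟨0, by decide⟩ : Fin 2)) = (0 : Fin 2) from rfl, this]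
        exact mul_mem (mem_z _ _) (mem_z _ _)
      · have : (S.ε 4 5 1)⁻¹ * S.P.z 1 * S.ε 4 5 1 = S.P.z 1 :=
          S.conj_comm _ _ _ _ _ _ (by decide) (by decide) (by decide) (by decide)
        rw [show (((fun i => i) ⟨1, by decide⟩ : Fin 2)) = (1 : Fin 2) from rfl, this]
        exact mem_z _ _
  gt_z0 := by
    have := S.conj_mul 0 4 5 1 1 (by decide) (by decide) (by decide)
    rwa [one_mul] at this
  gt_z1 := S.conj_comm _ _ _ _ _ _ (by decide) (by decide) (by decide) (by decide)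
  gs_T := by
    refine inv_of_gens _ _ ?_ ?_ ?_ ?_
    · intro k l h
      have : (S.ε 5 4 1)⁻¹ * S.P.e k l * S.ε 5 4 1 = S.P.e k l :=
        S.conj_comm _ _ _ _ _ _ (ok_aa _ _ h) (by decide) (by decide +revert)
          (by decide +revert)
      rw [this]; exact mem_e _ _ _ h
    · intro k
      have : (S.ε 5 4 1)⁻¹ * S.P.x k * S.ε 5 4 1 = S.P.x k :=
        S.conj_comm _ _ _ _ _ _ (ok_0a _) (by decide) (by decide +revert)
          (by decide)
      rw [this]; exact mem_x _ _
    · intro k j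
      fin_cases j
      · have : (S.ε 5 4 1)⁻¹ * S.P.y k 0 * S.ε 5 4 1 = S.P.y k 0 :=
          S.conj_comm _ _ _ _ _ _ (ok_ac _ _ (hcolP _)) (by decide) (by decide)
            (by decide +revert)
        rw [show (((fun i => i) ⟨0, by decide⟩ : Fin 2)) = (0 : Fin 2) from rfl, this]
        exact mem_y _ _ _
      · have : (S.ε 5 4 1)⁻¹ * S.P.y k 1 * S.ε 5 4 1 = S.P.y k 1 * S.P.y k 0 := by
          have := S.conj_mul (a k) 5 4 1 1 (by decide +revert) (by decide +revert) (by decide)
          rwa [one_mul] at this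
        rw [show (((fun i => i) ⟨1, by decide⟩ : Fin 2)) = (1 : Fin 2) from rfl, this]
        exact mul_mem (mem_y _ _ _) (mem_y _ _ _)
    · intro j
      fin_cases j
      · have : (S.ε 5 4 1)⁻¹ * S.P.z 0 * S.ε 5 4 1 = S.P.z 0 :=
          S.conj_comm _ _ _ _ _ _ (by decide) (by decide) (by decide) (by decide)
        rw [show (((fun i => i) ⟨0, by decide⟩ : Fin 2)) = (0 : Fin 2) from rfl, this]
        exact mem_z _ _
      · have : (S.ε 5 4 1)⁻¹ * S.P.z 1 * S.ε 5 4 1 = S.P.z 1 * S.P.z 0 := by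
          have := S.conj_mul 0 5 4 1 1 (by decide) (by decide) (by decide)
          rwa [one_mul] at this
        rw [show (((fun i => i) ⟨1, by decide⟩ : Fin 2)) = (1 : Fin 2) from rfl, this]
        exact mul_mem (mem_z _ _) (mem_z _ _)
  gs_z0 := S.conj_comm _ _ _ _ _ _ (by decide) (by decide) (by decide) (by decide)
  gs_z1 := by
    have := S.conj_mul 0 5 4 1 1 (by decide) (by decide) (by decide)
    rw [one_mul] at this
    have h2 : Commute (S.P.z 0) (S.P.z 1) := S.P.zz 0 1
    rw [h2.eq]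
    exact this
  gd_T := by
    refine inv_of_gens _ _ ?_ ?_ ?_ ?_
    · intro k l h
      have : S.D⁻¹ * S.P.e k l * S.D = S.P.e k l :=
        S.conj_D _ _ _ _ (ok_aa _ _ h) (by fin_cases k <;> fin_cases l <;> simp [a])
      rw [this]; exact mem_e _ _ _ h
    · intro k
      have : S.D⁻¹ * S.P.x k * S.D = S.P.x k :=
        S.conj_D _ _ _ _ (ok_0a _) (by fin_cases k <;> simp [a])
      rw [this]; exact mem_x _ _
    · intro k j
      fin_cases j
      · have : S.D⁻¹ * S.P.y k 0 * S.D = S.P.y k 0 * S.P.y k 0 := by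
          have h1 := S.conj_D (a k) 4 1 (1 + 1) (ok_ac _ _ (by decide))
            (by fin_cases k <;> simp [a] <;> norm_num)
          rw [← S.add] at h1
          exact h1
        rw [show (((fun i => i) ⟨0, by decide⟩ : Fin 2)) = (0 : Fin 2) from rfl, this]
        exact mul_mem (mem_y _ _ _) (mem_y _ _ _)
      · have : S.D⁻¹ * S.P.y k 1 * S.D = S.P.y k 1 :=
          S.conj_D (a k) 5 1 1 (ok_ac _ _ (by decide))
            (by fin_cases k <;> simp [a])
        rw [show (((fun i => i) ⟨1, by decide⟩ : Fin 2)) = (1 : Fin 2) from rfl, this]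
        exact mem_y _ _ _
    · intro j
      fin_cases j
      · have : S.D⁻¹ * S.P.z 0 * S.D = S.P.z 0 * S.P.z 0 := by
          have h1 := S.conj_D 0 4 1 (1 + 1) (by decide) (by simp; norm_num)
          rw [← S.add] at h1
          exact h1
        rw [show (((fun i => i) ⟨0, by decide⟩ : Fin 2)) = (0 : Fin 2) from rfl, this]
        exact mul_mem (mem_z _ _) (mem_z _ _)
      · have : S.D⁻¹ * S.P.z 1 * S.D = S.P.z 1 :=
          S.conj_D 0 5 1 1 (by decide) (by simp)
        rw [show (((fun i => i) ⟨1, by decide⟩ : Fin 2)) = (1 : Fin 2) from rfl, this]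
        exact mem_z _ _
  gd_z0 := by
    have h1 := S.conj_D 0 4 1 (1 + 1) (by decide) (by simp; norm_num)
    rw [← S.add, ← pow_two] at h1
    exact h1
  gd_z1 := S.conj_D 0 5 1 1 (by decide) (by simp)

/-! ## Concrete part -/

section conc

variable {R : Type} [CommRing R]

theorem sms0 (i j k l : Fin 8) (r s : R) (h : j ≠ k) :
    (single i j r * single k l s : Matrix (Fin 8) (Fin 8) R) = 0 :=
  single_mul_single_of_ne _ _ _ _ h _

/-- the elementary matrix `1 + r e_ij` -/
def E (i j : Fin 8) (r : R) (h : i ≠ j) : SpecialLinearGroup (Fin 8) R :=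
  ⟨transvection i j r, det_transvection_of_ne i j h r⟩

theorem E_coe (i j : Fin 8) (r : R) (h : i ≠ j) :
    ((E i j r h : SpecialLinearGroup (Fin 8) R) : Matrix (Fin 8) (Fin 8) R) =
      1 + single i j r := rfl

theorem E_add (i j : Fin 8) (r s : R) (h : i ≠ j) : E i j r h * E i j s h = E i j (r + s) h := by
  apply Subtype.ext
  show (1 + single i j r) * (1 + single i j s) = 1 + single i j (r + s)
  rw [add_mul, mul_add, mul_add, sms0 i j i j r s h.symm, single_add]
  simp only [mul_one, one_mul, add_zero]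
  abel

theorem E_comm (i j k l : Fin 8) (r s : R) (h : i ≠ j) (h' : k ≠ l) (h1 : j ≠ k) (h2 : i ≠ l) :
    E i j r h * E k l s h' = E k l s h' * E i j r h := by
  apply Subtype.ext
  show (1 + single i j r) * (1 + single k l s) = (1 + single k l s) * (1 + single i j r)
  simp only [add_mul, mul_add, sms0 i j k l r s h1, sms0 k l i j s r h2.symm, mul_one, one_mul,
    add_zero]
  abel

theorem E_mul (i j k : Fin 8) (r s : R) (h : i ≠ j) (h' : j ≠ k) (h3 : i ≠ k) :
    E i j r h * E j k s h' = E i k (r * s) h3 * E j k s h' * E i j r h := by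
  apply Subtype.ext
  show (1 + single i j r) * (1 + single j k s) =
    (1 + single i k (r * s)) * (1 + single j k s) * (1 + single i j r)
  have e1 : single i j r * single j k s = single i k (r * s) := by
    rw [single_mul_single_same]
  have e2 : single i k (r * s) * single j k s = 0 :=
    sms0 _ _ _ _ _ _ h'.symm
  have e3 : single i k (r * s) * single i j r = 0 :=
    sms0 _ _ _ _ _ _ h3.symm
  have e4 : single j k s * single i j r = 0 :=
    sms0 _ _ _ _ _ _ h3.symm
  simp only [add_mul, mul_add, one_mul, mul_one, e1, e2, e3, e4, add_zero]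
  abel

/-- the diagonal -/
def dd (b : R) : Fin 8 → R := ![1, 1, 1, 1, 2, 1, b, 1]

theorem dd_det (b : R) (hb : 2 * b = 1) : (diagonal (dd b)).det = 1 := by
  rw [det_diagonal, Fin.prod_univ_eight]
  simp [dd, hb]

/-- `diag(1,1,1,1,2,1,b,1)` -/
def DD (b : R) (hb : 2 * b = 1) : SpecialLinearGroup (Fin 8) R :=
  ⟨diagonal (dd b), dd_det b hb⟩

theorem DD_E (b : R) (hb : 2 * b = 1) (i j : Fin 8) (r r' : R) (h : i ≠ j)
    (hr : r * dd b j = dd b i * r') :
    E i j r h * DD b hb = DD b hb * E i j r' h := by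
  apply Subtype.ext
  show (1 + single i j r) * diagonal (dd b) = diagonal (dd b) * (1 + single i j r')
  rw [add_mul, mul_add, one_mul, mul_one]
  congr 1
  ext p q
  rw [mul_diagonal, diagonal_mul]
  by_cases hp : i = p
  · by_cases hq : j = q
    · subst hp; subst hq; simp [hr]
    · simp [hq]
  · simp [hp]

theorem cond_E : ∀ (i j : Fin 8) (r : R) (h : ok i j), Cond (E i j r h.1).1 := by
  intro i j r h
  have key : ∀ p q : Fin 8, (E i j r h.1).1 p q = (if p = q then 1 else 0) +
      (if i = p ∧ j = q then r else 0) := by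
    intro p q
    show (1 + single i j r) p q = _
    rw [Matrix.add_apply, one_apply, single_apply]
  refine ⟨?_, ?_, ?_, ?_⟩
  · intro p q hpq
    rw [key]
    have h1 : p ≠ q := by
      rintro rfl
      omega
    have h2 : ¬ (i = p ∧ j = q) := by
      rintro ⟨rfl, rfl⟩
      clear key h1
      revert h hpq
      revert j
      revert i
      decide
    rw [if_neg h1, if_neg h2, add_zero]
  · rw [key, if_pos rfl, if_neg (fun h' => h.1 (h'.1.trans h'.2.symm)), add_zero]
  · rw [key, if_pos rfl, if_neg (fun h' => h.1 (h'.1.trans h'.2.symm)), add_zero]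
  · simp only [key]
    rw [det_fin_three]
    have hne := h.1
    clear key h
    fin_cases i <;> fin_cases j <;> simp at hne ⊢

theorem cond_DD (b : R) (hb : 2 * b = 1) : Cond (DD b hb).1 := by
  refine ⟨?_, ?_, ?_, ?_⟩
  · intro p q hpq
    show diagonal (dd b) p q = 0
    rw [diagonal_apply_ne]
    rintro rfl
    omega
  · simp [DD, dd]
  · simp [DD, dd]
  · rw [det_fin_three]
    simp [DD, dd, diagonal]

theorem E07_central (g : SpecialLinearGroup (Fin 8) R) (hg : Cond g.1) (r : R) :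
    E 0 7 r (by decide) * g = g * E 0 7 r (by decide) := by
  apply Subtype.ext
  show (1 + single 0 7 r) * g.1 = g.1 * (1 + single 0 7 r)
  rw [add_mul, mul_add, one_mul, mul_one]
  congr 1
  obtain ⟨h1, h2, h3, -⟩ := hg
  ext p q
  by_cases hp : p = 0
  · subst hp
    rw [single_mul_apply_same]
    by_cases hq : q = 7
    · subst hq
      rw [mul_single_apply_same, h2, h3, one_mul, mul_one]
    · rw [mul_single_apply_of_ne _ _ _ _ _ hq, h1 7 q (Or.inl ⟨rfl, by omega⟩), mul_zero]
  · rw [single_mul_apply_of_ne _ _ _ _ _ hp]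
    by_cases hq : q = 7
    · subst hq
      rw [mul_single_apply_same, h1 p 0 (Or.inr (Or.inr ⟨by omega, by decide⟩)), zero_mul]
    · rw [mul_single_apply_of_ne _ _ _ _ _ hq]

end conc

theorem main : M2P := by
  intro R _ b hb hR Γ hΓ
  have mE : ∀ i j r (h : ok i j), E i j r h.1 ∈ Γ := fun i j r h => (hΓ _).2 (cond_E i j r h)
  have ok07 : ok 0 7 := by decide
  have hcen : ∀ (r : R) (g : Γ), (⟨E 0 7 r ok07.1, mE 0 7 r ok07⟩ : Γ) * g =
      g * ⟨E 0 7 r ok07.1, mE 0 7 r ok07⟩ := by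
    intro r g
    apply Subtype.ext
    exact E07_central g.1 ((hΓ _).1 g.2) r
  let ζ : Multiplicative ℤ →* Γ := MonoidHom.mk' (fun n => ⟨E 0 7 ((Multiplicative.toAdd n : ℤ) : R)
    ok07.1, mE 0 7 _ ok07⟩) (by
      intro m n
      apply Subtype.ext
      show E 0 7 _ ok07.1 = E 0 7 _ ok07.1 * E 0 7 _ ok07.1
      rw [E_add, toAdd_mul, Int.cast_add])
  have hζ : ∀ n : Multiplicative ℤ, ((ζ n : Γ) : SpecialLinearGroup (Fin 8) R) =
    E 0 7 ((Multiplicative.toAdd n : ℤ) : R) ok07.1 := fun n => rfl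
  have hinj : Function.Injective ζ := by
    intro m n hmn
    have h1 := congrArg (fun g : Γ => ((g : SpecialLinearGroup (Fin 8) R) :
      Matrix (Fin 8) (Fin 8) R) 0 7) hmn
    simp only [hζ, E_coe] at h1
    simp only [Matrix.add_apply, single_apply_same, add_right_inj] at h1
    have h2 : ((Multiplicative.toAdd m - Multiplicative.toAdd n : ℤ) : R) = 0 := by
      rw [Int.cast_sub, h1, sub_self]
    have h3 := hR _ h2
    exact Multiplicative.toAdd.injective (by omega)
  have hN : ζ.range.Normal := by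
    refine ⟨?_⟩
    rintro _ ⟨n, rfl⟩ g
    refine ⟨n, ?_⟩
    have h1 := hcen ((Multiplicative.toAdd n : ℤ) : R) g
    change ζ n * g = g * ζ n at h1
    rw [← h1, mul_inv_cancel_right]
  refine ⟨ζ.range, hN, ?_, ⟨(MonoidHom.ofInjective hinj).symm⟩, ?_⟩
  · rintro z ⟨n, rfl⟩ i j hij
    rw [hζ, E_coe, Matrix.add_apply, single_apply_of_ne, add_zero]
    rintro ⟨h1, h2⟩
    exact hij ⟨h1.symm, h2.symm⟩
  · let q : Γ →* Γ ⧸ ζ.range := QuotientGroup.mk' ζ.range
    let S : Sys R (Γ ⧸ ζ.range) b :=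
      { ε := fun i j r => if h : ok i j then q ⟨E i j r h.1, mE i j r h⟩ else 1
        D := q ⟨DD b hb, (hΓ _).2 (cond_DD b hb)⟩
        comm := by
          intro i j k l r s h1 h2 h3 h4
          rw [dif_pos h1, dif_pos h2]
          show q _ * q _ = q _ * q _
          rw [← map_mul, ← map_mul]
          congr 1
          apply Subtype.ext
          exact E_comm i j k l r s h1.1 h2.1 h3 h4
        mul := by
          intro i j k r s h1 h2 h3
          have h4 : ok i k := ⟨h1, h2.2.trans h3.2⟩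
          rw [dif_pos h2, dif_pos h3, dif_pos h4, ← map_mul, ← map_mul, ← map_mul]
          congr 1
          apply Subtype.ext
          exact E_mul i j k r s h2.1 h3.1 h1
        add := by
          intro i j r s
          by_cases h : ok i j
          · rw [dif_pos h, dif_pos h, dif_pos h, ← map_mul]
            congr 1
            apply Subtype.ext
            exact E_add i j r s h.1
          · rw [dif_neg h, dif_neg h, dif_neg h, mul_one]
        dg := by
          intro i j r r' h1 h2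
          rw [dif_pos h1, dif_pos h1, ← map_mul, ← map_mul]
          congr 1
          apply Subtype.ext
          exact DD_E b hb i j r r' h1.1 h2
        cen := by
          intro r g
          rw [dif_pos ok07]
          obtain ⟨g, rfl⟩ := QuotientGroup.mk'_surjective _ g
          show q _ * q g = q g * q _
          rw [← map_mul, ← map_mul, hcen]
        one := by
          rw [dif_pos ok07]
          show (QuotientGroup.mk _ : Γ ⧸ ζ.range) = 1
          rw [QuotientGroup.eq_one_iff]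
          refine ⟨Multiplicative.ofAdd 1, ?_⟩
          apply Subtype.ext
          rw [hζ]
          congr 1
          simp }
    refine ⟨S.mdl hb, ?_⟩
    intro hc
    have h1 : q ⟨E 0 7 b ok07.1, mE 0 7 b ok07⟩ = 1 := by
      have h2 : (S.mdl hb).c = q ⟨E 0 7 b ok07.1, mE 0 7 b ok07⟩ := by
        show (if h : ok 0 7 then q ⟨E 0 7 b h.1, mE 0 7 b h⟩ else 1) = _
        rw [dif_pos ok07]
      rw [← h2, hc]
    have h2 : (⟨E 0 7 b ok07.1, mE 0 7 b ok07⟩ : Γ) ∈ ζ.range :=
      (QuotientGroup.eq_one_iff _).1 h1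
    obtain ⟨n, hn⟩ := h2
    have h3 := congrArg (fun g : Γ => ((g : SpecialLinearGroup (Fin 8) R) :
      Matrix (Fin 8) (Fin 8) R) 0 7) hn
    simp only [hζ, E_coe] at h3
    simp only [Matrix.add_apply, single_apply_same, add_right_inj] at h3
    have h4 : ((2 * Multiplicative.toAdd n - 1 : ℤ) : R) = 0 := by
      push_cast
      rw [h3, hb, sub_self]
    have h5 := hR _ h4
    omega

end

end Pool.Agent.Helper702_TH.M2
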