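import Pool.Agent.Helper702_TH.Stm

/-!
# Project TH (helper702), part M3: the ring `ℤ[1/2]`
-/

set_option autoImplicit false
set_option maxHeartbeats 1000000

open Filter Topology Finset
open scoped Classical

namespace Pool.Agent.Helper702_TH.M3

open Helper418 Pool.Agent.helper987_SE Pool.Agent.Helper702_TH

noncomputable section

theorem main : M3P := by
  refine ⟨?_, ?_, ?_⟩
  · have hs : Function.Surjective (fun q : ℤ × Submonoid.powers ((2 : ℕ) : ℤ) =>
        IsLocalization.mk' (Localization.Away ((2 : ℕ) : ℤ)) q.1 q.2) := by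
      intro z
      obtain ⟨x, y, h⟩ := IsLocalization.exists_mk'_eq (Submonoid.powers ((2 : ℕ) : ℤ)) z
      exact ⟨(x, y), h⟩
    exact hs.countable
  · refine ⟨IsLocalization.Away.invSelf ((2 : ℕ) : ℤ), ?_⟩
    have := IsLocalization.Away.mul_invSelf (S := Localization.Away ((2 : ℕ) : ℤ)) ((2 : ℕ) : ℤ)
    simpa using this
  · intro n hn
    have hinj : Function.Injective
        (algebraMap ℤ (Localization.Away ((2 : ℕ) : ℤ))) := by
      apply IsLocalization.injective (M := Submonoid.powers ((2 : ℕ) : ℤ))
      exact powers_le_nonZeroDivisors_of_noZeroDivisors (by norm_num)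
    apply hinj
    rw [map_zero]
    simpa using hn

end

end Pool.Agent.Helper702_TH.M3
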