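import Pool.Agent.Helper702_TH.Stm

/-!
# Project TH (helper702), part PW (helper523): exact powers for the Kazhdan groups `P.T`
-/

set_option autoImplicit false
set_option maxHeartbeats 400000

open Filter Topology Finset

namespace Pool.Agent.Helper702_TH.PW

open Pool.Agent.helper987_SE Pool.Agent.Helper702_TH

theorem gens_finite {J G : Type} [Finite J] [Group G] (P : TRel J G) : P.gens.Finite := by
  have h : P.gens ⊆
      (Set.range fun q : Fin 3 × Fin 3 => P.e q.1 q.2) ∪ (Set.range P.x) ∪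
      (Set.range fun q : Fin 3 × J => P.y q.1 q.2) ∪ (Set.range P.z) := by
    rintro g (⟨k, l, -, rfl⟩ | ⟨k, rfl⟩ | ⟨k, j, rfl⟩ | ⟨j, rfl⟩)
    · exact Or.inl (Or.inl (Or.inl ⟨(k, l), rfl⟩))
    · exact Or.inl (Or.inl (Or.inr ⟨k, rfl⟩))
    · exact Or.inl (Or.inr ⟨(k, j), rfl⟩)
    · exact Or.inr ⟨j, rfl⟩
  exact ((((Set.finite_range _).union (Set.finite_range _)).union (Set.finite_range _)).union
    (Set.finite_range _)).subset h

theorem exists_gamma {J G : Type} [Finite J] [Group G] (P : TRel J G) :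
    ∃ (k : ℕ) (γ : FreeGroup (Fin k) →* P.T), Function.Surjective γ := by
  have h1 : Group.FG P.T := by
    rw [Group.fg_iff_subgroup_fg]
    obtain ⟨S, hS⟩ := (gens_finite P).exists_finset_coe
    exact ⟨S, by rw [hS]; rfl⟩
  obtain ⟨α, hα, φ, hφ⟩ := Group.fg_iff_exists_freeGroup_hom_surjective_finite.1 h1
  obtain ⟨n, ⟨e⟩⟩ := Finite.exists_equiv_fin α
  refine ⟨n, φ.comp (FreeGroup.freeGroupCongr e).symm.toMonoidHom, ?_⟩
  exact hφ.comp (FreeGroup.freeGroupCongr e).symm.surjective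

theorem main (hB : BP) (hT : TAP) : PWP := by
  intro A _ _ J G _ _ P α v hv hcen
  obtain ⟨k, γ, hγ⟩ := exists_gamma P
  have hT' : TPres P.T k γ := ⟨hT J G P, hγ⟩
  obtain ⟨r, hr1, hr2, hr3, hr4⟩ := hB P.T k γ hT' A (rst α P.T) ⟨v, hv⟩
    (fun t => Subtype.ext (hcen t.1 t.2))
  refine ⟨r, hr1, hr2, ?_, ?_⟩
  · intro m t ht
    exact hr3 m ⟨t, ht⟩
  · intro s hs m
    exact hr4 m s fun t => hs t.1 t.2

end Pool.Agent.Helper702_TH.PW
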