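import Pool.Agent.Helper702_TH.Defs

/-!
# Project TH (helper702): statements of the parts
Every part proves `theorem main ... : XxxP` in its own file.
-/

set_option autoImplicit false
set_option maxHeartbeats 400000

open Filter Topology Finset
open scoped Classical

namespace Pool.Agent.Helper702_TH

open Helper418 Pool.Agent.helper987_SE

noncomputable section

/-! ## Part V: the A₂ inequality for six projections -/

/-- The properties of the projections to the invariants of the six root subgroups. -/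
structure A2Proj {H : Type} [NormedAddCommGroup H] [InnerProductSpace ℂ H] [CompleteSpace H]
    (P : ZMod 6 → H →L[ℂ] H) : Prop where
  sa : ∀ i, IsStarProjection (P i)
  comm1 : ∀ i, P i * P (i + 1) = P (i + 1) * P i
  comm2 : ∀ i, P (i - 1) * P (i + 1) * P i = P (i + 1) * P (i - 1) * P i
  half : ∀ i w, P i w = 0 → ‖P (i + 1) (P (i - 1) w)‖ ^ 2 ≤ ‖w‖ ^ 2 / 2
  four : ∀ i w, ‖w - P i w‖ ≤ 4 * (‖w - P (i - 1) w‖ + ‖w - P (i + 1) w‖)

/-- the projection to the invariants of the Heisenberg group `G_i` -/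
def QQ {H : Type} [NormedAddCommGroup H] [InnerProductSpace ℂ H] [CompleteSpace H]
    (P : ZMod 6 → H →L[ℂ] H) (i : ZMod 6) : H →L[ℂ] H := P (i - 1) * P (i + 1) * P i

/-- the Laplace operator of the octahedral graph on `ℤ/6` -/
def Lap {H : Type} [NormedAddCommGroup H] [InnerProductSpace ℂ H]
    (g : ZMod 6 → H) (i : ZMod 6) : H :=
  (g i - g (i + 1)) + (g i - g (i - 1)) + (g i - g (i + 2)) + (g i - g (i - 2))

/-- V1: the vertex inequality. -/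
def V1P : Prop := ∀ (H : Type) [NormedAddCommGroup H] [InnerProductSpace ℂ H] [CompleteSpace H]
  (A B C : H →L[ℂ] H), IsStarProjection A → IsStarProjection B → IsStarProjection C →
  A * B = B * A → B * C = C * B → A * C * B = C * A * B →
  (∀ w, B w = 0 → ‖C (A w)‖ ^ 2 ≤ ‖w‖ ^ 2 / 2) →
  ∀ u u' v v' : H, B u = u → C u = u → C u' = u' → B v = v → A v = v → A v' = v' →
  ‖(u + v + u' + v') - (A * C * B) (u + v + u' + v')‖ ^ 2 ≤
    2 * (‖u - (A * C * B) u‖ ^ 2 + ‖v - (A * C * B) v‖ ^ 2 + ‖u' - (A * C * B) u'‖ ^ 2 +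
      ‖v' - (A * C * B) v'‖ ^ 2) - (1 / 4) * (‖u' - B u'‖ ^ 2 + ‖v' - B v'‖ ^ 2)

/-- V2: the compressed Laplace operator controls the Laplace operator. -/
def V2P : Prop := ∀ (H : Type) [NormedAddCommGroup H] [InnerProductSpace ℂ H] [CompleteSpace H]
  (P : ZMod 6 → H →L[ℂ] H), A2Proj P → ∀ g : ZMod 6 → H, (∀ i, QQ P i (g i) = g i) →
  ∑ i, ‖Lap g i‖ ^ 2 ≤ 505 * ∑ i, ‖QQ P i (Lap g i)‖ ^ 2

/-- V3: the A₂ inequality. -/
def V3P : Prop := ∀ (H : Type) [NormedAddCommGroup H] [InnerProductSpace ℂ H] [CompleteSpace H]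
  (P : ZMod 6 → H →L[ℂ] H), A2Proj P → ∀ v : H,
  (∀ w, (∀ i, P i w = w) → inner ℂ w v = 0) →
  ‖v‖ ^ 2 ≤ 10000 * ∑ i, ‖v - P i v‖ ^ 2

/-! ## Part U: projections to the invariants of unitaries -/

/-- the space of vectors fixed by `u` -/
def fix {H : Type} [NormedAddCommGroup H] [InnerProductSpace ℂ H] [CompleteSpace H]
    (u : unitary (H →L[ℂ] H)) : Submodule ℂ H :=
  LinearMap.ker (((u : H →L[ℂ] H) - 1 : H →L[ℂ] H) : H →ₗ[ℂ] H)

theorem fix_closed {H : Type} [NormedAddCommGroup H] [InnerProductSpace ℂ H] [CompleteSpace H]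
    (u : unitary (H →L[ℂ] H)) : IsClosed (fix u : Set H) :=
  ContinuousLinearMap.isClosed_ker ((u : H →L[ℂ] H) - 1)

instance {H : Type} [NormedAddCommGroup H] [InnerProductSpace ℂ H] [CompleteSpace H]
    (u : unitary (H →L[ℂ] H)) : CompleteSpace (fix u) :=
  (fix_closed u).completeSpace_coe

/-- the orthogonal projection to the vectors fixed by `u` -/
def Fx {H : Type} [NormedAddCommGroup H] [InnerProductSpace ℂ H] [CompleteSpace H]
    (u : unitary (H →L[ℂ] H)) : H →L[ℂ] H := (fix u).starProjection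

/-- U1: basic properties. -/
def U1P : Prop := ∀ (H : Type) [NormedAddCommGroup H] [InnerProductSpace ℂ H] [CompleteSpace H]
  (u : unitary (H →L[ℂ] H)), IsStarProjection (Fx u) ∧
  (∀ w, Fx u w = w ↔ (u : H →L[ℂ] H) w = w) ∧ Fx u⁻¹ = Fx u ∧
  (∀ u' : unitary (H →L[ℂ] H), Commute u u' →
    Fx u * (u' : H →L[ℂ] H) = (u' : H →L[ℂ] H) * Fx u ∧ Fx u * Fx u' = Fx u' * Fx u) ∧
  (∀ (v : H) (η : ℝ), (∀ a : ℤ, ‖((u ^ a : unitary (H →L[ℂ] H)) : H →L[ℂ] H) v - v‖ ≤ η) →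
    ‖v - Fx u v‖ ≤ η)

/-- U2: Heisenberg pairs (Lemma 12). -/
def U2P : Prop := ∀ (H : Type) [NormedAddCommGroup H] [InnerProductSpace ℂ H] [CompleteSpace H]
  (x y c : unitary (H →L[ℂ] H)), x * y = c * y * x → Commute c x → Commute c y →
  Fx x * Fx y * Fx c = Fx y * Fx x * Fx c ∧
  (∀ w, Fx c w = 0 → ‖Fx x (Fx y w)‖ ^ 2 ≤ ‖w‖ ^ 2 / 2) ∧
  (∀ w, ‖w - Fx c w‖ ≤ 4 * (‖w - Fx x w‖ + ‖w - Fx y w‖))

/-- U3: the A₂ theorem for unitaries. -/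
def U3P : Prop := ∀ (H : Type) [NormedAddCommGroup H] [InnerProductSpace ℂ H] [CompleteSpace H]
  (x : ZMod 6 → unitary (H →L[ℂ] H)), (∀ i, Commute (x i) (x (i + 1))) →
  (∀ i, x (i - 1) * x (i + 1) = x i * x (i + 1) * x (i - 1) ∨
    x (i - 1) * x (i + 1) = (x i)⁻¹ * x (i + 1) * x (i - 1)) →
  ∀ v : H, (∀ w, (∀ i, (x i : H →L[ℂ] H) w = w) → inner ℂ w v = 0) → ∀ η : ℝ, 0 ≤ η →
  (∀ i (a : ℤ), ‖((x i ^ a : unitary (H →L[ℂ] H)) : H →L[ℂ] H) v - v‖ ≤ η) → ‖v‖ ≤ 300 * η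

/-! ## Part T: property (T) -/

/-- Theorem A. -/
def TAP : Prop := ∀ (J G : Type) [Finite J] [Group G] (P : TRel J G),
  Pool.Agent.W661.RC.HasT P.T

/-- Existence of exact powers. -/
def PWP : Prop := ∀ (A : ℕ → Type) [∀ n, Fintype (A n)] [∀ n, Nonempty (A n)] (J G : Type)
  [Finite J] [Group G] (P : TRel J G) (α : G →* SS A), ∀ v ∈ P.T, (∀ t ∈ P.T, Commute v t) →
  ∃ r : (ℕ → ℤ) → SS A, Pw α P.T v r

/-! ## Part K: the kill -/

/-- K1: the exact stabiliser of a good point. -/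
def K1P : Prop := ∀ (P X : Type) [AddCommGroup P] [Fintype P] (ψ : P → Equiv.Perm X) (x : X),
  gdf ψ (AddMonoidHom.id P) x →
  ∃ S : AddSubgroup P, (∀ d, d ∈ S ↔ 4 * Fintype.card P ≤ 5 * cnt ψ x d) ∧
    (∀ d, d ∉ S → 5 * cnt ψ x d ≤ Fintype.card P) ∧
    ∀ d ∈ S, 10 * (univ.filter fun k : P => ψ (k + d) x ≠ ψ k (ψ d x)).card ≤ Fintype.card P →
      ψ d x = x

/-- K2: equivariance. -/
def K2P : Prop := ∀ (P X : Type) [AddCommGroup P] [Fintype P] (ψ : P → Equiv.Perm X)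
  (f : P →+ P) (g : Equiv.Perm X) (x : X), gdf ψ f x →
  100 * (univ.filter fun k : P => ψ k (g x) ≠ g (ψ (f k) x)).card ≤ Fintype.card P →
  ∀ d, |(cnt ψ (g x) d : ℝ) - cnt ψ x (f d)| ≤ Fintype.card P / 25

/-- K3: the measure argument. -/
def K3P : Prop := ∀ (A : ℕ → Type) [∀ n, Fintype (A n)] [∀ n, Nonempty (A n)]
  (a b c : ∀ n, A n → ℕ) (gt gs gd : ∀ n, Equiv.Perm (A n)),
  (∀ᶠ x in ae A, c x.1 x.2 ≤ max (a x.1 x.2) (b x.1 x.2) ∧
    a x.1 x.2 ≤ max (b x.1 x.2) (c x.1 x.2) ∧ b x.1 x.2 ≤ max (a x.1 x.2) (c x.1 x.2)) →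
  (∀ᶠ x in ae A, a x.1 (gt x.1 x.2) = c x.1 x.2 ∧ b x.1 (gt x.1 x.2) = b x.1 x.2) →
  (∀ᶠ x in ae A, a x.1 (gs x.1 x.2) = a x.1 x.2 ∧ b x.1 (gs x.1 x.2) = c x.1 x.2) →
  (∀ᶠ x in ae A, a x.1 (gd x.1 x.2) = a x.1 x.2 - 1 ∧ b x.1 (gd x.1 x.2) = b x.1 x.2) →
  ∀ᶠ x in ae A, a x.1 x.2 = 0

/-- KP: the kill. -/
def KP : Prop := ∀ (A : ℕ → Type) [∀ n, Fintype (A n)] [∀ n, Nonempty (A n)]
  (r s : (ℕ → ℤ) → SS A) (gt gs gd : SS A), IsI r → IsI s → (∀ l m, Commute (r l) (s m)) →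
  (∀ m, r m * gt = gt * (r m * s m)) → (∀ m, s m * gt = gt * s m) →
  (∀ m, r m * gs = gs * r m) → (∀ m, s m * gs = gs * (r m * s m)) →
  (∀ m, r m * gd = gd * r (2 * m)) → (∀ m, s m * gd = gd * s m) →
  ∃ o : ℕ → ℤ, (∀ n, Odd (o n)) ∧ r o = 1

/-! ## Part E: the configuration kills `c` -/

/-- The element `c` of a configuration dies in every `SS A`. -/
def MdlP : Prop := ∀ (A : ℕ → Type) [∀ n, Fintype (A n)] [∀ n, Nonempty (A n)] (G : Type)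
  [Group G] (M : Mdl G) (α : G →* SS A), α M.c = 1

/-! ## Part M: matrices -/

/-- M1: the group `Γ`. -/
def M1P : Prop := ∀ (R : Type) [CommRing R],
  ∃ Γ : Subgroup (Matrix.SpecialLinearGroup (Fin 8) R), ∀ g, g ∈ Γ ↔ Cond g.1

/-- M2: the configuration in `Γ/Z`. -/
def M2P : Prop := ∀ (R : Type) [CommRing R] (b : R), 2 * b = 1 →
  (∀ n : ℤ, (n : R) = 0 → n = 0) →
  ∀ Γ : Subgroup (Matrix.SpecialLinearGroup (Fin 8) R), (∀ g, g ∈ Γ ↔ Cond g.1) →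
  ∃ (Z : Subgroup Γ) (_ : Z.Normal),
    (∀ z ∈ Z, ∀ i j : Fin 8, ¬ (i = 0 ∧ j = 7) →
      (((z : Γ) : Matrix.SpecialLinearGroup (Fin 8) R) : Matrix (Fin 8) (Fin 8) R) i j =
        (1 : Matrix (Fin 8) (Fin 8) R) i j) ∧
    Nonempty (Z ≃* Multiplicative ℤ) ∧ ∃ M : Mdl (Γ ⧸ Z), M.c ≠ 1

/-- M3: the ring `ℤ[1/2]`. -/
def M3P : Prop := Countable (Localization.Away ((2 : ℕ) : ℤ)) ∧
  (∃ b : Localization.Away ((2 : ℕ) : ℤ), 2 * b = 1) ∧
  ∀ n : ℤ, (n : Localization.Away ((2 : ℕ) : ℤ)) = 0 → n = 0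

/-- The frozen statement S01232. -/
def FinP : Prop :=
    ¬ (∀ p : ℕ, p.Prime →
  ∀ Γ : Subgroup (Matrix.SpecialLinearGroup (Fin 8) (Localization.Away (p : ℤ))),
  (∀ g : Matrix.SpecialLinearGroup (Fin 8) (Localization.Away (p : ℤ)), g ∈ Γ ↔
     ((∀ i j : Fin 8,
        ((i.val = 7 ∧ j.val < 7) ∨ (4 ≤ i.val ∧ j.val < 4) ∨ (1 ≤ i.val ∧ j.val < 1)) →
          (g : Matrix (Fin 8) (Fin 8) (Localization.Away (p : ℤ))) i j = 0) ∧
      (g : Matrix (Fin 8) (Fin 8) (Localization.Away (p : ℤ))) 0 0 = 1 ∧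
      (g : Matrix (Fin 8) (Fin 8) (Localization.Away (p : ℤ))) 7 7 = 1 ∧
      (Matrix.of ![
        ![(g : Matrix (Fin 8) (Fin 8) (Localization.Away (p : ℤ))) 1 1,
          (g : Matrix (Fin 8) (Fin 8) (Localization.Away (p : ℤ))) 1 2,
          (g : Matrix (Fin 8) (Fin 8) (Localization.Away (p : ℤ))) 1 3],
        ![(g : Matrix (Fin 8) (Fin 8) (Localization.Away (p : ℤ))) 2 1,
          (g : Matrix (Fin 8) (Fin 8) (Localization.Away (p : ℤ))) 2 2,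
          (g : Matrix (Fin 8) (Fin 8) (Localization.Away (p : ℤ))) 2 3],
        ![(g : Matrix (Fin 8) (Fin 8) (Localization.Away (p : ℤ))) 3 1,
          (g : Matrix (Fin 8) (Fin 8) (Localization.Away (p : ℤ))) 3 2,
          (g : Matrix (Fin 8) (Fin 8) (Localization.Away (p : ℤ))) 3 3]]).det = 1)) →
  ∀ Z : Subgroup Γ,
  (∀ z ∈ Z, ∀ i j : Fin 8, ¬ (i = 0 ∧ j = 7) →
      (((z : Γ) : Matrix.SpecialLinearGroup (Fin 8) (Localization.Away (p : ℤ))) :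
        Matrix (Fin 8) (Fin 8) (Localization.Away (p : ℤ))) i j =
      (1 : Matrix (Fin 8) (Fin 8) (Localization.Away (p : ℤ))) i j) →
  Nonempty (Z ≃* Multiplicative ℤ) →
  ∀ [Z.Normal],
  ∀ F : Finset (Γ ⧸ Z), ∀ ε : ℝ, 0 < ε →
    ∃ n : ℕ, 1 ≤ n ∧ ∃ φ : Γ ⧸ Z → Equiv.Perm (Fin n),
      (∀ g ∈ F, ∀ h ∈ F,
        (1 - ε) * (n : ℝ) ≤
          ((Finset.univ.filter (fun x : Fin n => φ (g * h) x = (φ g * φ h) x)).card : ℝ)) ∧
      (∀ g ∈ F, g ≠ 1 →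
        ((Finset.univ.filter (fun x : Fin n => φ g x = x)).card : ℝ) ≤ ε * (n : ℝ)))

end

end Pool.Agent.Helper702_TH
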