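import Pool.Agent.Helper702_TH.Stm
import Pool.Agent.helper987_SE.C7d

/-!
# Project TH, part TA: Theorem A, property (T) of the groups `T`
-/

set_option autoImplicit false
set_option linter.unusedSectionVars false

namespace Pool.Agent.Helper702_TH.TA

open Submodule Filter Topology
open Pool.Agent.helper987_SE Pool.Agent.helper987_SE.C7

noncomputable section

/-- the relations of the groups `T` -/
structure TD3 (Γ : Type) [Group Γ] (J : Type) where
  s : Fin 3 → Fin 3 → Γ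
  x : Fin 3 → Γ
  y : Fin 3 → J → Γ
  w : J → Γ
  ss : ∀ p q r, p ≠ q → q ≠ r → p ≠ r → s p q * s q r = s p r * s q r * s p q
  ss_comm : ∀ p q r u, p ≠ q → r ≠ u → q ≠ r → p ≠ u → Commute (s p q) (s r u)
  xs : ∀ p q, p ≠ q → x p * s p q = x q * s p q * x p
  xs_comm : ∀ r p q, p ≠ q → r ≠ p → Commute (x r) (s p q)
  xx_comm : ∀ p q, Commute (x p) (x q)
  sy : ∀ p q b, p ≠ q → s p q * y q b = y p b * y q b * s p q
  sy_comm : ∀ p q r b, p ≠ q → r ≠ q → Commute (s p q) (y r b)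
  yy_comm : ∀ p b q c, Commute (y p b) (y q c)
  xy : ∀ p b, x p * y p b = w b * y p b * x p
  xy_comm : ∀ p q b, p ≠ q → Commute (x p) (y q b)
  w_cen : ∀ b g, Commute (w b) g
  gen : ∀ K : Subgroup Γ, (∀ p q, p ≠ q → s p q ∈ K) → (∀ p, x p ∈ K) →
    (∀ p b, y p b ∈ K) → (∀ b, w b ∈ K) → ∀ g, g ∈ K

section
variable {Γ : Type} [Group Γ] {J : Type} (d : TD3 Γ J)

/-- all the elements `s p q` -/
def Sa : Set Γ := {g | ∃ p q, p ≠ q ∧ g = d.s p q}

open scoped Classical in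
/-- the elements `x` -/
def Xa : Finset Γ := (Finset.univ : Finset (Fin 3)).image d.x

open scoped Classical in
/-- the elements `y` -/
def Ya [Fintype J] : Finset Γ := (Finset.univ : Finset (Fin 3 × J)).image fun i => d.y i.1 i.2

open scoped Classical in
/-- the elements `w` -/
def Wa [Fintype J] : Finset Γ := (Finset.univ : Finset J).image d.w

lemma mem_Xa {g : Γ} : g ∈ Xa d ↔ ∃ p, g = d.x p := by
  classical
  unfold Xa
  rw [Finset.mem_image]
  constructor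
  · rintro ⟨j, _, h⟩
    exact ⟨j, h.symm⟩
  · rintro ⟨j, h⟩
    exact ⟨j, Finset.mem_univ _, h.symm⟩

lemma mem_Ya [Fintype J] {g : Γ} : g ∈ Ya d ↔ ∃ p b, g = d.y p b := by
  classical
  unfold Ya
  rw [Finset.mem_image]
  constructor
  · rintro ⟨⟨i, j⟩, _, h⟩
    exact ⟨i, j, h.symm⟩
  · rintro ⟨i, j, h⟩
    exact ⟨(i, j), Finset.mem_univ _, h.symm⟩

lemma mem_Wa [Fintype J] {g : Γ} : g ∈ Wa d ↔ ∃ b, g = d.w b := by
  classical
  unfold Wa
  rw [Finset.mem_image]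
  constructor
  · rintro ⟨j, _, h⟩
    exact ⟨j, h.symm⟩
  · rintro ⟨j, h⟩
    exact ⟨j, Finset.mem_univ _, h.symm⟩

variable {H : Type} [NormedAddCommGroup H] [InnerProductSpace ℂ H]
  [CompleteSpace H] (π : Γ →* unitary (H →L[ℂ] H))

lemma third (p q : Fin 3) : ∃ r : Fin 3, r ≠ p ∧ r ≠ q := by
  revert p q; decide

section near
variable (c4 : C4P) (v : H) (hv : ‖v‖ = 1) (δ : ℝ) (hδ : 0 < δ) (hδ1 : δ ≤ 1)
  (hs : ∀ p q, ‖op π (d.s p q) v - v‖ ≤ δ ^ 2 / 1000)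
include c4 hv hδ hδ1 hs

lemma near_s (p q : Fin 3) (hpq : p ≠ q) : ‖v - Pr π {d.s p q} v‖ ≤ δ := by
  obtain ⟨r, hrp, hrq⟩ := third p q
  have c1 : Commute (d.s r q) (d.s p q) := d.ss_comm _ _ _ _ hrq hpq hpq.symm hrq
  have c2 : Commute (d.s q r) (d.s p r) := d.ss_comm _ _ _ _ hrq.symm hrp.symm hrp hrq.symm
  refine relT π c4 v hv δ hδ hδ1 (d.s p q) (d.s p r) (d.s r q)⁻¹ (d.s q r)⁻¹ ?_ ?_ ?_ ?_ ?_
    (hs _ _) (hs _ _) ?_ ?_
  · exact (d.ss_comm _ _ _ _ hpq hrp.symm hpq.symm hrp.symm).eq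
  · exact c1.inv_left.eq
  · exact inv_rel (d.ss p r q hrp.symm hrq hpq) c1
  · exact c2.inv_left.eq
  · exact inv_rel (d.ss p q r hpq hrq.symm hrp.symm) c2
  · rw [C7.norm_inv]; exact hs _ _
  · rw [C7.norm_inv]; exact hs _ _

lemma near_x (hx : ∀ p, ‖op π (d.x p) v - v‖ ≤ δ ^ 2 / 1000) (p : Fin 3) :
    ‖v - Pr π {d.x p} v‖ ≤ δ := by
  obtain ⟨q, hqp, -⟩ := third p p
  have c1 : Commute (d.s q p) (d.x p) := (d.xs_comm p q p hqp hqp.symm).symm
  have c2 : Commute (d.s p q) (d.x q) := (d.xs_comm q p q hqp.symm hqp).symm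
  refine relT π c4 v hv δ hδ hδ1 (d.x p) (d.x q) (d.s q p)⁻¹ (d.s p q)⁻¹ ?_ ?_ ?_ ?_ ?_
    (hx _) (hx _) ?_ ?_
  · exact (d.xx_comm _ _).eq
  · exact c1.inv_left.eq
  · exact inv_rel (d.xs q p hqp) c1
  · exact c2.inv_left.eq
  · exact inv_rel (d.xs p q hqp.symm) c2
  · rw [C7.norm_inv]; exact hs _ _
  · rw [C7.norm_inv]; exact hs _ _

lemma near_y (hy : ∀ p b, ‖op π (d.y p b) v - v‖ ≤ δ ^ 2 / 1000) (p : Fin 3) (b : J) :
    ‖v - Pr π {d.y p b} v‖ ≤ δ := by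
  obtain ⟨q, hqp, -⟩ := third p p
  refine relT π c4 v hv δ hδ hδ1 (d.y p b) (d.y q b) (d.s p q) (d.s q p) ?_ ?_ ?_ ?_ ?_
    (hy _ _) (hy _ _) (hs _ _) (hs _ _)
  · exact (d.yy_comm _ _ _ _).eq
  · exact (d.sy_comm p q p b hqp.symm hqp.symm).eq
  · exact d.sy p q b hqp.symm
  · exact (d.sy_comm q p q b hqp hqp).eq
  · exact d.sy q p b hqp

end near

/-- row indices in cyclic order -/
def ra : ZMod 6 → Fin 3 := (![0, 0, 1, 1, 2, 2] : Fin 6 → Fin 3)
/-- column indices in cyclic order -/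
def rb : ZMod 6 → Fin 3 := (![1, 2, 2, 0, 0, 1] : Fin 6 → Fin 3)

lemma ra_ne (i : ZMod 6) : ra i ≠ rb i := by
  revert i; decide

lemma rel1 {a b c : Γ} (h : b * a = c * a * b) : a * b = c⁻¹ * b * a := by
  rw [mul_assoc, h]; group

/-- the zpowers fix the projection -/
lemma zpow_fix (g : Γ) (w : H) (h : op π g w = w) (a : ℤ) : op π (g ^ a) w = w :=
  Fx_closure π (A := {g}) (by
    intro x hx
    rw [Set.mem_singleton_iff.1 hx]; exact h)
    (Subgroup.zpow_mem _ (Subgroup.subset_closure (Set.mem_singleton g)) a)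

/-- step (b) -/
lemma near_S (u3 : U3P) (v : H) (δ : ℝ) (hδ : 0 < δ)
    (h : ∀ p q, p ≠ q → ‖v - Pr π {d.s p q} v‖ ≤ δ) : ‖v - Pr π (Sa d) v‖ ≤ 600 * δ := by
  set w := v - Pr π (Sa d) v with hw
  have key := u3 H (fun i : ZMod 6 => π (d.s (ra i) (rb i))) ?_ ?_ w ?_ (2 * δ) (by positivity) ?_
  · linarith
  · intro i
    have : Commute (d.s (ra i) (rb i)) (d.s (ra (i + 1)) (rb (i + 1))) := by
      have h4 : ∀ i : ZMod 6, rb i ≠ ra (i + 1) ∧ ra i ≠ rb (i + 1) := by decide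
      exact d.ss_comm _ _ _ _ (ra_ne i) (ra_ne (i + 1)) (h4 i).1 (h4 i).2
    exact this.map π
  · have hr : ∀ i : ZMod 6, d.s (ra (i - 1)) (rb (i - 1)) * d.s (ra (i + 1)) (rb (i + 1)) =
        d.s (ra i) (rb i) * d.s (ra (i + 1)) (rb (i + 1)) * d.s (ra (i - 1)) (rb (i - 1)) ∨
        d.s (ra (i - 1)) (rb (i - 1)) * d.s (ra (i + 1)) (rb (i + 1)) =
        (d.s (ra i) (rb i))⁻¹ * d.s (ra (i + 1)) (rb (i + 1)) * d.s (ra (i - 1)) (rb (i - 1)) := by
      intro i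
      have h5 : ∀ i : ZMod 6, (rb (i - 1) = ra (i + 1) ∧ ra (i - 1) = ra i ∧ rb (i + 1) = rb i) ∨
        (rb (i + 1) = ra (i - 1) ∧ ra (i + 1) = ra i ∧ rb (i - 1) = rb i) := by decide
      rcases h5 i with ⟨h1, h2, h3⟩ | ⟨h1, h2, h3⟩
      · left
        have n1 := ra_ne (i - 1)
        have n2 := ra_ne (i + 1)
        have n3 := ra_ne i
        rw [h1, h2] at n1 ⊢
        rw [h3] at n2 ⊢
        exact d.ss _ _ _ n1 n2 n3
      · right
        have n1 := ra_ne (i - 1)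
        have n2 := ra_ne (i + 1)
        have n3 := ra_ne i
        rw [h1, h2] at n2 ⊢
        rw [h3] at n1 ⊢
        exact rel1 (d.ss _ _ _ n2 n1 n3)
    intro i
    rcases hr i with h1 | h1
    · left
      have := congrArg π h1
      rw [map_mul, map_mul, map_mul] at this
      exact this
    · right
      have := congrArg π h1
      rw [map_mul, map_mul, map_mul, map_inv] at this
      exact this
  · intro u hu
    have hmem : u ∈ C7.Fx π (Sa d) := by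
      rintro g ⟨p, q, hpq, rfl⟩
      have h6 : ∀ p q : Fin 3, p ≠ q → ∃ i : ZMod 6, ra i = p ∧ rb i = q := by decide
      obtain ⟨i, h1, h2⟩ := h6 p q hpq
      have := hu i
      simp only [h1, h2] at this
      exact this
    rw [inner_eq_zero_symm]
    exact starProjection_inner_eq_zero _ _ hmem
  · intro i a
    have h1 := h _ _ (ra_ne i)
    set g := d.s (ra i) (rb i) with hg
    have h2 : op π (g ^ a) (Pr π {g} v) = Pr π {g} v := zpow_fix π g _ (op_Pr_single π g v) a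
    have h3 : op π (g ^ a) (Pr π (Sa d) v) = Pr π (Sa d) v :=
      zpow_fix π g _ (Pr_mem π (Sa d) v g ⟨_, _, ra_ne i, rfl⟩) a
    have h4 : (((π g) ^ a : unitary (H →L[ℂ] H)) : H →L[ℂ] H) = op π (g ^ a) := by
      rw [← map_zpow]; rfl
    show ‖(((π g) ^ a : unitary (H →L[ℂ] H)) : H →L[ℂ] H) w - w‖ ≤ 2 * δ
    rw [h4]
    have h5 : op π (g ^ a) w - w = op π (g ^ a) (v - Pr π {g} v) - (v - Pr π {g} v) := by
      rw [hw, map_sub, map_sub, h2, h3]; abel
    rw [h5]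
    refine (norm_sub_le _ _).trans ?_
    rw [norm_op]
    linarith

end

section
variable {Γ : Type} [Group Γ] {J : Type} [Fintype J] (d : TD3 Γ J)
variable {H : Type} [NormedAddCommGroup H] [InnerProductSpace ℂ H]
  [CompleteSpace H] (π : Γ →* unitary (H →L[ℂ] H))

lemma norm_X (p q : Fin 3) (hpq : p ≠ q) (g : Γ) (hg : g ∈ (Xa d : Set Γ)) :
    (d.s p q)⁻¹ * g * d.s p q ∈ Subgroup.closure (Xa d : Set Γ) ∧
      d.s p q * g * (d.s p q)⁻¹ ∈ Subgroup.closure (Xa d : Set Γ) := by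
  obtain ⟨r, rfl⟩ := (mem_Xa d).1 hg
  have hm : ∀ r, d.x r ∈ Subgroup.closure (Xa d : Set Γ) := fun r =>
    Subgroup.subset_closure ((mem_Xa d).2 ⟨r, rfl⟩)
  by_cases hr : r = p
  · subst hr
    rw [cj1 (d.xs r q hpq) (d.xs_comm q r q hpq hpq.symm), cj2 (d.xs r q hpq)]
    exact ⟨mul_mem (hm _) (hm _), mul_mem (inv_mem (hm _)) (hm _)⟩
  · exact cj_com (hm r) (d.xs_comm r p q hpq hr).symm

lemma norm_Y (p q : Fin 3) (hpq : p ≠ q) (g : Γ) (hg : g ∈ (Ya d : Set Γ)) :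
    (d.s p q)⁻¹ * g * d.s p q ∈ Subgroup.closure (Ya d : Set Γ) ∧
      d.s p q * g * (d.s p q)⁻¹ ∈ Subgroup.closure (Ya d : Set Γ) := by
  obtain ⟨r, b, rfl⟩ := (mem_Ya d).1 hg
  have hm : ∀ r, d.y r b ∈ Subgroup.closure (Ya d : Set Γ) := fun r =>
    Subgroup.subset_closure ((mem_Ya d).2 ⟨r, b, rfl⟩)
  by_cases hr : r = q
  · subst hr
    rw [cj3 (d.sy p r b hpq), cj4 (d.sy p r b hpq) (d.sy_comm p r p b hpq hpq)]
    exact ⟨mul_mem (inv_mem (hm _)) (hm _), mul_mem (hm _) (hm _)⟩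
  · exact cj_com (hm r) (d.sy_comm p q r b hpq hr)

lemma comm_SX (v : H) : Pr π (Sa d) (Pr π (Xa d : Set Γ) v) = Pr π (Xa d : Set Γ) (Pr π (Sa d) v) := by
  apply Pr_comm_Pr
  rintro g ⟨p, q, hpq, rfl⟩ v
  exact Pr_comm_op_of_norm π (fun a ha => (norm_X d p q hpq a ha).1)
    (fun a ha => (norm_X d p q hpq a ha).2) v

lemma comm_SY (v : H) : Pr π (Sa d) (Pr π (Ya d : Set Γ) v) = Pr π (Ya d : Set Γ) (Pr π (Sa d) v) := by
  apply Pr_comm_Pr
  rintro g ⟨p, q, hpq, rfl⟩ v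
  exact Pr_comm_op_of_norm π (fun a ha => (norm_Y d p q hpq a ha).1)
    (fun a ha => (norm_Y d p q hpq a ha).2) v

lemma W_cen (g h : Γ) (hg : g ∈ (Wa d : Set Γ)) : Commute g h := by
  obtain ⟨b, rfl⟩ := (mem_Wa d).1 hg
  exact d.w_cen b h

lemma comm_W (E : Set Γ) (v : H) :
    Pr π E (Pr π (Wa d : Set Γ) v) = Pr π (Wa d : Set Γ) (Pr π E v) :=
  Pr_comm_Pr_of_commute π (fun a _ b hb => (W_cen d b a hb).symm) v

lemma XY_rel (g : Γ) (hg : g ∈ (Xa d : Set Γ)) (h : Γ) (hh : h ∈ (Ya d : Set Γ)) :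
    ∃ z ∈ Subgroup.closure (Wa d : Set Γ), g * h = z * h * g := by
  obtain ⟨p, rfl⟩ := (mem_Xa d).1 hg
  obtain ⟨q, b, rfl⟩ := (mem_Ya d).1 hh
  by_cases hpq : p = q
  · subst hpq
    exact ⟨d.w b, Subgroup.subset_closure ((mem_Wa d).2 ⟨b, rfl⟩), d.xy p b⟩
  · exact ⟨1, one_mem _, by rw [one_mul]; exact (d.xy_comm p q b hpq).eq⟩

/-- the estimate on the complement of the fixed vectors of the centre -/
lemma near_W (v : H) (e : ℝ) (hx : ‖v - Pr π (Xa d : Set Γ) v‖ ≤ e)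
    (hy : ‖v - Pr π (Ya d : Set Γ) v‖ ≤ e) : ‖v - Pr π (Wa d : Set Γ) v‖ ≤ 8 * e := by
  set PX := Pr π (Xa d : Set Γ) with hPX
  set PY := Pr π (Ya d : Set Γ) with hPY
  set PW := Pr π (Wa d : Set Γ) with hPW
  have hWc : ∀ (E : Set Γ) (v : H), Pr π E (PW v) = PW (Pr π E v) := fun E v => comm_W d π E v
  have hker := ker_ind π (Wa d) (fun a ha b _ => W_cen d a b ha) (fun v => PX (PY v))
    (by intro v w; simp only [map_add])
    (by
      intro c hc v
      have h1 : ∀ (E : Set Γ) (v : H), Pr π {c} (Pr π E v) = Pr π E (Pr π {c} v) := by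
        intro E
        apply Pr_comm_Pr_of_commute
        intro a ha b hb
        rw [Set.mem_singleton_iff.1 ha]; exact W_cen d c b hc
      show Pr π {c} (PX (PY v)) = PX (PY (Pr π {c} v))
      rw [hPX, hPY, h1, h1]) (3 / 4) (by norm_num)
    (by
      intro c hc f hf
      obtain ⟨b, rfl⟩ := (mem_Wa d).1 hc
      refine pair_one π (A := (Xa d : Set Γ)) (B := (Ya d : Set Γ)) (x := d.x 0)
        (y := d.y 0 b) ((mem_Xa d).2 ⟨_, rfl⟩) ((mem_Ya d).2 ⟨_, b, rfl⟩)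
        (d.xy 0 b) (d.w_cen _ _) (fun g _ => d.w_cen _ g) f hf)
  set w := v - PW v with hw
  have hPWw : PW w = 0 := by rw [hw, map_sub, Pr_Pr, sub_self]
  have h1 : ‖PX (PY w)‖ ≤ 3 / 4 * ‖w‖ := hker w hPWw
  have h2 : ‖v - PX (PY v)‖ ≤ 2 * e := by
    have : v - PX (PY v) = (v - PX v) + PX (v - PY v) := by rw [map_sub]; abel
    rw [this]
    refine (norm_add_le _ _).trans ?_
    have := (norm_Pr π (Xa d : Set Γ) (v - PY v)).trans hy
    linarith
  have h3 : w - PX (PY w) = (v - PX (PY v)) - PW (v - PX (PY v)) := by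
    rw [hw, map_sub, map_sub, map_sub, hWc, hWc]; abel
  have h4 : ‖w - PX (PY w)‖ ≤ 2 * e := by
    rw [h3]
    exact (norm_sub_Pr π _ _).trans h2
  have h5 : ‖w‖ ≤ ‖w - PX (PY w)‖ + ‖PX (PY w)‖ := by
    have := norm_add_le (w - PX (PY w)) (PX (PY w))
    rwa [sub_add_cancel] at this
  linarith

include d in
theorem abstr (c4 : C4P) (u3 : U3P) : Pool.Agent.W661.RC.HasT Γ := by
  classical
  intro H _ _ _ π hπ
  set N : ℝ := ((Xa d).card : ℝ) + (Ya d).card + 1 with hN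
  have hX0 : (0 : ℝ) ≤ (Xa d).card := Nat.cast_nonneg _
  have hY0 : (0 : ℝ) ≤ (Ya d).card := Nat.cast_nonneg _
  have hN9 : 1 ≤ N := by linarith
  have hNX : ((Xa d).card : ℝ) ≤ N := by linarith
  have hNY : ((Ya d).card : ℝ) ≤ N := by linarith
  set δ : ℝ := 1 / (1000 * N) with hδdef
  have hδ : 0 < δ := by positivity
  have hδN : N * δ = 1 / 1000 := by
    rw [hδdef]; field_simp
  have hδ1 : δ ≤ 1 := by nlinarith
  have hη : 0 < δ ^ 2 / 1000 := by positivity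
  obtain ⟨v, hv, hK⟩ := hπ (((Finset.univ : Finset (Fin 3 × Fin 3)).image fun i => d.s i.1 i.2) ∪
    Xa d ∪ Ya d) (δ ^ 2 / 1000) hη
  have ks : ∀ p q, ‖op π (d.s p q) v - v‖ ≤ δ ^ 2 / 1000 := by
    intro p q
    refine (hK _ ?_).le
    simp only [Finset.mem_union]
    left; left
    exact Finset.mem_image.2 ⟨(p, q), Finset.mem_univ _, rfl⟩
  have kx : ∀ p, ‖op π (d.x p) v - v‖ ≤ δ ^ 2 / 1000 := by
    intro p
    refine (hK _ ?_).le
    simp only [Finset.mem_union]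
    left; right
    exact (mem_Xa d).2 ⟨p, rfl⟩
  have ky : ∀ p b, ‖op π (d.y p b) v - v‖ ≤ δ ^ 2 / 1000 := by
    intro p b
    refine (hK _ ?_).le
    simp only [Finset.mem_union]
    right
    exact (mem_Ya d).2 ⟨p, b, rfl⟩
  have ns := near_s d π c4 v hv δ hδ hδ1 ks
  have nx := near_x d π c4 v hv δ hδ hδ1 ks kx
  have ny := near_y d π c4 v hv δ hδ hδ1 ks ky
  have hS := near_S d π u3 v δ hδ ns
  set PS := Pr π (Sa d) with hPS
  set PX := Pr π (Xa d : Set Γ) with hPX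
  set PY := Pr π (Ya d : Set Γ) with hPY
  set PW := Pr π (Wa d : Set Γ) with hPW
  have hS' : ‖v - PS v‖ ≤ 600 * (N * δ) := hS.trans (by nlinarith)
  have hX : ‖v - PX v‖ ≤ N * δ := by
    refine (near_finset π (Xa d) ?_ v δ ?_).trans (mul_le_mul_of_nonneg_right hNX hδ.le)
    · intro g hg h hh
      obtain ⟨p, rfl⟩ := (mem_Xa d).1 hg
      obtain ⟨p', rfl⟩ := (mem_Xa d).1 hh
      exact d.xx_comm _ _
    · intro g hg
      obtain ⟨p, rfl⟩ := (mem_Xa d).1 hg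
      exact nx p
  have hY : ‖v - PY v‖ ≤ N * δ := by
    refine (near_finset π (Ya d) ?_ v δ ?_).trans (mul_le_mul_of_nonneg_right hNY hδ.le)
    · intro g hg h hh
      obtain ⟨a, p, rfl⟩ := (mem_Ya d).1 hg
      obtain ⟨a', p', rfl⟩ := (mem_Ya d).1 hh
      exact d.yy_comm _ _ _ _
    · intro g hg
      obtain ⟨a, p, rfl⟩ := (mem_Ya d).1 hg
      exact ny a p
  have hW : ‖v - PW v‖ ≤ 8 * (N * δ) := near_W d π v (N * δ) hX hY
  -- the vector `u`
  set u := PS (PX (PY (PW v))) with hu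
  have hWc : ∀ (E : Set Γ) (v : H), Pr π E (PW v) = PW (Pr π E v) := fun E v => comm_W d π E v
  have hSX : ∀ v, PS (PX v) = PX (PS v) := comm_SX d π
  have hSY : ∀ v, PS (PY v) = PY (PS v) := comm_SY d π
  have hXY : PX (PY (PW v)) = PY (PX (PW v)) :=
    comm_on π (A := (Xa d : Set Γ)) (B := (Ya d : Set Γ)) (Z := (Wa d : Set Γ))
      (fun a _ z hz => (W_cen d z a hz).symm) (fun a _ z hz => (W_cen d z a hz).symm)
      (fun a ha b hb => XY_rel d a ha b hb) (PW v) (Pr_mem π _ v)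
  have uS : u ∈ C7.Fx π (Sa d) := Pr_mem π _ _
  have uX : u ∈ C7.Fx π (Xa d : Set Γ) := by
    rw [hu, hSX]; exact Pr_mem π _ _
  have uY : u ∈ C7.Fx π (Ya d : Set Γ) := by
    rw [hu, hXY, hSY]; exact Pr_mem π _ _
  have uW : u ∈ C7.Fx π (Wa d : Set Γ) := by
    rw [hu, hPY, hWc, hPX, hWc, hPS, hWc]; exact Pr_mem π _ _
  have huv : ‖v - u‖ ≤ 610 * (N * δ) := by
    have e1 : v - u = (v - PS v) + PS (v - PX v) + PS (PX (v - PY v)) + PS (PX (PY (v - PW v))) := by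
      rw [hu]; simp only [map_sub]; abel
    rw [e1]
    have n1 : ‖PS (v - PX v)‖ ≤ N * δ := (norm_Pr π _ _).trans hX
    have n2 : ‖PS (PX (v - PY v))‖ ≤ N * δ := (norm_Pr π _ _).trans ((norm_Pr π _ _).trans hY)
    have n3 : ‖PS (PX (PY (v - PW v)))‖ ≤ 8 * (N * δ) :=
      (norm_Pr π _ _).trans ((norm_Pr π _ _).trans ((norm_Pr π _ _).trans hW))
    have m1 := norm_add_le ((v - PS v) + PS (v - PX v) + PS (PX (v - PY v))) (PS (PX (PY (v - PW v))))
    have m2 := norm_add_le ((v - PS v) + PS (v - PX v)) (PS (PX (v - PY v)))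
    have m3 := norm_add_le (v - PS v) (PS (v - PX v))
    linarith
  rw [hδN] at huv
  refine ⟨u, ?_, ?_⟩
  · intro h0
    rw [h0, sub_zero, hv] at huv
    norm_num at huv
  · let K : Subgroup Γ :=
      { carrier := {g | op π g u = u}
        mul_mem' := by
          intro a b ha hb
          show op π (a * b) u = u
          rw [op_mul, hb, ha]
        one_mem' := op_one π u
        inv_mem' := by
          intro a ha
          exact fx_inv π ha }
    intro g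
    refine d.gen K ?_ ?_ ?_ ?_ g
    · intro p q hpq
      exact uS _ ⟨p, q, hpq, rfl⟩
    · intro p
      exact uX _ ((mem_Xa d).2 ⟨p, rfl⟩)
    · intro p b
      exact uY _ ((mem_Ya d).2 ⟨p, b, rfl⟩)
    · intro b
      exact uW _ ((mem_Wa d).2 ⟨b, rfl⟩)

end

section
variable {J G : Type} [Group G] (P : TRel J G)

lemma mem_e {k l : Fin 3} (h : k ≠ l) : P.e k l ∈ P.T :=
  Subgroup.subset_closure (Or.inl ⟨k, l, h, rfl⟩)

lemma mem_x (k : Fin 3) : P.x k ∈ P.T :=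
  Subgroup.subset_closure (Or.inr (Or.inl ⟨k, rfl⟩))

lemma mem_y (k : Fin 3) (j : J) : P.y k j ∈ P.T :=
  Subgroup.subset_closure (Or.inr (Or.inr (Or.inl ⟨k, j, rfl⟩)))

lemma mem_z (j : J) : P.z j ∈ P.T :=
  Subgroup.subset_closure (Or.inr (Or.inr (Or.inr ⟨j, rfl⟩)))

lemma z_cen (j : J) : ∀ g ∈ P.T, Commute (P.z j) g := by
  intro g hg
  have hle : P.T ≤ Subgroup.centralizer {P.z j} := by
    refine (Subgroup.closure_le _).2 ?_
    intro g hg
    rw [SetLike.mem_coe, Subgroup.mem_centralizer_iff]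
    intro y hy
    rw [Set.mem_singleton_iff.1 hy]
    rcases hg with ⟨k, l, h, rfl⟩ | ⟨k, rfl⟩ | ⟨k, i, rfl⟩ | ⟨i, rfl⟩
    · exact (P.ze j k l h).eq
    · exact (P.zx j k).eq
    · exact (P.zy j k i).eq
    · exact (P.zz j i).eq
  have := hle hg
  rw [Subgroup.mem_centralizer_iff] at this
  exact this _ rfl

/-- the elements `e k l` -/
def sE (p q : Fin 3) : P.T := if h : p ≠ q then ⟨P.e p q, mem_e P h⟩ else 1

lemma sE_coe {p q : Fin 3} (h : p ≠ q) : ((sE P p q : P.T) : G) = P.e p q := by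
  unfold sE
  rw [dif_pos h]

/-- the abstract data -/
def td : TD3 P.T J where
  s := sE P
  x := fun k => ⟨P.x k, mem_x P k⟩
  y := fun k j => ⟨P.y k j, mem_y P k j⟩
  w := fun j => ⟨P.z j, mem_z P j⟩
  ss := by
    intro p q r hpq hqr hpr
    apply Subtype.ext
    simp only [Subgroup.coe_mul, sE_coe P hpq, sE_coe P hqr, sE_coe P hpr]
    exact P.ee p q r hpq hqr hpr
  ss_comm := by
    intro p q r u hpq hru hqr hpu
    apply Subtype.ext
    simp only [Subgroup.coe_mul, sE_coe P hpq, sE_coe P hru]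
    exact (P.ee_comm _ _ _ _ hpq hru hqr hpu).eq
  xs := by
    intro p q hpq
    apply Subtype.ext
    simp only [Subgroup.coe_mul, sE_coe P hpq]
    exact P.xe p q hpq
  xs_comm := by
    intro r p q hpq hrp
    apply Subtype.ext
    simp only [Subgroup.coe_mul, sE_coe P hpq]
    exact (P.xe_comm r p q hpq hrp).eq
  xx_comm := by
    intro p q
    apply Subtype.ext
    exact (P.xx p q).eq
  sy := by
    intro p q b hpq
    apply Subtype.ext
    simp only [Subgroup.coe_mul, sE_coe P hpq]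
    exact P.ey p q b hpq
  sy_comm := by
    intro p q r b hpq hrq
    apply Subtype.ext
    simp only [Subgroup.coe_mul, sE_coe P hpq]
    exact (P.ey_comm p q r b hpq hrq.symm).eq
  yy_comm := by
    intro p b q c
    apply Subtype.ext
    exact (P.yy p q b c).eq
  xy := by
    intro p b
    apply Subtype.ext
    exact P.xy p b
  xy_comm := by
    intro p q b hpq
    apply Subtype.ext
    exact (P.xy_comm p q b hpq).eq
  w_cen := by
    intro b g
    apply Subtype.ext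
    exact (z_cen P b g g.2).eq
  gen := by
    intro L hs hx hy hw g
    have hle : P.T ≤ L.map P.T.subtype := by
      refine (Subgroup.closure_le _).2 ?_
      rintro g (⟨k, l, h, rfl⟩ | ⟨k, rfl⟩ | ⟨k, i, rfl⟩ | ⟨i, rfl⟩)
      · exact ⟨_, hs _ _ h, sE_coe P h⟩
      · exact ⟨_, hx k, rfl⟩
      · exact ⟨_, hy k i, rfl⟩
      · exact ⟨_, hw i, rfl⟩
    obtain ⟨x, hx1, hx2⟩ := hle g.2
    have : x = g := Subtype.ext hx2
    rw [← this]
    exact hx1

end

theorem main (c4 : C4P) (_u1 : U1P) (_u2 : U2P) (u3 : U3P) : TAP := by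
  intro J G hJ _ P
  have : Fintype J := Fintype.ofFinite J
  exact abstr (td P) c4 u3

end

end Pool.Agent.Helper702_TH.TA
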