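import Pool.Agent.Helper702_TH.Stm
import Pool.Agent.helper987_SE.C7b

/-!
# Project TH, part U1: projections to the vectors fixed by a unitary
-/

set_option autoImplicit false

namespace Pool.Agent.Helper702_TH.U1

open Submodule Filter Topology
open Pool.Agent.helper987_SE

noncomputable section

variable {H : Type} [NormedAddCommGroup H] [InnerProductSpace ℂ H] [CompleteSpace H]

/-- the identity representation -/
abbrev I : unitary (H →L[ℂ] H) →* unitary (H →L[ℂ] H) := MonoidHom.id _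

lemma fix_eq (u : unitary (H →L[ℂ] H)) : fix u = C7.Fx I {u} := by
  ext w
  rw [C7.mem_Fx]
  simp only [Set.mem_singleton_iff, forall_eq]
  show ((u : H →L[ℂ] H) - 1) w = 0 ↔ (u : H →L[ℂ] H) w = w
  rw [_root_.sub_apply, one_apply_eq_self, sub_eq_zero]

omit [CompleteSpace H] in
lemma star_congr {S T : Submodule ℂ H} [S.HasOrthogonalProjection] [T.HasOrthogonalProjection]
    (h : S = T) : S.starProjection = T.starProjection := by
  subst h; rfl

/-- the two notations for the projection -/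
lemma Fx_eq (u : unitary (H →L[ℂ] H)) : Fx u = C7.Pr I {u} := star_congr (fix_eq u)

lemma op_eq (u : unitary (H →L[ℂ] H)) : C7.op I u = (u : H →L[ℂ] H) := rfl

lemma Fx_fix (u : unitary (H →L[ℂ] H)) (w : H) : Fx u w = w ↔ (u : H →L[ℂ] H) w = w := by
  rw [Fx_eq, C7.Pr_eq, C7.mem_Fx]
  simp only [Set.mem_singleton_iff, forall_eq]
  rfl

lemma fix_inv (u : unitary (H →L[ℂ] H)) : fix u⁻¹ = fix u := by
  rw [fix_eq, fix_eq]
  ext w
  rw [C7.mem_Fx, C7.mem_Fx]
  simp only [Set.mem_singleton_iff, forall_eq]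
  constructor
  · intro h
    have := C7.fx_inv I h
    rwa [inv_inv] at this
  · intro h
    exact C7.fx_inv I h

lemma Fx_inv (u : unitary (H →L[ℂ] H)) : Fx u⁻¹ = Fx u := star_congr (fix_inv u)

lemma Fx_op {u u' : unitary (H →L[ℂ] H)} (h : Commute u u') (v : H) :
    Fx u ((u' : H →L[ℂ] H) v) = (u' : H →L[ℂ] H) (Fx u v) := by
  rw [Fx_eq]
  exact C7.Pr_comm_op_of_commute I (g := u') (A := {u}) (by
    intro a ha
    rw [Set.mem_singleton_iff.1 ha]
    exact h.symm) v

lemma Fx_Fx {u u' : unitary (H →L[ℂ] H)} (h : Commute u u') (v : H) :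
    Fx u (Fx u' v) = Fx u' (Fx u v) := by
  rw [Fx_eq, Fx_eq]
  exact C7.Pr_comm_Pr_of_commute I (A := {u}) (B := {u'}) (by
    intro a ha b hb
    rw [Set.mem_singleton_iff.1 ha, Set.mem_singleton_iff.1 hb]
    exact h) v

lemma near (u : unitary (H →L[ℂ] H)) (v : H) (η : ℝ)
    (h : ∀ a : ℤ, ‖((u ^ a : unitary (H →L[ℂ] H)) : H →L[ℂ] H) v - v‖ ≤ η) :
    ‖v - Fx u v‖ ≤ η := by
  rw [Fx_eq]
  refine C7.near_single I u v η fun n => ?_
  have := h n
  rw [zpow_natCast] at this
  exact this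

theorem main : U1P := by
  intro H _ _ _ u
  refine ⟨isStarProjection_starProjection, Fx_fix u, Fx_inv u, ?_, near u⟩
  intro u' h
  exact ⟨ContinuousLinearMap.ext fun v => Fx_op h v, ContinuousLinearMap.ext fun v => Fx_Fx h v⟩

end

end Pool.Agent.Helper702_TH.U1
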