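import Pool.Agent.Helper702_TH.U1

/-!
# Project TH, part U2: Heisenberg pairs of unitaries
-/

set_option autoImplicit false

namespace Pool.Agent.Helper702_TH.U2

open Submodule Filter Topology
open Pool.Agent.helper987_SE Pool.Agent.Helper702_TH.U1

noncomputable section

variable {H : Type} [NormedAddCommGroup H] [InnerProductSpace ℂ H] [CompleteSpace H]

lemma mul_op (a b : unitary (H →L[ℂ] H)) (w : H) :
    ((a * b : unitary (H →L[ℂ] H)) : H →L[ℂ] H) w = (a : H →L[ℂ] H) ((b : H →L[ℂ] H) w) := rfl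

/-- a product moves `w` by at most the sum of the distances -/
lemma move_mul (a b : unitary (H →L[ℂ] H)) (w : H) :
    ‖((a * b : unitary (H →L[ℂ] H)) : H →L[ℂ] H) w - w‖ ≤
      ‖(a : H →L[ℂ] H) w - w‖ + ‖(b : H →L[ℂ] H) w - w‖ := by
  have e : ((a * b : unitary (H →L[ℂ] H)) : H →L[ℂ] H) w - w =
      ((a : H →L[ℂ] H) w - w) + (a : H →L[ℂ] H) ((b : H →L[ℂ] H) w - w) := by
    rw [mul_op, map_sub]; abel
  rw [e]
  refine (norm_add_le _ _).trans ?_
  rw [Unitary.norm_map]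

lemma move_inv (a : unitary (H →L[ℂ] H)) (w : H) :
    ‖((a⁻¹ : unitary (H →L[ℂ] H)) : H →L[ℂ] H) w - w‖ = ‖(a : H →L[ℂ] H) w - w‖ := by
  rw [← Unitary.norm_map a (((a⁻¹ : unitary (H →L[ℂ] H)) : H →L[ℂ] H) w - w), map_sub, ← mul_op,
    mul_inv_cancel, norm_sub_rev]
  rfl

lemma fixed_npow {x : unitary (H →L[ℂ] H)} {w : H} (h : (x : H →L[ℂ] H) w = w) (m : ℕ) :
    ((x ^ m : unitary (H →L[ℂ] H)) : H →L[ℂ] H) w = w := by
  induction m with
  | zero => rw [pow_zero]; rfl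
  | succ m ih => rw [pow_succ, mul_op, h, ih]

lemma move_npow (x : unitary (H →L[ℂ] H)) (m : ℕ) (w : H) :
    ‖((x ^ m : unitary (H →L[ℂ] H)) : H →L[ℂ] H) w - w‖ ≤ 2 * ‖w - Fx x w‖ := by
  have hf : (x : H →L[ℂ] H) (Fx x w) = Fx x w := by
    have h := C7.op_Pr_single I x w
    rw [← Fx_eq] at h
    exact h
  have e : ((x ^ m : unitary (H →L[ℂ] H)) : H →L[ℂ] H) w - w =
      ((x ^ m : unitary (H →L[ℂ] H)) : H →L[ℂ] H) (w - Fx x w) - (w - Fx x w) := by
    rw [map_sub, fixed_npow hf]; abel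
  rw [e]
  refine (norm_sub_le _ _).trans ?_
  rw [Unitary.norm_map]
  linarith

lemma comm_pow {G : Type} [Group G] {x y c : G} (h : x * y = c * y * x) (hx : Commute c x)
    (n : ℕ) : x ^ n * y = c ^ n * y * x ^ n := by
  induction n with
  | zero => simp
  | succ n ih =>
    have h1 : x * (c ^ n * y * x ^ n) = c ^ n * (x * y) * x ^ n := by
      calc x * (c ^ n * y * x ^ n) = (x * c ^ n) * y * x ^ n := by simp only [mul_assoc]
        _ = (c ^ n * x) * y * x ^ n := by rw [(hx.pow_left n).eq]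
        _ = c ^ n * (x * y) * x ^ n := by simp only [mul_assoc]
    calc x ^ (n + 1) * y = x * (x ^ n * y) := by rw [pow_succ', mul_assoc]
      _ = c ^ n * (x * y) * x ^ n := by rw [ih, h1]
      _ = c ^ n * (c * y * x) * x ^ n := by rw [h]
      _ = (c ^ n * c) * y * (x * x ^ n) := by simp only [mul_assoc]
      _ = c ^ (n + 1) * y * x ^ (n + 1) := by rw [← pow_succ, ← pow_succ']

lemma comm_npow {G : Type} [Group G] {x y c : G} (h : x * y = c * y * x) (hx : Commute c x)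
    (n : ℕ) : c ^ n = x ^ n * y * (x ^ n)⁻¹ * y⁻¹ := by
  rw [comm_pow h hx n]; group

theorem main (_ : U1P) : U2P := by
  intro H _ _ _ x y c hxy hcx hcy
  refine ⟨?_, ?_, ?_⟩
  · refine ContinuousLinearMap.ext fun w => ?_
    show Fx x (Fx y (Fx c w)) = Fx y (Fx x (Fx c w))
    rw [Fx_eq x, Fx_eq y, Fx_eq c]
    refine C7.comm_on I (A := {x}) (B := {y}) (Z := {c}) ?_ ?_ ?_ _ (C7.Pr_mem I {c} w)
    · intro a ha z hz
      rw [Set.mem_singleton_iff.1 ha, Set.mem_singleton_iff.1 hz]; exact hcx.symm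
    · intro a ha z hz
      rw [Set.mem_singleton_iff.1 ha, Set.mem_singleton_iff.1 hz]; exact hcy.symm
    · intro a ha b hb
      rw [Set.mem_singleton_iff.1 ha, Set.mem_singleton_iff.1 hb]
      exact ⟨c, Subgroup.subset_closure rfl, hxy⟩
  · intro w hw
    rw [Fx_eq] at hw
    have h := C7.lem12 I hxy hcx hcy w hw
    rw [← Fx_eq, ← Fx_eq] at h
    linarith
  · intro w
    have key : ∀ n : ℕ, ‖((c ^ n : unitary (H →L[ℂ] H)) : H →L[ℂ] H) w - w‖ ≤
        4 * (‖w - Fx x w‖ + ‖w - Fx y w‖) := by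
      intro n
      rw [comm_npow hxy hcx n]
      have h1 := move_mul (x ^ n * y * (x ^ n)⁻¹) y⁻¹ w
      have h2 := move_mul (x ^ n * y) (x ^ n)⁻¹ w
      have h3 := move_mul (x ^ n) y w
      rw [move_inv] at h1 h2
      have h4 := move_npow x n w
      have h5 := move_npow y 1 w
      rw [pow_one] at h5
      linarith
    rw [Fx_eq c]
    exact C7.near_single I c w _ key

end

end Pool.Agent.Helper702_TH.U2
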