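import Pool.Agent.Helper702_TH.Stm

/-!
# Project TH, part U3: the A₂ theorem for unitaries
-/

set_option autoImplicit false

namespace Pool.Agent.Helper702_TH.U3

open Submodule Filter Topology

noncomputable section

variable {H : Type} [NormedAddCommGroup H] [InnerProductSpace ℂ H] [CompleteSpace H]

/-- the properties of a Heisenberg triple used below -/
lemma triple (u1 : U1P) (u2 : U2P) (x y c : unitary (H →L[ℂ] H)) (hcx : Commute c x)
    (hcy : Commute c y) (h : x * y = c * y * x ∨ x * y = c⁻¹ * y * x) :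
    Fx x * Fx y * Fx c = Fx y * Fx x * Fx c ∧
      (∀ w, Fx c w = 0 → ‖Fx y (Fx x w)‖ ^ 2 ≤ ‖w‖ ^ 2 / 2) ∧
      (∀ w, ‖w - Fx c w‖ ≤ 4 * (‖w - Fx x w‖ + ‖w - Fx y w‖)) := by
  have key : ∀ d : unitary (H →L[ℂ] H), Commute d x → Commute d y → x * y = d * y * x →
      Fx x * Fx y * Fx d = Fx y * Fx x * Fx d ∧
      (∀ w, Fx d w = 0 → ‖Fx y (Fx x w)‖ ^ 2 ≤ ‖w‖ ^ 2 / 2) ∧
      (∀ w, ‖w - Fx d w‖ ≤ 4 * (‖w - Fx x w‖ + ‖w - Fx y w‖)) := by
    intro d hdx hdy hd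
    obtain ⟨a1, -, a3⟩ := u2 H x y d hd hdx hdy
    have hd' : y * x = d⁻¹ * x * y := by
      rw [mul_assoc, hd]; group
    obtain ⟨-, b2, -⟩ := u2 H y x d⁻¹ hd' hdy.inv_left hdx.inv_left
    have e : Fx d⁻¹ = Fx d := (u1 H d).2.2.1
    rw [e] at b2
    exact ⟨a1, b2, a3⟩
  rcases h with h | h
  · exact key c hcx hcy h
  · have := key c⁻¹ hcx.inv_left hcy.inv_left h
    rw [(u1 H c).2.2.1] at this
    exact this

theorem main (v3 : V3P) (u1 : U1P) (u2 : U2P) : U3P := by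
  intro H _ _ _ x hc hr v hv η hη hx
  have hc' : ∀ i, Commute (x i) (x (i - 1)) := by
    intro i
    have := hc (i - 1)
    rw [sub_add_cancel] at this
    exact this.symm
  have ht := fun i => triple u1 u2 (x (i - 1)) (x (i + 1)) (x i) (hc' i) (hc i) (hr i)
  have hA : A2Proj (fun i => Fx (x i)) :=
    { sa := fun i => (u1 H (x i)).1
      comm1 := fun i => ((u1 H (x i)).2.2.2.1 _ (hc i)).2
      comm2 := fun i => (ht i).1
      half := fun i => (ht i).2.1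
      four := fun i => (ht i).2.2 }
  have h1 := v3 H _ hA v (fun w hw => hv w fun i => ((u1 H (x i)).2.1 w).1 (hw i))
  have h2 : ∀ i, ‖v - Fx (x i) v‖ ^ 2 ≤ η ^ 2 := fun i =>
    pow_le_pow_left₀ (norm_nonneg _) ((u1 H (x i)).2.2.2.2 v η (hx i)) 2
  have h3 : ∑ i : ZMod 6, ‖v - Fx (x i) v‖ ^ 2 ≤ 6 * η ^ 2 := by
    refine (Finset.sum_le_sum fun i _ => h2 i).trans (le_of_eq ?_)
    rw [Finset.sum_const, Finset.card_univ, ZMod.card, nsmul_eq_mul]
    norm_num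
  have h4 : ‖v‖ ^ 2 ≤ (300 * η) ^ 2 := by
    refine h1.trans ?_
    have := mul_le_mul_of_nonneg_left h3 (by norm_num : (0 : ℝ) ≤ 10000)
    nlinarith [sq_nonneg η]
  exact (abs_le_of_sq_le_sq' h4 (by positivity)).2

end

end Pool.Agent.Helper702_TH.U3
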