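import Pool.Agent.Helper702_TH.Stm

/-!
# Project TH, part V1: the vertex inequality
-/

set_option autoImplicit false
set_option linter.unusedSectionVars false

namespace Pool.Agent.Helper702_TH.V1

open Pool.Agent.Helper702_TH

variable {H : Type} [NormedAddCommGroup H] [InnerProductSpace ℂ H] [CompleteSpace H]

lemma idem {A : H →L[ℂ] H} (hA : IsStarProjection A) (x : H) : A (A x) = A x :=
  congrArg (fun T : H →L[ℂ] H => T x) hA.isIdempotentElem.eq

lemma symm {A : H →L[ℂ] H} (hA : IsStarProjection A) (x y : H) :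
    inner ℂ (A x) y = inner ℂ x (A y) := by
  have h : ContinuousLinearMap.adjoint A = A := hA.isSelfAdjoint.star_eq
  rw [← ContinuousLinearMap.adjoint_inner_left, h]

lemma comm_apply {A B : H →L[ℂ] H} (h : A * B = B * A) (x : H) : A (B x) = B (A x) :=
  congrArg (fun T : H →L[ℂ] H => T x) h

/-- Pythagoras -/
lemma pyth {x y : H} (h : inner ℂ x y = 0) : ‖x + y‖ ^ 2 = ‖x‖ ^ 2 + ‖y‖ ^ 2 := by
  have := @norm_add_sq ℂ H _ _ _ x y
  rw [h] at this
  simpa using this

lemma two (x y : H) : ‖x + y‖ ^ 2 ≤ 2 * (‖x‖ ^ 2 + ‖y‖ ^ 2) := by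
  have h := norm_add_le x y
  have h2 : ‖x + y‖ ^ 2 ≤ (‖x‖ + ‖y‖) ^ 2 := pow_le_pow_left₀ (norm_nonneg _) h 2
  nlinarith [sq_nonneg (‖x‖ - ‖y‖)]

theorem main : V1P := by
  intro H _ _ _ A B C hA hB hC hAB hBC hACB half u u' v v' hu1 hu2 hu' hv1 hv2 hv'
  have cAB : ∀ x, A (B x) = B (A x) := comm_apply hAB
  have cBC : ∀ x, B (C x) = C (B x) := comm_apply hBC
  have cACB : ∀ x, A (C (B x)) = C (A (B x)) := fun x => congrArg (fun T : H →L[ℂ] H => T x) hACB
  set Q : H →L[ℂ] H := A * C * B with hQ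
  have Qa : ∀ x, Q x = A (C (B x)) := fun x => rfl
  have QB : ∀ x, Q (B x) = Q x := fun x => by rw [Qa, Qa, idem hB]
  have BQ : ∀ x, B (Q x) = Q x := fun x => by
    rw [Qa, ← cAB, cBC, idem hB]
  -- decomposition for a vector
  have dec : ∀ w, ‖w - Q w‖ ^ 2 = ‖w - B w‖ ^ 2 + ‖B w - Q w‖ ^ 2 := by
    intro w
    have h1 : inner ℂ (w - B w) (B w - Q w) = 0 := by
      have h2 : B w - Q w = B (w - Q w) := by rw [map_sub, BQ]
      rw [h2, ← symm hB, map_sub, idem hB, sub_self, inner_zero_left]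
    rw [← pyth h1]
    congr 2
    abel
  -- component in the kernel of B
  have kerpart : ‖(u' - B u') + (v' - B v')‖ ^ 2 ≤ 7 / 4 * (‖u' - B u'‖ ^ 2 + ‖v' - B v'‖ ^ 2) := by
    set wp := u' - B u' with hwp
    set wm := v' - B v' with hwm
    have h1 : C wp = wp := by rw [hwp, map_sub, ← cBC, hu']
    have h2 : A wm = wm := by rw [hwm, map_sub, cAB, hv']
    have h3 : B wm = 0 := by rw [hwm, map_sub, idem hB, sub_self]
    have h4 := half wm h3
    rw [h2] at h4
    have h5 : inner ℂ wp wm = inner ℂ wp (C wm) := by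
      rw [← symm hC, h1]
    have h6 : ‖wp + wm‖ ^ 2 = ‖wp‖ ^ 2 + 2 * (inner ℂ wp (C wm)).re + ‖wm‖ ^ 2 := by
      have := @norm_add_sq ℂ H _ _ _ wp wm
      rw [h5] at this
      simpa using this
    have h7 : (inner ℂ wp (C wm)).re ≤ ‖wp‖ * ‖C wm‖ := by
      have := @re_inner_le_norm ℂ H _ _ _ wp (C wm)
      simpa using this
    have h8 : ‖wp‖ * ‖C wm‖ ≤ 3 / 8 * (‖wp‖ ^ 2 + ‖wm‖ ^ 2) := by
      have h9 : (‖wp‖ * ‖C wm‖) ^ 2 ≤ (3 / 8 * (‖wp‖ ^ 2 + ‖wm‖ ^ 2)) ^ 2 := by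
        have h10 : (‖wp‖ * ‖C wm‖) ^ 2 ≤ ‖wp‖ ^ 2 * (‖wm‖ ^ 2 / 2) := by
          rw [mul_pow]
          exact mul_le_mul_of_nonneg_left h4 (sq_nonneg _)
        nlinarith [sq_nonneg (‖wp‖ ^ 2 - ‖wm‖ ^ 2), sq_nonneg ‖wp‖, sq_nonneg ‖wm‖,
          mul_nonneg (sq_nonneg ‖wp‖) (sq_nonneg ‖wm‖)]
      exact (sq_le_sq₀ (by positivity) (by positivity)).1 h9
    rw [h6]
    linarith
  -- component in the range of B
  set ap := u + B u' with hap
  set am := v + B v' with ham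
  have p1 : B ap = ap := by rw [hap, map_add, idem hB, hu1]
  have p2 : C ap = ap := by rw [hap, map_add, ← cBC, hu', hu2]
  have m1 : B am = am := by rw [ham, map_add, idem hB, hv1]
  have m2 : A am = am := by rw [ham, map_add, cAB, hv', hv2]
  have Qp : Q ap = A ap := by rw [Qa, p1, p2]
  have Qm : Q am = C am := by rw [Qa, cACB, m1, m2]
  have ACm : A (C am) = C am := by
    have : C am = Q am := Qm.symm
    rw [this, Qa, idem hA]
  have orth : inner ℂ (ap - Q ap) (am - Q am) = 0 := by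
    have h1 : am - Q am = A (am - Q am) := by rw [map_sub, m2, Qm, ACm]
    rw [h1, ← symm hA, map_sub, Qp, idem hA, sub_self, inner_zero_left]
  have ranpart : ‖B (u + v + u' + v') - Q (u + v + u' + v')‖ ^ 2 ≤
      2 * (‖u - Q u‖ ^ 2 + ‖B u' - Q u'‖ ^ 2) + 2 * (‖v - Q v‖ ^ 2 + ‖B v' - Q v'‖ ^ 2) := by
    have h1 : B (u + v + u' + v') - Q (u + v + u' + v') = (ap - Q ap) + (am - Q am) := by
      simp only [hap, ham, map_add, QB, hu1, hv1]
      abel
    rw [h1, pyth orth]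
    have h2 : ap - Q ap = (u - Q u) + (B u' - Q u') := by
      simp only [hap, map_add, QB]; abel
    have h3 : am - Q am = (v - Q v) + (B v' - Q v') := by
      simp only [ham, map_add, QB]; abel
    rw [h2, h3]
    exact add_le_add (two _ _) (two _ _)
  have hker : (u + v + u' + v') - B (u + v + u' + v') = (u' - B u') + (v' - B v') := by
    simp only [map_add, hu1, hv1]; abel
  have d1 := dec (u + v + u' + v')
  have d2 := dec u'
  have d3 := dec v'
  rw [hker] at d1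
  rw [d1, d2, d3]
  linarith

end Pool.Agent.Helper702_TH.V1
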