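import Pool.Agent.Helper702_TH.V1

/-!
# Project TH, part V2: the compressed Laplace operator
-/

set_option autoImplicit false
set_option linter.unusedSectionVars false

namespace Pool.Agent.Helper702_TH.V2

open Pool.Agent.Helper702_TH V1

variable {H : Type} [NormedAddCommGroup H] [InnerProductSpace ℂ H] [CompleteSpace H]

/-- six dimensional sum -/
lemma sum6 {M : Type} [AddCommMonoid M] (f : ZMod 6 → M) :
    ∑ i, f i = f 0 + f 1 + f 2 + f 3 + f 4 + f 5 := by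
  exact Fin.sum_univ_six f

lemma gap_aux (a b c d e f : H) :
    ‖(a - b) + (a - f) + (a - c) + (a - e)‖ ^ 2 +
    ‖(b - c) + (b - a) + (b - d) + (b - f)‖ ^ 2 +
    ‖(c - d) + (c - b) + (c - e) + (c - a)‖ ^ 2 +
    ‖(d - e) + (d - c) + (d - f) + (d - b)‖ ^ 2 +
    ‖(e - f) + (e - d) + (e - a) + (e - c)‖ ^ 2 +
    ‖(f - a) + (f - e) + (f - b) + (f - d)‖ ^ 2 =
    2 * ((‖a - b‖ ^ 2 + ‖a - f‖ ^ 2 + ‖a - c‖ ^ 2 + ‖a - e‖ ^ 2) +
      (‖b - c‖ ^ 2 + ‖b - a‖ ^ 2 + ‖b - d‖ ^ 2 + ‖b - f‖ ^ 2) +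
      (‖c - d‖ ^ 2 + ‖c - b‖ ^ 2 + ‖c - e‖ ^ 2 + ‖c - a‖ ^ 2) +
      (‖d - e‖ ^ 2 + ‖d - c‖ ^ 2 + ‖d - f‖ ^ 2 + ‖d - b‖ ^ 2) +
      (‖e - f‖ ^ 2 + ‖e - d‖ ^ 2 + ‖e - a‖ ^ 2 + ‖e - c‖ ^ 2) +
      (‖f - a‖ ^ 2 + ‖f - e‖ ^ 2 + ‖f - b‖ ^ 2 + ‖f - d‖ ^ 2)) +
    2 * (‖(a + d) - (b + e)‖ ^ 2 + ‖(a + d) - (c + f)‖ ^ 2 + ‖(b + e) - (c + f)‖ ^ 2) := by
  have E : ∀ x : H, ‖x‖ ^ 2 = (inner ℂ x x).re := fun x => by
    have := @inner_self_eq_norm_sq ℂ H _ _ _ x
    simpa using this.symm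
  have s : ∀ x y : H, (inner ℂ x y).re = (inner ℂ y x).re := fun x y => by
    have := @inner_re_symm ℂ H _ _ _ x y
    simpa using this
  simp only [E, inner_add_left, inner_add_right, inner_sub_left, inner_sub_right,
    Complex.add_re, Complex.sub_re]
  rw [s b a, s c a, s d a, s e a, s f a, s c b, s d b, s e b, s f b, s d c, s e c, s f c,
    s e d, s f d, s f e]
  ring

/-- spectral gap of the octahedral graph -/
lemma gap (g : ZMod 6 → H) :
    2 * ∑ i, (‖g i - g (i + 1)‖ ^ 2 + ‖g i - g (i - 1)‖ ^ 2 + ‖g i - g (i + 2)‖ ^ 2 +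
      ‖g i - g (i - 2)‖ ^ 2) ≤ ∑ i, ‖Lap g i‖ ^ 2 := by
  have h := gap_aux (g 0) (g 1) (g 2) (g 3) (g 4) (g 5)
  rw [sum6, sum6]
  simp only [Lap]
  have e0 : (0 : ZMod 6) + 1 = 1 := by decide
  have e1 : (0 : ZMod 6) - 1 = 5 := by decide
  have e2 : (0 : ZMod 6) + 2 = 2 := by decide
  have e3 : (0 : ZMod 6) - 2 = 4 := by decide
  have f0 : (1 : ZMod 6) + 1 = 2 := by decide
  have f1 : (1 : ZMod 6) - 1 = 0 := by decide
  have f2 : (1 : ZMod 6) + 2 = 3 := by decide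
  have f3 : (1 : ZMod 6) - 2 = 5 := by decide
  have g0 : (2 : ZMod 6) + 1 = 3 := by decide
  have g1 : (2 : ZMod 6) - 1 = 1 := by decide
  have g2 : (2 : ZMod 6) + 2 = 4 := by decide
  have g3 : (2 : ZMod 6) - 2 = 0 := by decide
  have h0 : (3 : ZMod 6) + 1 = 4 := by decide
  have h1 : (3 : ZMod 6) - 1 = 2 := by decide
  have h2 : (3 : ZMod 6) + 2 = 5 := by decide
  have h3 : (3 : ZMod 6) - 2 = 1 := by decide
  have i0 : (4 : ZMod 6) + 1 = 5 := by decide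
  have i1 : (4 : ZMod 6) - 1 = 3 := by decide
  have i2 : (4 : ZMod 6) + 2 = 0 := by decide
  have i3 : (4 : ZMod 6) - 2 = 2 := by decide
  have j0 : (5 : ZMod 6) + 1 = 0 := by decide
  have j1 : (5 : ZMod 6) - 1 = 4 := by decide
  have j2 : (5 : ZMod 6) + 2 = 1 := by decide
  have j3 : (5 : ZMod 6) - 2 = 3 := by decide
  rw [e0, e1, e2, e3, f0, f1, f2, f3, g0, g1, g2, g3, h0, h1, h2, h3, i0, i1, i2, i3, j0, j1, j2, j3]
  rw [h]
  nlinarith [sq_nonneg ‖(g 0 + g 3) - (g 1 + g 4)‖, sq_nonneg ‖(g 0 + g 3) - (g 2 + g 5)‖,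
    sq_nonneg ‖(g 1 + g 4) - (g 2 + g 5)‖]

/-- properties of the projection `A C B` -/
lemma projQ {A B C : H →L[ℂ] H} (hA : IsStarProjection A) (hB : IsStarProjection B)
    (hC : IsStarProjection C) (hAB : A * B = B * A) (hBC : B * C = C * B)
    (hACB : A * C * B = C * A * B) (w : H) :
    ‖w‖ ^ 2 = ‖w - (A * C * B) w‖ ^ 2 + ‖(A * C * B) w‖ ^ 2 := by
  have cAB : ∀ x, A (B x) = B (A x) := comm_apply hAB
  have cBC : ∀ x, B (C x) = C (B x) := comm_apply hBC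
  have cACB : ∀ x, A (C (B x)) = C (A (B x)) := fun x => congrArg (fun T : H →L[ℂ] H => T x) hACB
  have Qa : ∀ x, (A * C * B) x = A (C (B x)) := fun x => rfl
  have h1 : inner ℂ (w - (A * C * B) w) ((A * C * B) w) = 0 := by
    rw [Qa, ← symm hA, ← symm hC, ← symm hB]
    have h2 : B (C (A (w - A (C (B w))))) = 0 := by
      rw [map_sub, idem hA, map_sub]
      have h3 : C (A (C (B w))) = A (C (B w)) := by
        rw [cACB, idem hC]
      rw [h3, map_sub]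
      have h4 : B (C (A w)) = A (C (B w)) := by
        rw [cBC, ← cAB, cACB]
      have h5 : B (A (C (B w))) = A (C (B w)) := by
        rw [← cAB, cBC, idem hB]
      rw [h4, h5, sub_self]
    rw [h2, inner_zero_left]
  rw [← pyth h1, sub_add_cancel]

/-- triangle inequality for the projection `A C B` -/
lemma triQ {A B C : H →L[ℂ] H} (hA : IsStarProjection A) (hC : IsStarProjection C) (w : H) :
    ‖w - (A * C * B) w‖ ≤ ‖w - B w‖ + ‖w - A w‖ + ‖w - C w‖ := by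
  have Qa : (A * C * B) w = A (C (B w)) := rfl
  have nA : ∀ x, ‖A x‖ ≤ ‖x‖ := fun x => by
    have h : inner ℂ (x - A x) (A x) = 0 := by
      rw [← symm hA, map_sub, idem hA, sub_self, inner_zero_left]
    have h2 := pyth h
    rw [sub_add_cancel] at h2
    exact (sq_le_sq₀ (norm_nonneg _) (norm_nonneg _)).1 (by nlinarith [sq_nonneg ‖x - A x‖])
  have nC : ∀ x, ‖C x‖ ≤ ‖x‖ := fun x => by
    have h : inner ℂ (x - C x) (C x) = 0 := by
      rw [← symm hC, map_sub, idem hC, sub_self, inner_zero_left]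
    have h2 := pyth h
    rw [sub_add_cancel] at h2
    exact (sq_le_sq₀ (norm_nonneg _) (norm_nonneg _)).1 (by nlinarith [sq_nonneg ‖x - C x‖])
  have h1 : w - (A * C * B) w = (w - A w) + A ((w - C w) + C (w - B w)) := by
    rw [Qa]
    simp only [map_add, map_sub]
    abel
  rw [h1]
  have h2 := norm_add_le (w - A w) (A ((w - C w) + C (w - B w)))
  have h3 := nA ((w - C w) + C (w - B w))
  have h4 := norm_add_le (w - C w) (C (w - B w))
  have h5 := nC (w - B w)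
  linarith

lemma four_sq (a b c d : H) :
    ‖a + b + c + d‖ ^ 2 ≤ 4 * (‖a‖ ^ 2 + ‖b‖ ^ 2 + ‖c‖ ^ 2 + ‖d‖ ^ 2) := by
  have h1 := two (a + b) (c + d)
  have h2 := two a b
  have h3 := two c d
  have h4 : a + b + c + d = (a + b) + (c + d) := by abel
  rw [h4]
  linarith

lemma cs6 (a b c d e f : ℝ) :
    (a + b + (5 * c + 4 * d) + (5 * e + 4 * f)) ^ 2 ≤
      84 * (a ^ 2 + b ^ 2 + c ^ 2 + d ^ 2 + e ^ 2 + f ^ 2) := by
  nlinarith [sq_nonneg (a - b), sq_nonneg (5 * a - c), sq_nonneg (4 * a - d),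
    sq_nonneg (5 * a - e), sq_nonneg (4 * a - f), sq_nonneg (5 * b - c), sq_nonneg (4 * b - d),
    sq_nonneg (5 * b - e), sq_nonneg (4 * b - f), sq_nonneg (4 * c - 5 * d),
    sq_nonneg (c - e), sq_nonneg (4 * c - 5 * f), sq_nonneg (5 * d - 4 * e), sq_nonneg (d - f),
    sq_nonneg (4 * e - 5 * f)]

theorem main (h1 : V1P) : V2P := by
  intro H _ _ _ P hP g hg
  have c1 : ∀ i, P (i - 1) * P i = P i * P (i - 1) := fun i => by
    have := hP.comm1 (i - 1)
    rwa [sub_add_cancel] at this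
  have f0 : ∀ i, P i (g i) = g i := fun i => by
    have h := hg i
    rw [← h]
    show P i (P (i - 1) (P (i + 1) (P i (g i)))) = P (i - 1) (P (i + 1) (P i (g i)))
    rw [← comm_apply (c1 i), comm_apply (hP.comm1 i), idem (hP.sa i)]
  have fm : ∀ i, P (i - 1) (g i) = g i := fun i => by
    have h := hg i
    rw [← h]
    exact idem (hP.sa (i - 1)) _
  have fp : ∀ i, P (i + 1) (g i) = g i := fun i => by
    have h := hg i
    have h2 : QQ P i (g i) = P (i + 1) (P (i - 1) (P i (g i))) :=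
      congrArg (fun T : H →L[ℂ] H => T (g i)) (hP.comm2 i)
    rw [h2] at h
    rw [← h]
    exact idem (hP.sa (i + 1)) _
  -- neighbours
  have n1 : ∀ i, P i (g (i + 1)) = g (i + 1) := fun i => by
    have := fm (i + 1)
    rwa [add_sub_cancel_right] at this
  have n2 : ∀ i, P i (g (i - 1)) = g (i - 1) := fun i => by
    have := fp (i - 1)
    rwa [sub_add_cancel] at this
  have n3 : ∀ i, P (i + 1) (g (i + 2)) = g (i + 2) := fun i => by
    have := fm (i + 2)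
    have e : i + 2 - 1 = i + 1 := by ring
    rwa [e] at this
  have n4 : ∀ i, P (i - 1) (g (i - 2)) = g (i - 2) := fun i => by
    have := fp (i - 2)
    have e : i - 2 + 1 = i - 1 := by ring
    rwa [e] at this
  let R : ZMod 6 → ℝ := fun i => ‖Lap g i - QQ P i (Lap g i)‖ ^ 2
  let Kq : ZMod 6 → ℝ := fun i => ‖QQ P i (Lap g i)‖ ^ 2
  let bp : ZMod 6 → ℝ := fun j => ‖g j - P (j + 2) (g j)‖
  let bm : ZMod 6 → ℝ := fun j => ‖g j - P (j - 2) (g j)‖
  let T : ZMod 6 → ℝ := fun i => ‖g i - g (i + 1)‖ ^ 2 + ‖g i - g (i - 1)‖ ^ 2 +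
    ‖g i - g (i + 2)‖ ^ 2 + ‖g i - g (i - 2)‖ ^ 2
  let S : ZMod 6 → ℝ := fun i => ‖QQ P i (g i - g (i + 1))‖ ^ 2 + ‖QQ P i (g i - g (i - 1))‖ ^ 2 +
    ‖QQ P i (g i - g (i + 2))‖ ^ 2 + ‖QQ P i (g i - g (i - 2))‖ ^ 2
  have pq : ∀ i w, ‖w‖ ^ 2 = ‖w - QQ P i w‖ ^ 2 + ‖QQ P i w‖ ^ 2 := fun i w =>
    projQ (hP.sa (i - 1)) (hP.sa i) (hP.sa (i + 1)) (c1 i) (hP.comm1 i) (hP.comm2 i) w
  have LR : ∀ i, ‖Lap g i‖ ^ 2 = R i + Kq i := fun i => pq i _
  have KS : ∀ i, Kq i ≤ 4 * S i := by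
    intro i
    simp only [Kq, S, Lap, map_add]
    exact four_sq _ _ _ _
  have RS : ∀ i, R i ≤ 2 * T i - 2 * S i - 1 / 4 * (bm (i + 2) ^ 2 + bp (i - 2) ^ 2) := by
    intro i
    have h := h1 H (P (i - 1)) (P i) (P (i + 1)) (hP.sa (i - 1)) (hP.sa i) (hP.sa (i + 1)) (c1 i)
      (hP.comm1 i) (hP.comm2 i) (hP.half i) (g i - g (i + 1)) (g i - g (i + 2)) (g i - g (i - 1))
      (g i - g (i - 2)) (by rw [map_sub, f0, n1]) (by rw [map_sub, fp, f0]) (by rw [map_sub, fp, n3])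
      (by rw [map_sub, f0, n2]) (by rw [map_sub, fm, f0]) (by rw [map_sub, fm, n4])
    have e1 : bm (i + 2) = ‖(g i - g (i + 2)) - P i (g i - g (i + 2))‖ := by
      simp only [bm, add_sub_cancel_right]
      rw [map_sub, f0, ← norm_neg]
      congr 1
      abel
    have e2 : bp (i - 2) = ‖(g i - g (i - 2)) - P i (g i - g (i - 2))‖ := by
      simp only [bp, sub_add_cancel]
      rw [map_sub, f0, ← norm_neg]
      congr 1
      abel
    have a1 := pq i (g i - g (i + 1))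
    have a2 := pq i (g i - g (i - 1))
    have a3 := pq i (g i - g (i + 2))
    have a4 := pq i (g i - g (i - 2))
    have hR : R i = ‖(g i - g (i + 1) + (g i - g (i - 1)) + (g i - g (i + 2)) + (g i - g (i - 2))) -
      (P (i - 1) * P (i + 1) * P i) (g i - g (i + 1) + (g i - g (i - 1)) + (g i - g (i + 2)) +
        (g i - g (i - 2)))‖ ^ 2 := rfl
    rw [hR, e1, e2]
    simp only [T, S]
    simp only [QQ] at a1 a2 a3 a4 ⊢
    linarith
  -- estimate (iii)
  have RB : ∀ i, R i ≤ 84 * (bm (i + 1) ^ 2 + bp (i - 1) ^ 2 + bm (i + 2) ^ 2 + bp (i + 2) ^ 2 +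
      bp (i - 2) ^ 2 + bm (i - 2) ^ 2) := by
    intro i
    have tq : ∀ w, ‖w - QQ P i w‖ ≤ ‖w - P i w‖ + ‖w - P (i - 1) w‖ + ‖w - P (i + 1) w‖ :=
      fun w => triQ (hP.sa (i - 1)) (hP.sa (i + 1)) w
    have hL : Lap g i - QQ P i (Lap g i) = -((g (i + 1) - QQ P i (g (i + 1))) +
        (g (i - 1) - QQ P i (g (i - 1))) + (g (i + 2) - QQ P i (g (i + 2))) +
        (g (i - 2) - QQ P i (g (i - 2)))) := by
      simp only [Lap, map_add, map_sub, hg i]
      abel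
    have b1 : ‖g (i + 1) - QQ P i (g (i + 1))‖ ≤ bm (i + 1) := by
      have h := tq (g (i + 1))
      have e : i + 1 - 2 = i - 1 := by ring
      rw [n1, sub_self, norm_zero, f0, sub_self, norm_zero] at h
      simp only [bm, e]
      linarith
    have b2 : ‖g (i - 1) - QQ P i (g (i - 1))‖ ≤ bp (i - 1) := by
      have h := tq (g (i - 1))
      have e : i - 1 + 2 = i + 1 := by ring
      rw [n2, sub_self, norm_zero, f0, sub_self, norm_zero] at h
      simp only [bp, e]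
      linarith
    have e6 : (6 : ZMod 6) = 0 := by decide
    have b3 : ‖g (i + 2) - QQ P i (g (i + 2))‖ ≤ 5 * bm (i + 2) + 4 * bp (i + 2) := by
      have h := tq (g (i + 2))
      rw [n3, sub_self, norm_zero] at h
      have h4 := hP.four (i - 1) (g (i + 2))
      have e : i - 1 - 1 = i + 2 + 2 := by
        have : i - 1 - 1 = i + 2 + 2 - 6 := by ring
        rw [this, e6, sub_zero]
      have e' : i - 1 + 1 = i := by ring
      rw [e, e'] at h4
      have e1 : bm (i + 2) = ‖g (i + 2) - P i (g (i + 2))‖ := by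
        simp only [bm, add_sub_cancel_right]
      have e2 : bp (i + 2) = ‖g (i + 2) - P (i + 2 + 2) (g (i + 2))‖ := rfl
      rw [e1, e2]
      linarith
    have b4 : ‖g (i - 2) - QQ P i (g (i - 2))‖ ≤ 5 * bp (i - 2) + 4 * bm (i - 2) := by
      have h := tq (g (i - 2))
      rw [n4, sub_self, norm_zero] at h
      have h4 := hP.four (i + 1) (g (i - 2))
      have e : i + 1 + 1 = i - 2 - 2 := by
        have : i + 1 + 1 = i - 2 - 2 + 6 := by ring
        rw [this, e6, add_zero]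
      have e' : i + 1 - 1 = i := by ring
      rw [e, e'] at h4
      have e1 : bp (i - 2) = ‖g (i - 2) - P i (g (i - 2))‖ := by
        simp only [bp, sub_add_cancel]
      have e2 : bm (i - 2) = ‖g (i - 2) - P (i - 2 - 2) (g (i - 2))‖ := rfl
      rw [e1, e2]
      linarith
    have h5 : ‖Lap g i - QQ P i (Lap g i)‖ ≤ bm (i + 1) + bp (i - 1) +
        (5 * bm (i + 2) + 4 * bp (i + 2)) + (5 * bp (i - 2) + 4 * bm (i - 2)) := by
      rw [hL, norm_neg]
      have t1 := norm_add_le ((g (i + 1) - QQ P i (g (i + 1))) +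
        (g (i - 1) - QQ P i (g (i - 1))) + (g (i + 2) - QQ P i (g (i + 2))))
        (g (i - 2) - QQ P i (g (i - 2)))
      have t2 := norm_add_le ((g (i + 1) - QQ P i (g (i + 1))) +
        (g (i - 1) - QQ P i (g (i - 1)))) (g (i + 2) - QQ P i (g (i + 2)))
      have t3 := norm_add_le (g (i + 1) - QQ P i (g (i + 1))) (g (i - 1) - QQ P i (g (i - 1)))
      linarith
    exact (pow_le_pow_left₀ (norm_nonneg _) h5 2).trans (cs6 _ _ _ _ _ _)
  -- summation
  have sh : ∀ (f : ZMod 6 → ℝ) (k : ZMod 6), ∑ i, f (i + k) = ∑ i, f i := fun f k =>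
    Equiv.sum_comp (Equiv.addRight k) f
  have sh' : ∀ (f : ZMod 6 → ℝ) (k : ZMod 6), ∑ i, f (i - k) = ∑ i, f i := fun f k =>
    Equiv.sum_comp (Equiv.subRight k) f
  have gp : 2 * ∑ i, T i ≤ ∑ i, ‖Lap g i‖ ^ 2 := gap g
  have sLR : ∑ i, ‖Lap g i‖ ^ 2 = ∑ i, R i + ∑ i, Kq i := by
    rw [← Finset.sum_add_distrib]
    exact Finset.sum_congr rfl fun i _ => LR i
  have sKS : ∑ i, Kq i ≤ 4 * ∑ i, S i := by
    rw [Finset.mul_sum]
    exact Finset.sum_le_sum fun i _ => KS i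
  have sRS : ∑ i, R i ≤ 2 * ∑ i, T i - 2 * ∑ i, S i - 1 / 4 * (∑ i, bm i ^ 2 + ∑ i, bp i ^ 2) := by
    have h := Finset.sum_le_sum fun (i : ZMod 6) (_ : i ∈ Finset.univ) => RS i
    have e : ∑ i, (bm (i + 2) ^ 2 + bp (i - 2) ^ 2) = ∑ i, bm i ^ 2 + ∑ i, bp i ^ 2 := by
      rw [Finset.sum_add_distrib, sh (fun i => bm i ^ 2), sh' (fun i => bp i ^ 2)]
    rw [Finset.sum_sub_distrib, Finset.sum_sub_distrib, ← Finset.mul_sum, ← Finset.mul_sum,
      ← Finset.mul_sum, e] at h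
    exact h
  have sRB : ∑ i, R i ≤ 84 * (3 * (∑ i, bm i ^ 2 + ∑ i, bp i ^ 2)) := by
    have h := Finset.sum_le_sum fun (i : ZMod 6) (_ : i ∈ Finset.univ) => RB i
    rw [← Finset.mul_sum, Finset.sum_add_distrib, Finset.sum_add_distrib, Finset.sum_add_distrib,
      Finset.sum_add_distrib, Finset.sum_add_distrib, sh (fun i => bm i ^ 2),
      sh' (fun i => bp i ^ 2), sh (fun i => bm i ^ 2), sh (fun i => bp i ^ 2),
      sh' (fun i => bp i ^ 2), sh' (fun i => bm i ^ 2)] at h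
    linarith
  show ∑ i, ‖Lap g i‖ ^ 2 ≤ 505 * ∑ i, Kq i
  linarith

end Pool.Agent.Helper702_TH.V2
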