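import Pool.Agent.Helper702_TH.V2

/-!
# Project TH, part V3: the A₂ inequality
-/

set_option autoImplicit false
set_option linter.unusedSectionVars false

namespace Pool.Agent.Helper702_TH.V3

open Pool.Agent.Helper702_TH V1 V2

section abstract

variable {E : Type} [NormedAddCommGroup E] [InnerProductSpace ℂ E] [CompleteSpace E]

/-- A positive self-adjoint operator whose form is bounded by `c ‖K g‖²` has a spectral gap. -/
lemma abs_gap (K : E →L[ℂ] E) (hK : ∀ x y, inner ℂ (K x) y = inner ℂ x (K y))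
    (hpos : ∀ x, 0 ≤ (inner ℂ (K x) x).re) (c : ℝ) (hc : 0 < c)
    (hb : ∀ x, (inner ℂ (K x) x).re ≤ c * ‖K x‖ ^ 2) (f : E)
    (hf : ∀ g, K g = 0 → inner ℂ g f = 0) : ‖f‖ ^ 2 ≤ c * (inner ℂ (K f) f).re := by
  have hadj : ContinuousLinearMap.adjoint K = K := by
    symm
    rw [ContinuousLinearMap.eq_adjoint_iff]
    exact hK
  have key : ∀ g, ‖K g‖ ^ 2 ≤ c * (inner ℂ (K (K g)) (K g)).re := by
    intro g
    have h1 := hpos (g - (c : ℂ) • K g)
    have e1 : (inner ℂ (K g) (K g)).re = ‖K g‖ ^ 2 := by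
      have := @inner_self_eq_norm_sq ℂ E _ _ _ (K g)
      simpa using this
    have e2 : inner ℂ (K (K g)) g = inner ℂ (K g) (K g) := hK _ _
    have e3 : (inner ℂ (K (g - (c : ℂ) • K g)) (g - (c : ℂ) • K g)).re =
        (inner ℂ (K g) g).re - 2 * c * ‖K g‖ ^ 2 + c ^ 2 * (inner ℂ (K (K g)) (K g)).re := by
      rw [map_sub, map_smul, inner_sub_left, inner_sub_right, inner_sub_right, inner_smul_left,
        inner_smul_right, inner_smul_left, inner_smul_right, e2]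
      simp only [Complex.conj_ofReal, Complex.sub_re, Complex.re_ofReal_mul, e1]
      ring
    rw [e3] at h1
    have h2 := hb g
    have h3 : 0 ≤ c * (c * (inner ℂ (K (K g)) (K g)).re - ‖K g‖ ^ 2) := by nlinarith
    have h4 := (mul_nonneg_iff_of_pos_left hc).1 h3
    linarith
  have hcl : IsClosed {f : E | ‖f‖ ^ 2 ≤ c * (inner ℂ (K f) f).re} := by
    apply isClosed_le
    · fun_prop
    · have : Continuous fun f : E => (inner ℂ (K f) f) := by fun_prop
      exact continuous_const.mul (Complex.continuous_re.comp this)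
  have hmem : f ∈ (LinearMap.range (K : E →ₗ[ℂ] E)).topologicalClosure := by
    rw [← Submodule.orthogonal_orthogonal_eq_closure]
    rw [Submodule.mem_orthogonal]
    intro g hg
    apply hf
    have h1 : inner ℂ (K (K g)) g = 0 := (Submodule.mem_orthogonal _ g).1 hg _ ⟨K g, rfl⟩
    rw [hK] at h1
    exact inner_self_eq_zero.1 h1
  exact closure_minimal (s := (LinearMap.range (K : E →ₗ[ℂ] E) : Set E))
    (by rintro _ ⟨g, rfl⟩; exact key g) hcl hmem

end abstract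

variable {H : Type} [NormedAddCommGroup H] [InnerProductSpace ℂ H] [CompleteSpace H]

lemma lap_symm (f g : ZMod 6 → H) :
    ∑ i, inner ℂ (Lap f i) (g i) = ∑ i, inner ℂ (f i) (Lap g i) := by
  have sh : ∀ (F : ZMod 6 → ℂ) (k : ZMod 6), ∑ i, F (i + k) = ∑ i, F i := fun F k =>
    Equiv.sum_comp (Equiv.addRight k) F
  have h1 := sh (fun i => inner ℂ (f i) (g (i - 1))) 1
  have h2 := sh (fun i => inner ℂ (f i) (g (i - 2))) 2
  have h3 := sh (fun i => inner ℂ (f (i - 1)) (g i)) 1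
  have h4 := sh (fun i => inner ℂ (f (i - 2)) (g i)) 2
  simp only [add_sub_cancel_right] at h1 h2 h3 h4
  simp only [Lap, inner_add_left, inner_add_right, inner_sub_left, inner_sub_right,
    Finset.sum_add_distrib, Finset.sum_sub_distrib]
  rw [h1, h2, ← h3, ← h4]
  ring

lemma lap_form (g : ZMod 6 → H) :
    (∑ i, inner ℂ (Lap g i) (g i)).re = 1 / 2 * ∑ i, (‖g i - g (i + 1)‖ ^ 2 +
      ‖g i - g (i - 1)‖ ^ 2 + ‖g i - g (i + 2)‖ ^ 2 + ‖g i - g (i - 2)‖ ^ 2) := by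
  have E : ∀ x : H, ‖x‖ ^ 2 = (inner ℂ x x).re := fun x => by
    have := @inner_self_eq_norm_sq ℂ H _ _ _ x
    simpa using this.symm
  have s : ∀ x y : H, (inner ℂ x y).re = (inner ℂ y x).re := fun x y => by
    have := @inner_re_symm ℂ H _ _ _ x y
    simpa using this
  have sh : ∀ (F : ZMod 6 → ℝ) (k : ZMod 6), ∑ i, F (i + k) = ∑ i, F i := fun F k =>
    Equiv.sum_comp (Equiv.addRight k) F
  have h1 := sh (fun i => (inner ℂ (g i) (g i)).re) 1
  have h2 := sh (fun i => (inner ℂ (g i) (g i)).re) 2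
  have h3 := sh (fun i => (inner ℂ (g (i - 1)) (g (i - 1))).re) 1
  have h4 := sh (fun i => (inner ℂ (g (i - 2)) (g (i - 2))).re) 2
  simp only [add_sub_cancel_right] at h1 h2 h3 h4
  have s1 : ∀ i, (inner ℂ (g (i + 1)) (g i)).re = (inner ℂ (g i) (g (i + 1))).re := fun i => s _ _
  have s2 : ∀ i, (inner ℂ (g (i + 2)) (g i)).re = (inner ℂ (g i) (g (i + 2))).re := fun i => s _ _
  have s3 : ∀ i, (inner ℂ (g (i - 1)) (g i)).re = (inner ℂ (g i) (g (i - 1))).re := fun i => s _ _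
  have s4 : ∀ i, (inner ℂ (g (i - 2)) (g i)).re = (inner ℂ (g i) (g (i - 2))).re := fun i => s _ _
  rw [Complex.re_sum]
  simp only [Lap, E, inner_add_left, inner_sub_left, inner_sub_right, Complex.add_re,
    Complex.sub_re, s1, s2, s3, s4, Finset.sum_add_distrib, Finset.sum_sub_distrib]
  linarith

/-- Consequences of being fixed by `QQ`. -/
lemma QQ_fix {P : ZMod 6 → H →L[ℂ] H} (hP : A2Proj P) {i : ZMod 6} {w : H} (h : QQ P i w = w) :
    P i w = w := by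
  have c1 : P (i - 1) * P i = P i * P (i - 1) := by
    have := hP.comm1 (i - 1)
    rwa [sub_add_cancel] at this
  rw [← h]
  show P i (P (i - 1) (P (i + 1) (P i w))) = P (i - 1) (P (i + 1) (P i w))
  rw [← comm_apply c1, comm_apply (hP.comm1 i), idem (hP.sa i)]

lemma QQ_sym {P : ZMod 6 → H →L[ℂ] H} (hP : A2Proj P) (i : ZMod 6) (x y : H) :
    inner ℂ (QQ P i x) y = inner ℂ x (QQ P i y) := by
  have c1 : P (i - 1) * P i = P i * P (i - 1) := by
    have := hP.comm1 (i - 1)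
    rwa [sub_add_cancel] at this
  have h1 : QQ P i x = P (i - 1) (P (i + 1) (P i x)) := rfl
  have h2 : QQ P i y = P (i + 1) (P (i - 1) (P i y)) :=
    congrArg (fun T : H →L[ℂ] H => T y) (hP.comm2 i)
  rw [h1, h2, symm (hP.sa _), symm (hP.sa _), symm (hP.sa _), comm_apply (hP.comm1 i),
    ← comm_apply c1]

lemma QQ_idem {P : ZMod 6 → H →L[ℂ] H} (hP : A2Proj P) (i : ZMod 6) (x : H) :
    QQ P i (QQ P i x) = QQ P i x := by
  have c1 : P (i - 1) * P i = P i * P (i - 1) := by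
    have := hP.comm1 (i - 1)
    rwa [sub_add_cancel] at this
  have c2 : ∀ y, P (i - 1) (P (i + 1) (P i y)) = P (i + 1) (P (i - 1) (P i y)) := fun y =>
    congrArg (fun T : H →L[ℂ] H => T y) (hP.comm2 i)
  show P (i - 1) (P (i + 1) (P i (P (i - 1) (P (i + 1) (P i x))))) = P (i - 1) (P (i + 1) (P i x))
  rw [← comm_apply c1, comm_apply (hP.comm1 i) (P i x), idem (hP.sa i)]
  calc P (i - 1) (P (i + 1) (P (i - 1) (P (i + 1) (P i x))))
      = P (i - 1) (P (i + 1) (P (i + 1) (P (i - 1) (P i x)))) := by rw [c2 x]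
    _ = P (i - 1) (P (i - 1) (P (i + 1) (P i x))) := by rw [idem (hP.sa (i + 1)), ← c2 x]
    _ = P (i - 1) (P (i + 1) (P i x)) := idem (hP.sa (i - 1)) _

/-- the operator on the sum of six copies -/
noncomputable def KK (P : ZMod 6 → H →L[ℂ] H) :
    PiLp 2 (fun _ : ZMod 6 => H) →L[ℂ] PiLp 2 (fun _ : ZMod 6 => H) :=
  ((PiLp.continuousLinearEquiv 2 ℂ (fun _ : ZMod 6 => H)).symm :
      (ZMod 6 → H) →L[ℂ] PiLp 2 (fun _ : ZMod 6 => H)) ∘L
    (ContinuousLinearMap.pi fun i =>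
      QQ P i ∘L ((QQ P i ∘L ContinuousLinearMap.proj i -
        QQ P (i + 1) ∘L ContinuousLinearMap.proj (i + 1)) +
      (QQ P i ∘L ContinuousLinearMap.proj i -
        QQ P (i - 1) ∘L ContinuousLinearMap.proj (i - 1)) +
      (QQ P i ∘L ContinuousLinearMap.proj i -
        QQ P (i + 2) ∘L ContinuousLinearMap.proj (i + 2)) +
      (QQ P i ∘L ContinuousLinearMap.proj i -
        QQ P (i - 2) ∘L ContinuousLinearMap.proj (i - 2)))) ∘L
    ((PiLp.continuousLinearEquiv 2 ℂ (fun _ : ZMod 6 => H)) :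
      PiLp 2 (fun _ : ZMod 6 => H) →L[ℂ] (ZMod 6 → H))

lemma KK_apply (P : ZMod 6 → H →L[ℂ] H) (f : PiLp 2 (fun _ : ZMod 6 => H)) (i : ZMod 6) :
    KK P f i = QQ P i (Lap (fun j => QQ P j (f j)) i) := rfl

theorem main (h2 : V2P) : V3P := by
  intro H _ _ _ P hP v hv
  let E := PiLp 2 (fun _ : ZMod 6 => H)
  have Ere : ∀ x : H, (inner ℂ x x).re = ‖x‖ ^ 2 := fun x => by
    have := @inner_self_eq_norm_sq ℂ H _ _ _ x
    simpa using this
  have Kin : ∀ f g : E, inner ℂ (KK P f) g =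
      ∑ i, inner ℂ (Lap (fun j => QQ P j (f j)) i) (QQ P i (g i)) := by
    intro f g
    rw [PiLp.inner_apply]
    refine Finset.sum_congr rfl fun i _ => ?_
    rw [KK_apply, QQ_sym hP]
  have Ksym : ∀ f g : E, inner ℂ (KK P f) g = inner ℂ f (KK P g) := by
    intro f g
    rw [Kin, PiLp.inner_apply, lap_symm (fun j => QQ P j (f j)) (fun j => QQ P j (g j))]
    refine Finset.sum_congr rfl fun i _ => ?_
    rw [KK_apply, ← QQ_sym hP]
  have Kform : ∀ f : E, (inner ℂ (KK P f) f).re = 1 / 2 * ∑ i,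
      (‖QQ P i (f i) - QQ P (i + 1) (f (i + 1))‖ ^ 2 +
      ‖QQ P i (f i) - QQ P (i - 1) (f (i - 1))‖ ^ 2 + ‖QQ P i (f i) - QQ P (i + 2) (f (i + 2))‖ ^ 2 +
      ‖QQ P i (f i) - QQ P (i - 2) (f (i - 2))‖ ^ 2) := by
    intro f
    rw [Kin]
    exact lap_form (fun j => QQ P j (f j))
  have Knorm : ∀ f : E, ‖KK P f‖ ^ 2 = ∑ i, ‖QQ P i (Lap (fun j => QQ P j (f j)) i)‖ ^ 2 := by
    intro f
    rw [PiLp.norm_sq_eq_of_L2]
    rfl
  have Kb : ∀ f : E, (inner ℂ (KK P f) f).re ≤ 127 * ‖KK P f‖ ^ 2 := by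
    intro f
    have h3 := h2 H P hP (fun j => QQ P j (f j)) (fun i => QQ_idem hP i _)
    have h4 := gap (fun j => QQ P j (f j))
    rw [Kform, Knorm]
    have h5 : 0 ≤ ∑ i, ‖QQ P i (Lap (fun j => QQ P j (f j)) i)‖ ^ 2 :=
      Finset.sum_nonneg fun i _ => sq_nonneg _
    linarith
  have Kpos : ∀ f : E, 0 ≤ (inner ℂ (KK P f) f).re := by
    intro f
    rw [Kform]
    have : 0 ≤ ∑ i, (‖QQ P i (f i) - QQ P (i + 1) (f (i + 1))‖ ^ 2 +
      ‖QQ P i (f i) - QQ P (i - 1) (f (i - 1))‖ ^ 2 + ‖QQ P i (f i) - QQ P (i + 2) (f (i + 2))‖ ^ 2 +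
      ‖QQ P i (f i) - QQ P (i - 2) (f (i - 2))‖ ^ 2) :=
      Finset.sum_nonneg fun i _ => by positivity
    linarith
  let f : E := WithLp.toLp 2 (fun i => QQ P i v)
  have fi : ∀ i, f i = QQ P i v := fun i => rfl
  have fker : ∀ g : E, KK P g = 0 → inner ℂ g f = 0 := by
    intro g hg
    have h3 : (inner ℂ (KK P g) g).re = 0 := by rw [hg, inner_zero_left]; rfl
    rw [Kform] at h3
    have h4 : ∑ i, (‖QQ P i (g i) - QQ P (i + 1) (g (i + 1))‖ ^ 2 +
      ‖QQ P i (g i) - QQ P (i - 1) (g (i - 1))‖ ^ 2 + ‖QQ P i (g i) - QQ P (i + 2) (g (i + 2))‖ ^ 2 +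
      ‖QQ P i (g i) - QQ P (i - 2) (g (i - 2))‖ ^ 2) = 0 := by linarith
    rw [Finset.sum_eq_zero_iff_of_nonneg (fun i _ => by positivity)] at h4
    have h5 : ∀ i, QQ P i (g i) = QQ P (i + 1) (g (i + 1)) := by
      intro i
      have h6 := h4 i (Finset.mem_univ i)
      have h7 : ‖QQ P i (g i) - QQ P (i + 1) (g (i + 1))‖ ^ 2 = 0 := by
        nlinarith [sq_nonneg ‖QQ P i (g i) - QQ P (i + 1) (g (i + 1))‖,
          sq_nonneg ‖QQ P i (g i) - QQ P (i - 1) (g (i - 1))‖,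
          sq_nonneg ‖QQ P i (g i) - QQ P (i + 2) (g (i + 2))‖,
          sq_nonneg ‖QQ P i (g i) - QQ P (i - 2) (g (i - 2))‖]
      exact sub_eq_zero.1 (norm_eq_zero.1 (pow_eq_zero_iff (two_ne_zero) |>.1 h7))
    have h8 : ∀ i, QQ P i (g i) = QQ P 0 (g 0) := by
      have k1 := h5 0
      have k2 := h5 1
      have k3 := h5 2
      have k4 := h5 3
      have k5 := h5 4
      have e1 : (0 : ZMod 6) + 1 = 1 := by decide
      have e2 : (1 : ZMod 6) + 1 = 2 := by decide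
      have e3 : (2 : ZMod 6) + 1 = 3 := by decide
      have e4 : (3 : ZMod 6) + 1 = 4 := by decide
      have e5 : (4 : ZMod 6) + 1 = 5 := by decide
      rw [e1] at k1
      rw [e2] at k2
      rw [e3] at k3
      rw [e4] at k4
      rw [e5] at k5
      intro i
      fin_cases i
      · rfl
      · exact k1.symm
      · exact (k1.trans k2).symm
      · exact (k1.trans (k2.trans k3)).symm
      · exact (k1.trans (k2.trans (k3.trans k4))).symm
      · exact (k1.trans (k2.trans (k3.trans (k4.trans k5)))).symm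
    have h9 : ∀ i, P i (QQ P 0 (g 0)) = QQ P 0 (g 0) := by
      intro i
      rw [← h8 i]
      exact QQ_fix hP (QQ_idem hP i _)
    have h10 := hv _ h9
    rw [PiLp.inner_apply]
    refine Finset.sum_eq_zero fun i _ => ?_
    rw [fi, ← QQ_sym hP, h8 i]
    exact h10
  have hmain := abs_gap (KK P) Ksym Kpos 127 (by norm_num) Kb f fker
  -- estimates
  have pq : ∀ i w, ‖w‖ ^ 2 = ‖w - QQ P i w‖ ^ 2 + ‖QQ P i w‖ ^ 2 := by
    intro i w
    have h : inner ℂ (w - QQ P i w) (QQ P i w) = 0 := by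
      rw [← QQ_sym hP, map_sub, QQ_idem hP, sub_self, inner_zero_left]
    have h3 := pyth h
    rw [sub_add_cancel] at h3
    exact h3
  let e : ZMod 6 → ℝ := fun i => ‖v - QQ P i v‖ ^ 2
  have sh : ∀ (F : ZMod 6 → ℝ) (k : ZMod 6), ∑ i, F (i + k) = ∑ i, F i := fun F k =>
    Equiv.sum_comp (Equiv.addRight k) F
  have sh' : ∀ (F : ZMod 6 → ℝ) (k : ZMod 6), ∑ i, F (i - k) = ∑ i, F i := fun F k =>
    Equiv.sum_comp (Equiv.subRight k) F
  have dif : ∀ i j, ‖QQ P i (f i) - QQ P j (f j)‖ ^ 2 ≤ 2 * (e i + e j) := by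
    intro i j
    rw [fi, fi, QQ_idem hP, QQ_idem hP]
    have h3 : QQ P i v - QQ P j v = -(v - QQ P i v) + (v - QQ P j v) := by abel
    rw [h3]
    have h4 := two (-(v - QQ P i v)) (v - QQ P j v)
    rw [norm_neg] at h4
    exact h4
  have hform : (inner ℂ (KK P f) f).re ≤ 8 * ∑ i, e i := by
    rw [Kform]
    have h3 : ∑ i, (‖QQ P i (f i) - QQ P (i + 1) (f (i + 1))‖ ^ 2 +
      ‖QQ P i (f i) - QQ P (i - 1) (f (i - 1))‖ ^ 2 + ‖QQ P i (f i) - QQ P (i + 2) (f (i + 2))‖ ^ 2 +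
      ‖QQ P i (f i) - QQ P (i - 2) (f (i - 2))‖ ^ 2) ≤
      ∑ i, (2 * (e i + e (i + 1)) + 2 * (e i + e (i - 1)) + 2 * (e i + e (i + 2)) +
        2 * (e i + e (i - 2))) :=
      Finset.sum_le_sum fun i _ => add_le_add (add_le_add (add_le_add (dif _ _) (dif _ _))
        (dif _ _)) (dif _ _)
    have h4 : ∑ i, (2 * (e i + e (i + 1)) + 2 * (e i + e (i - 1)) + 2 * (e i + e (i + 2)) +
        2 * (e i + e (i - 2))) = 16 * ∑ i, e i := by
      simp only [Finset.sum_add_distrib, ← Finset.mul_sum, sh e, sh' e]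
      ring
    linarith
  have hnorm : ‖f‖ ^ 2 = 6 * ‖v‖ ^ 2 - ∑ i, e i := by
    rw [PiLp.norm_sq_eq_of_L2]
    have h3 : ∀ i, ‖f i‖ ^ 2 = ‖v‖ ^ 2 - e i := by
      intro i
      rw [fi]
      have := pq i v
      simp only [e]
      linarith
    rw [Finset.sum_congr rfl fun i _ => h3 i, Finset.sum_sub_distrib, sum6]
    ring
  have he : ∀ i, e i ≤ 3 * (‖v - P i v‖ ^ 2 + ‖v - P (i - 1) v‖ ^ 2 + ‖v - P (i + 1) v‖ ^ 2) := by
    intro i
    have h3 : ‖v - QQ P i v‖ ≤ ‖v - P i v‖ + ‖v - P (i - 1) v‖ + ‖v - P (i + 1) v‖ :=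
      triQ (hP.sa (i - 1)) (hP.sa (i + 1)) v
    have h4 : ‖v - QQ P i v‖ ^ 2 ≤ (‖v - P i v‖ + ‖v - P (i - 1) v‖ + ‖v - P (i + 1) v‖) ^ 2 :=
      pow_le_pow_left₀ (norm_nonneg _) h3 2
    simp only [e]
    nlinarith [sq_nonneg (‖v - P i v‖ - ‖v - P (i - 1) v‖),
      sq_nonneg (‖v - P i v‖ - ‖v - P (i + 1) v‖), sq_nonneg (‖v - P (i - 1) v‖ - ‖v - P (i + 1) v‖)]
  have hsum : ∑ i, e i ≤ 9 * ∑ i, ‖v - P i v‖ ^ 2 := by
    have h3 := Finset.sum_le_sum fun (i : ZMod 6) (_ : i ∈ Finset.univ) => he i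
    have h4 : ∑ i, 3 * (‖v - P i v‖ ^ 2 + ‖v - P (i - 1) v‖ ^ 2 + ‖v - P (i + 1) v‖ ^ 2) =
        9 * ∑ i, ‖v - P i v‖ ^ 2 := by
      rw [← Finset.mul_sum, Finset.sum_add_distrib, Finset.sum_add_distrib,
        sh (fun i => ‖v - P i v‖ ^ 2), sh' (fun i => ‖v - P i v‖ ^ 2)]
      ring
    linarith
  have hnn : 0 ≤ ∑ i, ‖v - P i v‖ ^ 2 := Finset.sum_nonneg fun i _ => sq_nonneg _
  linarith

end Pool.Agent.Helper702_TH.V3
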